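import Pool.Agent.TH837.VP.Eqv

/-!
# Approximative complexity: the permanent and the permanents of Vandermonde matrices
-/

set_option autoImplicit false

namespace Pool.Agent.TH837.VP.Bd

open MvPolynomial

/-- All coefficients of `P` are defined at `ε = 0` and `P_{ε=0} = f`. -/
def Sp {k σ : Type} [Field k] (P : MvPolynomial σ (RatFunc k)) (f : MvPolynomial σ k) : Prop :=
  ∀ d, (coeff d P).denom.eval 0 ≠ 0 ∧ (coeff d P).eval (RingHom.id k) 0 = coeff d f

variable {k : Type} [Field k]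

theorem eval_ne_of_dvd {p q : Polynomial k} (h : p ∣ q) (hq : q.eval 0 ≠ 0) : p.eval 0 ≠ 0 := by
  obtain ⟨r, rfl⟩ := h
  rw [Polynomial.eval_mul] at hq
  exact left_ne_zero_of_mul hq

/-- The rational functions that are defined at `ε = 0`. -/
def reg (k : Type) [Field k] : Subring (RatFunc k) where
  carrier := {x | x.denom.eval 0 ≠ 0}
  mul_mem' := by
    intro a b ha hb
    refine eval_ne_of_dvd (RatFunc.denom_mul_dvd a b) ?_
    rw [Polynomial.eval_mul]
    exact mul_ne_zero ha hb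
  add_mem' := by
    intro a b ha hb
    refine eval_ne_of_dvd (RatFunc.denom_add_dvd a b) ?_
    rw [Polynomial.eval_mul]
    exact mul_ne_zero ha hb
  neg_mem' := by
    intro a ha
    have h1 : (-a) = (RatFunc.C (-1)) * a := by simp
    show ((-a).denom).eval 0 ≠ 0
    rw [h1]
    refine eval_ne_of_dvd (RatFunc.denom_mul_dvd _ a) ?_
    rw [Polynomial.eval_mul]
    exact mul_ne_zero (by rw [RatFunc.denom_C]; simp) ha
  one_mem' := by simp
  zero_mem' := by simp

/-- evaluation at `ε = 0` -/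
noncomputable def ev : reg k →+* k where
  toFun x := (x : RatFunc k).eval (RingHom.id k) 0
  map_one' := by simp
  map_zero' := by simp
  map_mul' := by
    intro x y
    exact RatFunc.eval_mul (RingHom.id k) 0 x.2 y.2
  map_add' := by
    intro x y
    exact RatFunc.eval_add (RingHom.id k) 0 x.2 y.2

/-- constants -/
noncomputable def cst : k →+* reg k where
  toFun c := ⟨RatFunc.C c, by show (RatFunc.C c).denom.eval 0 ≠ 0; simp⟩
  map_one' := by ext; simp
  map_zero' := by ext; simp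
  map_mul' := by intro x y; ext; simp
  map_add' := by intro x y; ext; simp

theorem subtype_comp_cst : (reg k).subtype.comp cst = (RatFunc.C : k →+* RatFunc k) := rfl

theorem ev_comp_cst : (ev (k := k)).comp cst = RingHom.id k := by
  ext x
  show (RatFunc.C x).eval (RingHom.id k) 0 = x
  simp

theorem sp_iff {σ : Type} (P : MvPolynomial σ (RatFunc k)) (f : MvPolynomial σ k) :
    Sp P f ↔ ∃ Q : MvPolynomial σ (reg k), map (reg k).subtype Q = P ∧ map ev Q = f := by
  classical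
  constructor
  · intro h
    refine ⟨∑ d ∈ P.support, monomial d ⟨coeff d P, (h d).1⟩, ?_, ?_⟩
    · rw [map_sum]
      conv_rhs => rw [P.as_sum]
      refine Finset.sum_congr rfl fun d _ => ?_
      rw [map_monomial]
      rfl
    · ext d
      rw [map_sum, coeff_sum]
      simp only [map_monomial, coeff_monomial]
      rw [Finset.sum_ite_eq']
      refine Eq.trans ?_ (h d).2
      split_ifs with h1
      · rfl
      · rw [notMem_support_iff.1 h1]
        simp
  · rintro ⟨Q, rfl, rfl⟩ d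
    rw [coeff_map, coeff_map]
    exact ⟨(coeff d Q).2, rfl⟩

/-- substitution -/
theorem Sp.subst {σ τ : Type} {P : MvPolynomial τ (RatFunc k)} {f : MvPolynomial τ k}
    (h : Sp P f) (ℓ : τ → MvPolynomial σ k) :
    Sp (aeval (fun i => map (RatFunc.C : k →+* RatFunc k) (ℓ i)) P) (aeval ℓ f) := by
  rw [sp_iff] at h ⊢
  obtain ⟨Q, rfl, rfl⟩ := h
  refine ⟨aeval (fun i => map cst (ℓ i)) Q, ?_, ?_⟩
  · show map _ (bind₁ _ Q) = bind₁ _ (map _ Q)
    rw [map_bind₁]
    congr 2
    funext i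
    rw [map_map, subtype_comp_cst]
  · show map _ (bind₁ _ Q) = bind₁ _ (map _ Q)
    rw [map_bind₁]
    congr 2
    funext i
    rw [map_map, ev_comp_cst, map_id]

/-- linear combinations -/
theorem Sp.lin {σ : Type} {s : ℕ} (q : Fin s → k) {P : Fin s → MvPolynomial σ (RatFunc k)}
    {f : Fin s → MvPolynomial σ k} (h : ∀ j, Sp (P j) (f j)) :
    Sp (∑ j, C (RatFunc.C (q j)) * P j) (∑ j, C (q j) * f j) := by
  simp only [sp_iff] at h ⊢
  choose Q h1 h2 using h
  refine ⟨∑ j, C (cst (q j)) * Q j, ?_, ?_⟩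
  · simp only [map_sum, map_mul, map_C, h1]
    rfl
  · simp only [map_sum, map_mul, map_C, h2]
    refine Finset.sum_congr rfl fun j _ => ?_
    rw [show ev (cst (q j)) = q j from RingHom.congr_fun ev_comp_cst (q j)]

/-- `p` is a variable, a constant or a member of the list `L`. -/
def Av {K σ : Type} [Field K] (L : List (MvPolynomial σ K)) (p : MvPolynomial σ K) : Prop :=
  (∃ v, p = X v) ∨ (∃ c, p = C c) ∨ p ∈ L

/-- A list of polynomials, each the sum, the difference or the product of two polynomials which are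
variables, constants or later entries of the list. -/
def Slo {K σ : Type} [Field K] : List (MvPolynomial σ K) → Prop
  | [] => True
  | p :: L => (∃ a b, Av L a ∧ Av L b ∧ (p = a + b ∨ p = a - b ∨ p = a * b)) ∧ Slo L

section
variable {K σ : Type} [Field K]

theorem Av.mono {L L' : List (MvPolynomial σ K)} {p : MvPolynomial σ K} (h : Av L p)
    (hL : ∀ q ∈ L, q ∈ L') : Av L' p := by
  rcases h with h | h | h
  · exact Or.inl h
  · exact Or.inr (Or.inl h)
  · exact Or.inr (Or.inr (hL _ h))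

theorem Slo.append {L L' : List (MvPolynomial σ K)} (h : Slo L) (h' : Slo L') :
    Slo (L ++ L') := by
  induction L with
  | nil => exact h'
  | cons p L ih =>
    obtain ⟨⟨a, b, ha, hb, h1⟩, h2⟩ := h
    exact ⟨⟨a, b, ha.mono fun q hq => List.mem_append_left _ hq,
      hb.mono fun q hq => List.mem_append_left _ hq, h1⟩, ih h2⟩

/-- substitution -/
theorem Slo.subst {τ : Type} (θ : MvPolynomial τ K →ₐ[K] MvPolynomial σ K)
    (L0 : List (MvPolynomial σ K)) (h0 : Slo L0) (hθ : ∀ v, Av L0 (θ (X v)))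
    (L : List (MvPolynomial τ K)) (h : Slo L) :
    ∃ L' : List (MvPolynomial σ K), Slo L' ∧ L'.length = L.length + L0.length ∧
      ∀ p, Av L p → Av L' (θ p) := by
  have key : ∃ L' : List (MvPolynomial σ K), Slo L' ∧ L'.length = L.length + L0.length ∧
      (∀ p ∈ L0, p ∈ L') ∧ ∀ p, Av L p → Av L' (θ p) := by
    induction L with
    | nil =>
      refine ⟨L0, h0, by simp, fun p hp => hp, fun p hp => ?_⟩
      rcases hp with ⟨v, rfl⟩ | ⟨c, rfl⟩ | hp
      · exact hθ v
      · exact Or.inr (Or.inl ⟨c, AlgHom.commutes θ c⟩)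
      · simp at hp
    | cons p L ih =>
      obtain ⟨⟨a, b, ha, hb, h5⟩, h6⟩ := h
      obtain ⟨L', h1, h2, h3, h4⟩ := ih h6
      refine ⟨θ p :: L', ⟨⟨θ a, θ b, h4 a ha, h4 b hb, ?_⟩, h1⟩,
        by simp only [List.length_cons]; omega,
        fun q hq => List.mem_cons_of_mem _ (h3 q hq), fun q hq => ?_⟩
      · rcases h5 with rfl | rfl | rfl
        · exact Or.inl (map_add θ a b)
        · exact Or.inr (Or.inl (map_sub θ a b))
        · exact Or.inr (Or.inr (map_mul θ a b))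
      · rcases hq with ⟨v, rfl⟩ | ⟨c, rfl⟩ | hq
        · exact (hθ v).mono fun r hr => List.mem_cons_of_mem _ (h3 r hr)
        · exact Or.inr (Or.inl ⟨c, AlgHom.commutes θ c⟩)
        · rcases List.mem_cons.1 hq with rfl | hq
          · exact Or.inr (Or.inr List.mem_cons_self)
          · exact (h4 q (Or.inr (Or.inr hq))).mono fun r hr => List.mem_cons_of_mem _ hr
  obtain ⟨L', h1, h2, -, h4⟩ := key
  exact ⟨L', h1, h2, h4⟩

/-- linear combinations -/
theorem Slo.linear_combination (k s : ℕ) (q : Fin k → K) (p : Fin k → MvPolynomial σ K)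
    (h : ∀ j, ∃ L : List (MvPolynomial σ K), Slo L ∧ L.length ≤ s ∧ Av L (p j)) :
    ∃ L : List (MvPolynomial σ K), Slo L ∧ L.length ≤ k * (s + 2) ∧
      Av L (∑ j, C (q j) * p j) := by
  induction k with
  | zero => exact ⟨[], trivial, by simp, Or.inr (Or.inl ⟨0, by simp⟩)⟩
  | succ k ih =>
    obtain ⟨L, h1, h2, h3⟩ := ih (fun j => q j.castSucc) (fun j => p j.castSucc)
      (fun j => h j.castSucc)
    obtain ⟨L', h1', h2', h3'⟩ := h (Fin.last k)
    set a := ∑ j : Fin k, C (q j.castSucc) * p j.castSucc with ha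
    set b := C (q (Fin.last k)) * p (Fin.last k) with hb
    refine ⟨(a + b) :: b :: (L ++ L'), ⟨⟨a, b, ?_, ?_, Or.inl rfl⟩, ⟨C (q (Fin.last k)),
      p (Fin.last k), ?_, ?_, Or.inr (Or.inr rfl)⟩, h1.append h1'⟩, ?_, ?_⟩
    · exact h3.mono fun r hr => List.mem_cons_of_mem _ (List.mem_append_left _ hr)
    · exact Or.inr (Or.inr List.mem_cons_self)
    · exact Or.inr (Or.inl ⟨_, rfl⟩)
    · exact h3'.mono fun r hr => List.mem_append_right _ hr
    · simp only [List.length_cons, List.length_append]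
      rw [Nat.succ_mul]
      omega
    · rw [Fin.sum_univ_castSucc]
      exact Or.inr (Or.inr List.mem_cons_self)

/-- concatenation of programs -/
theorem Slo.flat (c : ℕ) (k : ℕ) (f : Fin k → List (MvPolynomial σ K))
    (h : ∀ i, Slo (f i) ∧ (f i).length ≤ c) :
    ∃ L : List (MvPolynomial σ K), Slo L ∧ L.length ≤ k * c ∧ ∀ i, ∀ p, Av (f i) p → Av L p := by
  induction k with
  | zero => exact ⟨[], trivial, by simp, fun i => i.elim0⟩
  | succ k ih =>
    obtain ⟨L, h1, h2, h3⟩ := ih (fun i => f i.castSucc) (fun i => h i.castSucc)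
    refine ⟨L ++ f (Fin.last k), h1.append (h _).1, ?_, fun i => ?_⟩
    · rw [List.length_append, Nat.succ_mul]
      have := (h (Fin.last k)).2
      omega
    · refine Fin.lastCases ?_ (fun j => ?_) i
      · intro p hp
        exact hp.mono fun r hr => List.mem_append_right _ hr
      · intro p hp
        exact (h3 j p hp).mono fun r hr => List.mem_append_left _ hr

/-- the powers of a variable -/
noncomputable def pwo (i : σ) : ℕ → List (MvPolynomial σ K)
  | 0 => []
  | k + 1 => X i ^ (k + 2) :: pwo i k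

theorem pwo_spec (i : σ) (k : ℕ) : Slo (pwo i k : List (MvPolynomial σ K)) ∧
    (pwo i k : List (MvPolynomial σ K)).length = k ∧
    ∀ j ≤ k + 1, Av (pwo i k : List (MvPolynomial σ K)) (X i ^ j) := by
  induction k with
  | zero =>
    refine ⟨trivial, rfl, fun j hj => ?_⟩
    rcases Nat.le_one_iff_eq_zero_or_eq_one.1 hj with rfl | rfl
    · exact Or.inr (Or.inl ⟨1, by simp⟩)
    · exact Or.inl ⟨i, by simp⟩
  | succ k ih =>
    obtain ⟨h1, h2, h4⟩ := ih
    refine ⟨⟨⟨X i ^ (k + 1), X i, h4 _ le_rfl, Or.inl ⟨i, rfl⟩,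
      Or.inr (Or.inr (pow_succ _ _))⟩, h1⟩, by simp [pwo, h2], fun j hj => ?_⟩
    rcases Nat.lt_succ_iff_lt_or_eq.1 (Nat.lt_succ_of_le hj) with h | h
    · exact (h4 j (by omega)).mono fun r hr => List.mem_cons_of_mem _ hr
    · subst h
      exact Or.inr (Or.inr List.mem_cons_self)

theorem isAff_slo (p : MvPolynomial σ K) (h : IsAff p) :
    ∃ L : List (MvPolynomial σ K), Slo L ∧ L.length ≤ 2 ∧ Av L p := by
  rcases h with ⟨a, rfl⟩ | ⟨a, b, v, rfl⟩
  · exact ⟨[], trivial, by simp, Or.inr (Or.inl ⟨a, rfl⟩)⟩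
  · refine ⟨[C a + C b * X v, C b * X v], ⟨⟨C a, C b * X v, Or.inr (Or.inl ⟨a, rfl⟩),
      Or.inr (Or.inr (by simp)), Or.inl rfl⟩, ⟨C b, X v, Or.inr (Or.inl ⟨b, rfl⟩),
      Or.inl ⟨v, rfl⟩, Or.inr (Or.inr rfl)⟩, trivial⟩, by simp, Or.inr (Or.inr (by simp))⟩

end

/-- `f` is approximatively computed with `r` additions, subtractions and multiplications -/
def Apx {σ : Type} (r : ℕ) (f : MvPolynomial σ k) : Prop :=
  ∃ P : MvPolynomial σ (RatFunc k), Sp P f ∧
    ∃ L : List (MvPolynomial σ (RatFunc k)), Slo L ∧ L.length ≤ r ∧ Av L P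

theorem Apx.mono {σ : Type} {s s' : ℕ} {f : MvPolynomial σ k} (h : Apx s f) (hs : s ≤ s') :
    Apx s' f := by
  obtain ⟨P, h1, L, h2, h3, h4⟩ := h
  exact ⟨P, h1, L, h2, h3.trans hs, h4⟩

theorem van_of_per (n s : ℕ) (h : Apx s (gper k n)) : Apx (s + n ^ 2) (gvan k n) := by
  obtain ⟨P, hP, L, h1, h2, h3⟩ := h
  obtain ⟨L0, k1, k2, k3⟩ := Slo.flat n n
    (fun i => (pwo i n : List (MvPolynomial (Fin n) (RatFunc k))))
    (fun i => ⟨(pwo_spec i n).1, (pwo_spec i n).2.1.le⟩)
  have hs := hP.subst (fun p : Fin n × Fin n => (X p.1 ^ (p.2 : ℕ) : MvPolynomial (Fin n) k))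
  obtain ⟨L', l1, l2, l4⟩ := Slo.subst
    (aeval fun p : Fin n × Fin n => map (RatFunc.C : k →+* RatFunc k)
      (X p.1 ^ (p.2 : ℕ) : MvPolynomial (Fin n) k)) L0 k1
    (by
      intro v
      rw [aeval_X, map_pow, map_X]
      exact k3 v.1 _ ((pwo_spec v.1 n).2.2 _ (v.2.2.le.trans (Nat.le_succ n)))) L h1
  have h4 := l4 _ h3
  rw [map_gper] at hs
  exact ⟨_, hs, L', l1, by rw [l2, pow_two]; omega, h4⟩

theorem isAff_map {σ : Type} {p : MvPolynomial σ k} (h : IsAff p) :
    IsAff (map (RatFunc.C : k →+* RatFunc k) p) := by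
  rcases h with ⟨a, rfl⟩ | ⟨a, b, v, rfl⟩
  · exact Or.inl ⟨RatFunc.C a, by simp⟩
  · exact Or.inr ⟨RatFunc.C a, RatFunc.C b, v, by simp⟩

theorem per_of_van [CharZero k] (m B : ℕ)
    (h : ∀ n ≤ 700 * (m + 1) ^ 4, Apx B (gvan k n)) :
    Apx (10 ^ 11 * (m + 1) ^ 17 * (B + 1400 * (m + 1) ^ 4 + 2)) (gper k m) := by
  obtain ⟨s, q, n, ℓ, h1, h2, h3, h4⟩ := rep k m
  have key : ∀ j : Fin s, ∃ P : MvPolynomial (Fin m × Fin m) (RatFunc k),
      Sp P (Matrix.vandermonde (ℓ j)).permanent ∧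
      ∃ L : List (MvPolynomial (Fin m × Fin m) (RatFunc k)), Slo L ∧
      L.length ≤ B + 1400 * (m + 1) ^ 4 ∧ Av L P := by
    intro j
    obtain ⟨P, hP, L, a1, a2, a3⟩ := h (n j) (h2 j)
    choose f f1 f2 f3 using fun i => isAff_slo _ (isAff_map (h3 j i))
    obtain ⟨L0, k1, k2, k3⟩ := Slo.flat 2 (n j) f (fun i => ⟨f1 i, f2 i⟩)
    obtain ⟨L', l1, l2, l4⟩ := Slo.subst
      (aeval fun i => map (RatFunc.C : k →+* RatFunc k) (ℓ j i)) L0 k1
      (by
        intro v
        rw [aeval_X]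
        exact k3 v _ (f3 v)) L a1
    have h5 := l4 _ a3
    have h6 := hP.subst (ℓ j)
    rw [map_gvan] at h6
    have := h2 j
    exact ⟨_, h6, L', l1, by omega, h5⟩
  choose P hP hL using key
  obtain ⟨L, b1, b2, b3⟩ := Slo.linear_combination s _ (fun j => RatFunc.C (q j)) _ hL
  have h7 := Sp.lin q hP
  rw [← h4] at h7
  exact ⟨_, h7, L, b1, b2.trans (Nat.mul_le_mul_right _ h1), b3⟩

/-- The approximative complexity of the permanents of the generic matrices is polynomially bounded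
if and only if that of the permanents of the Vandermonde matrices is. -/
theorem per_iff_van (k : Type) [Field k] [CharZero k] :
    (∃ K e : ℕ, ∀ n : ℕ, Apx (K * (n + 1) ^ e) (gper k n)) ↔
      ∃ K e : ℕ, ∀ n : ℕ, Apx (K * (n + 1) ^ e) (gvan k n) := by
  constructor
  · rintro ⟨K, e, h⟩
    refine ⟨K + 1, e + 2, fun n => (van_of_per n _ (h n)).mono ?_⟩
    have h1 : 1 ≤ (n + 1) ^ e := Nat.one_le_pow _ _ (by omega)
    have h2 : 1 ≤ (n + 1) ^ 2 := Nat.one_le_pow _ _ (by omega)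
    calc K * (n + 1) ^ e + n ^ 2 ≤ K * ((n + 1) ^ e * (n + 1) ^ 2)
          + (n + 1) ^ e * (n + 1) ^ 2 := by
          apply Nat.add_le_add
          · exact Nat.mul_le_mul_left _ (Nat.le_mul_of_pos_right _ h2)
          · calc n ^ 2 ≤ (n + 1) ^ 2 := Nat.pow_le_pow_left (Nat.le_succ n) 2
              _ ≤ (n + 1) ^ e * (n + 1) ^ 2 := Nat.le_mul_of_pos_left _ h1
      _ = (K + 1) * (n + 1) ^ (e + 2) := by ring
  · rintro ⟨K, e, h⟩
    refine ⟨10 ^ 11 * (K * 701 ^ e + 1402), 17 + (4 * e + 4), fun m => ?_⟩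
    have h0 : ∀ k, 1 ≤ (m + 1) ^ k := fun k => Nat.one_le_pow _ _ (by omega)
    have h1 : ∀ n ≤ 700 * (m + 1) ^ 4, Apx (K * (701 ^ e * (m + 1) ^ (4 * e))) (gvan k n) := by
      intro n hn
      refine (h n).mono (Nat.mul_le_mul_left _ ?_)
      calc (n + 1) ^ e ≤ (701 * (m + 1) ^ 4) ^ e := by
            apply Nat.pow_le_pow_left
            have := h0 4
            omega
        _ = 701 ^ e * (m + 1) ^ (4 * e) := by rw [mul_pow, ← pow_mul]
    refine (per_of_van m _ h1).mono ?_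
    have h2 : K * (701 ^ e * (m + 1) ^ (4 * e)) + 1400 * (m + 1) ^ 4 + 2
        ≤ (K * 701 ^ e + 1402) * (m + 1) ^ (4 * e + 4) := by
      have e1 : (m + 1) ^ (4 * e) ≤ (m + 1) ^ (4 * e + 4) :=
        Nat.pow_le_pow_right (by omega) (by omega)
      have e2 : (m + 1) ^ 4 ≤ (m + 1) ^ (4 * e + 4) :=
        Nat.pow_le_pow_right (by omega) (by omega)
      have e3 := h0 (4 * e + 4)
      have e4 : K * (701 ^ e * (m + 1) ^ (4 * e)) ≤ K * 701 ^ e * (m + 1) ^ (4 * e + 4) := by
        rw [← mul_assoc]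
        exact Nat.mul_le_mul_left _ e1
      rw [add_mul]
      omega
    calc 10 ^ 11 * (m + 1) ^ 17 *
          (K * (701 ^ e * (m + 1) ^ (4 * e)) + 1400 * (m + 1) ^ 4 + 2)
        ≤ 10 ^ 11 * (m + 1) ^ 17 * ((K * 701 ^ e + 1402) * (m + 1) ^ (4 * e + 4)) :=
          Nat.mul_le_mul_left _ h2
      _ = 10 ^ 11 * (K * 701 ^ e + 1402) * (m + 1) ^ (17 + (4 * e + 4)) := by
          rw [pow_add (m + 1) 17]
          ring

end Pool.Agent.TH837.VP.Bd
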