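import Mathlib

/-!
# Sums over injections into `{0, …, n-1}`

`inj x n A = ∑_{e : A ↪ {0,…,n-1}} ∏_{a ∈ A} x_a ^ e(a)`, defined by the recursion on `n`.
-/

set_option autoImplicit false

namespace Pool.Agent.TH837.VP

open Finset

variable {ι R : Type*} [DecidableEq ι] [CommRing R]

/-- Sum over all injections `e : A → {0,…,n-1}` of `∏ a ∈ A, x a ^ e a`. -/
def inj (x : ι → R) : ℕ → Finset ι → R
  | 0, A => if A = ∅ then 1 else 0
  | n + 1, A => inj x n A + ∑ a ∈ A, x a ^ n * inj x n (A.erase a)

theorem inj_zero (x : ι → R) (A : Finset ι) : inj x 0 A = if A = ∅ then 1 else 0 := rfl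

theorem inj_succ (x : ι → R) (n : ℕ) (A : Finset ι) :
    inj x (n + 1) A = inj x n A + ∑ a ∈ A, x a ^ n * inj x n (A.erase a) := rfl

@[simp] theorem inj_empty (x : ι → R) (n : ℕ) : inj x n ∅ = 1 := by
  induction n with
  | zero => simp [inj_zero]
  | succ n ih => simp [inj_succ, ih]

theorem inj_of_lt (x : ι → R) (n : ℕ) (A : Finset ι) (h : n < A.card) : inj x n A = 0 := by
  induction n generalizing A with
  | zero =>
    rw [inj_zero, if_neg]
    rintro rfl
    simp at h
  | succ n ih =>
    rw [inj_succ, ih A (by omega), zero_add]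
    apply Finset.sum_eq_zero
    intro a ha
    rw [ih _ (by rw [card_erase_of_mem ha]; omega), mul_zero]

theorem inj_congr (x y : ι → R) (n : ℕ) (A : Finset ι) (h : ∀ a ∈ A, x a = y a) :
    inj x n A = inj y n A := by
  induction n generalizing A with
  | zero => rfl
  | succ n ih =>
    rw [inj_succ, inj_succ, ih A h]
    congr 1
    apply Finset.sum_congr rfl
    intro a ha
    rw [h a ha, ih (A.erase a) fun b hb => h b (mem_of_mem_erase hb)]

theorem map_inj {S : Type*} [CommRing S] (f : R →+* S) (x : ι → R) (n : ℕ) (A : Finset ι) :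
    f (inj x n A) = inj (fun a => f (x a)) n A := by
  induction n generalizing A with
  | zero => simp only [inj_zero]; split_ifs <;> simp
  | succ n ih => simp only [inj_succ, map_add, map_sum, map_mul, map_pow, ih]

theorem inj_map {κ : Type*} [DecidableEq κ] (f : κ ↪ ι) (x : ι → R) (n : ℕ) (A : Finset κ) :
    inj x n (A.map f) = inj (fun a => x (f a)) n A := by
  induction n generalizing A with
  | zero => simp only [inj_zero, map_eq_empty]
  | succ n ih =>
    rw [inj_succ, inj_succ, ih, sum_map]
    congr 1
    apply Finset.sum_congr rfl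
    intro a _
    rw [← map_erase, ih]

/-- a variable equal to `1` -/
theorem inj_insert_one (x : ι → R) (n : ℕ) (A : Finset ι) (b : ι) (hb : b ∉ A) (h1 : x b = 1) :
    inj x n (insert b A) = ((n : R) - (A.card : R)) * inj x n A := by
  induction n generalizing A with
  | zero =>
    rw [inj_zero, if_neg (insert_ne_empty b A), inj_zero]
    split_ifs with h
    · subst h; simp
    · simp
  | succ n ih =>
    rw [inj_succ, inj_succ, sum_insert hb, erase_insert hb, h1, one_pow, one_mul, ih A hb]
    have h : ∑ a ∈ A, x a ^ n * inj x n ((insert b A).erase a)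
        = ((n : R) - (A.card : R) + 1) * ∑ a ∈ A, x a ^ n * inj x n (A.erase a) := by
      rw [mul_sum]
      apply Finset.sum_congr rfl
      intro a ha
      have hab : a ≠ b := by rintro rfl; exact hb ha
      rw [erase_insert_of_ne hab.symm, ih (A.erase a) (fun h => hb (mem_of_mem_erase h)),
        card_erase_of_mem ha]
      have : 1 ≤ A.card := card_pos.2 ⟨a, ha⟩
      push_cast [Nat.cast_sub this]
      ring
    rw [h]
    push_cast
    ring

/-- The recursion over the block of `a`. -/
theorem inj_insert (x : ι → R) (n : ℕ) (A : Finset ι) (a : ι) (ha : a ∉ A) :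
    inj x n (insert a A) = ∑ D ∈ A.powerset, ((-1) ^ D.card * (D.card.factorial : R)) *
      (∑ j ∈ range n, (x a * ∏ d ∈ D, x d) ^ j) * inj x n (A \ D) := by
  induction n generalizing A with
  | zero =>
    rw [inj_zero, if_neg (insert_ne_empty a A)]
    simp
  | succ n ih =>
    have hL : inj x (n + 1) (insert a A) = inj x n (insert a A) + (x a ^ n * inj x n A +
        ∑ b ∈ A, x b ^ n * inj x n (insert a (A.erase b))) := by
      rw [inj_succ, sum_insert ha, erase_insert ha]
      congr 2
      apply Finset.sum_congr rfl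
      intro b hb
      have hab : a ≠ b := by rintro rfl; exact ha hb
      rw [erase_insert_of_ne hab]
    set c : Finset ι → R := fun D => (-1) ^ D.card * (D.card.factorial : R) with hc
    set q : Finset ι → R := fun D => ∑ j ∈ range n, (x a * ∏ d ∈ D, x d) ^ j with hq
    set X : Finset ι → R := fun D => (x a * ∏ d ∈ D, x d) ^ n with hX
    have hR : ∑ D ∈ A.powerset, c D *
        (∑ j ∈ range (n + 1), (x a * ∏ d ∈ D, x d) ^ j) * inj x (n + 1) (A \ D)
        = ∑ D ∈ A.powerset, c D * q D * inj x n (A \ D)
          + ∑ D ∈ A.powerset, ∑ b ∈ A \ D, x b ^ n * (c D * q D * inj x n ((A \ D).erase b))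
          + (∑ D ∈ A.powerset, c D * X D * inj x n (A \ D)
          + ∑ D ∈ A.powerset, ∑ b ∈ A \ D, c D * (X D * x b ^ n) * inj x n ((A \ D).erase b)) := by
      rw [← sum_add_distrib, ← sum_add_distrib, ← sum_add_distrib]
      apply Finset.sum_congr rfl
      intro D _
      rw [sum_range_succ, inj_succ]
      have h1 : ∑ b ∈ A \ D, x b ^ n * (c D * q D * inj x n ((A \ D).erase b))
          = c D * q D * ∑ b ∈ A \ D, x b ^ n * inj x n ((A \ D).erase b) := by
        rw [mul_sum (A \ D)]; apply Finset.sum_congr rfl; intro b _; ring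
      have h2 : ∑ b ∈ A \ D, c D * (X D * x b ^ n) * inj x n ((A \ D).erase b)
          = c D * X D * ∑ b ∈ A \ D, x b ^ n * inj x n ((A \ D).erase b) := by
        rw [mul_sum (A \ D)]; apply Finset.sum_congr rfl; intro b _; ring
      rw [h1, h2]
      ring
    rw [hL, hR]
    have t2 : ∑ D ∈ A.powerset, ∑ b ∈ A \ D, x b ^ n * (c D * q D * inj x n ((A \ D).erase b))
        = ∑ b ∈ A, x b ^ n * inj x n (insert a (A.erase b)) := by
      have hcomm : ∑ D ∈ A.powerset, ∑ b ∈ A \ D,
          x b ^ n * (c D * q D * inj x n ((A \ D).erase b))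
          = ∑ b ∈ A, ∑ D ∈ (A.erase b).powerset,
            x b ^ n * (c D * q D * inj x n ((A \ D).erase b)) := by
        apply Finset.sum_comm'
        intro D b
        simp only [mem_powerset, mem_sdiff, subset_erase]
        tauto
      rw [hcomm]
      apply Finset.sum_congr rfl
      intro b hb
      rw [ih (A.erase b) (fun h => ha (mem_of_mem_erase h)), mul_sum]
      apply Finset.sum_congr rfl
      intro D hD
      rw [show (A \ D).erase b = A.erase b \ D from by
        ext y; simp only [mem_erase, mem_sdiff]; tauto]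
    have t3 : ∑ D ∈ A.powerset, ∑ b ∈ A \ D, c D * (X D * x b ^ n) * inj x n ((A \ D).erase b)
        = ∑ D ∈ A.powerset, ∑ b ∈ D, c (D.erase b) * X D * inj x n (A \ D) := by
      rw [sum_sigma', sum_sigma']
      refine Finset.sum_bij' (fun p _ => ⟨insert p.2 p.1, p.2⟩) (fun p _ => ⟨p.1.erase p.2, p.2⟩)
        ?_ ?_ ?_ ?_ ?_
      · rintro ⟨D, b⟩ h
        simp only [mem_sigma, mem_powerset, mem_sdiff] at h ⊢
        exact ⟨insert_subset h.2.1 h.1, mem_insert_self _ _⟩
      · rintro ⟨D, b⟩ h
        simp only [mem_sigma, mem_powerset, mem_sdiff] at h ⊢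
        exact ⟨(erase_subset _ _).trans h.1, h.1 h.2, notMem_erase _ _⟩
      · rintro ⟨D, b⟩ h
        simp only [mem_sigma, mem_powerset, mem_sdiff] at h
        simp only [erase_insert h.2.2]
      · rintro ⟨D, b⟩ h
        simp only [mem_sigma, mem_powerset] at h
        simp only [insert_erase h.2]
      · rintro ⟨D, b⟩ h
        simp only [mem_sigma, mem_powerset, mem_sdiff] at h
        simp only
        rw [erase_insert h.2.2, show (A \ D).erase b = A \ insert b D from by
          ext y; simp only [mem_erase, mem_sdiff, mem_insert]; tauto]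
        congr 2
        rw [hX]
        simp only
        rw [prod_insert h.2.2, ← mul_pow]
        congr 1
        ring
    have t4 : ∑ D ∈ A.powerset, c D * X D * inj x n (A \ D)
        + ∑ D ∈ A.powerset, ∑ b ∈ D, c (D.erase b) * X D * inj x n (A \ D)
        = x a ^ n * inj x n A := by
      rw [← sum_add_distrib, Finset.sum_eq_single ∅]
      · simp [hc, hX]
      · intro D _ hD
        have hcard : 1 ≤ D.card := card_pos.2 (nonempty_iff_ne_empty.2 hD)
        have : ∑ b ∈ D, c (D.erase b) * X D * inj x n (A \ D)
            = ∑ _b ∈ D, (-1) ^ (D.card - 1) * ((D.card - 1).factorial : R) * X D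
              * inj x n (A \ D) := by
          apply Finset.sum_congr rfl
          intro b hb
          simp only [hc]
          rw [card_erase_of_mem hb]
        rw [this, sum_const, nsmul_eq_mul]
        obtain ⟨k, hk⟩ : ∃ k, D.card = k + 1 := ⟨D.card - 1, by omega⟩
        simp only [hc]
        rw [hk, Nat.add_sub_cancel, Nat.factorial_succ, pow_succ]
        push_cast
        ring
      · intro h
        exact absurd (empty_mem_powerset A) h
    rw [t2, t3, t4, ← ih A ha]
    ring

end Pool.Agent.TH837.VP
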