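import Pool.Agent.TH837.VP.Fil
import Pool.Agent.TH837.VP.Inj

/-!
# The growth of the sums over injections at perturbed roots of unity
-/

set_option autoImplicit false

namespace Pool.Agent.TH837.VP

open Finset PowerSeries

section block

variable {R : Type*} [CommRing R]

theorem one_add_X_mul_pow (W : PowerSeries R) (M : ℕ) :
    ∃ W' : PowerSeries R, (1 + X * W) ^ M = 1 + X * W' ∧
      constantCoeff W' = (M : R) * constantCoeff W := by
  induction M with
  | zero => exact ⟨0, by simp, by simp⟩
  | succ M ih =>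
    obtain ⟨W', h1, h2⟩ := ih
    refine ⟨W' + W + X * W' * W, ?_, ?_⟩
    · rw [pow_succ, h1]; ring
    · simp only [map_add, map_mul, h2, constantCoeff_X, zero_mul, add_zero]
      push_cast
      ring

theorem sum_range_mul_pow (v : PowerSeries R) (M t : ℕ) :
    ∑ j ∈ range (M * t), v ^ j = (∑ s ∈ range M, v ^ s) * ∑ i ∈ range t, (v ^ M) ^ i := by
  induction t with
  | zero => simp
  | succ t ih =>
    rw [Nat.mul_succ, sum_range_add, ih, sum_range_succ, mul_add]
    congr 1
    rw [sum_mul]
    apply Finset.sum_congr rfl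
    intro s _
    rw [← pow_mul, ← pow_add, add_comm]

variable [Algebra ℚ R]

/-- a block with product of roots of unity equal to `1` -/
theorem Fil.block_one (W : PowerSeries R) (M : ℕ) :
    Fil 1 (fun t => ∑ j ∈ range (M * t), (1 + X * W) ^ j)
      (C (M : R) * gser ((M : R) * constantCoeff W)) := by
  obtain ⟨W', h1, h2⟩ := one_add_X_mul_pow W M
  have h := (Fil.const (∑ s ∈ range M, (1 + X * W) ^ s : PowerSeries R)).mul (Fil.geom W')
  rw [h2] at h
  have h3 : constantCoeff (∑ s ∈ range M, (1 + X * W) ^ s : PowerSeries R) = (M : R) := by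
    rw [map_sum]
    simp
  rw [h3] at h
  exact h.congr fun t => by rw [sum_range_mul_pow, h1]

/-- a block with product of roots of unity different from `1` -/
theorem Fil.block_ne (W : PowerSeries R) (M : ℕ) (ζ : R) (hζ : ζ ^ M = 1)
    (h0 : ∑ s ∈ range M, ζ ^ s = 0) :
    ∃ g, Fil 0 (fun t => ∑ j ∈ range (M * t), (C ζ * (1 + X * W)) ^ j) g := by
  obtain ⟨W', h1, h2⟩ := one_add_X_mul_pow W M
  have h3 : constantCoeff (∑ s ∈ range M, (C ζ * (1 + X * W)) ^ s : PowerSeries R) = 0 := by
    rw [map_sum, ← h0]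
    apply Finset.sum_congr rfl
    intro s _
    simp
  obtain ⟨V, hV⟩ := X_dvd_iff.2 h3
  have h := ((Fil.const V).mul (Fil.geom W')).X_mul
  refine ⟨_, h.congr fun t => ?_⟩
  rw [sum_range_mul_pow, hV, mul_pow, ← map_pow, hζ, map_one, one_mul, h1]
  ring

end block

section tokens

variable {ι R : Type*} [DecidableEq ι] [CommRing R] [IsDomain R] [Algebra ℚ R]

/-- the value of the token `a` -/
noncomputable def tok (z Y : ι → R) (a : ι) : PowerSeries R := C (z a) * (1 + X * C (Y a))

omit [IsDomain R] [Algebra ℚ R] in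
theorem prod_tok (z Y : ι → R) (B : Finset ι) :
    ∃ W : PowerSeries R, ∏ a ∈ B, tok z Y a = C (∏ a ∈ B, z a) * (1 + X * W) ∧
      constantCoeff W = ∑ a ∈ B, Y a := by
  induction B using Finset.induction_on with
  | empty => exact ⟨0, by simp, by simp⟩
  | insert a B ha ih =>
    obtain ⟨W, h1, h2⟩ := ih
    refine ⟨C (Y a) + W + X * C (Y a) * W, ?_, ?_⟩
    · rw [prod_insert ha, prod_insert ha, h1, tok, map_mul]; ring
    · rw [sum_insert ha, ← h2]
      simp

/-- growth of one block -/
theorem Fil.block (z Y : ι → R) (M : ℕ) (hz : ∀ a, z a ^ M = 1) (B : Finset ι) :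
    (∏ a ∈ B, z a = 1 → Fil 1 (fun t => ∑ j ∈ range (M * t), (∏ a ∈ B, tok z Y a) ^ j)
      (C (M : R) * gser ((M : R) * ∑ a ∈ B, Y a))) ∧
    (∏ a ∈ B, z a ≠ 1 → ∃ g, Fil 0 (fun t => ∑ j ∈ range (M * t), (∏ a ∈ B, tok z Y a) ^ j) g) := by
  obtain ⟨W, h1, h2⟩ := prod_tok z Y B
  rw [h1, ← h2]
  constructor
  · intro h
    rw [h, map_one]
    simp only [one_mul]
    exact Fil.block_one W M
  · intro h
    have hM : (∏ a ∈ B, z a) ^ M = 1 := by
      rw [← prod_pow]
      exact prod_eq_one fun a _ => hz a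
    apply Fil.block_ne W M _ hM
    have := mul_geom_sum (∏ a ∈ B, z a) M
    rw [hM, sub_self] at this
    rcases mul_eq_zero.1 this with h' | h'
    · exact absurd (sub_eq_zero.1 h') h
    · exact h'

variable (z Y : ι → R) (M : ℕ) (hz : ∀ a, z a ^ M = 1)
  (hmin : ∀ B : Finset ι, B.Nonempty → ∏ a ∈ B, z a = 1 → 3 ≤ B.card)

include hz hmin

theorem exists_fil (A : Finset ι) : ∀ κ : ℕ, A.card < 3 * (κ + 1) →
    ∃ g, Fil κ (fun t => inj (tok z Y) (M * t) A) g := by
  induction A using Finset.strongInduction with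
  | H A ih =>
    intro κ hκ
    rcases A.eq_empty_or_nonempty with rfl | ⟨a, ha⟩
    · simp only [inj_empty]
      rcases Nat.eq_zero_or_pos κ with rfl | h
      · exact ⟨_, Fil.const 1⟩
      · exact ⟨_, (Fil.const 1).lift h⟩
    · obtain ⟨A', ha', rfl⟩ : ∃ A', a ∉ A' ∧ insert a A' = A :=
        ⟨A.erase a, notMem_erase _ _, insert_erase ha⟩
      rw [card_insert_of_notMem ha'] at hκ
      have key : ∀ D ∈ A'.powerset, ∃ g, Fil κ (fun t => (((-1) ^ D.card *
          (D.card.factorial : PowerSeries R)) *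
          (∑ j ∈ range (M * t), (tok z Y a * ∏ d ∈ D, tok z Y d) ^ j) *
            inj (tok z Y) (M * t) (A' \ D))) g := by
        intro D hD
        rw [mem_powerset] at hD
        have haD : a ∉ D := fun h => ha' (hD h)
        have hb := Fil.block z Y M hz (insert a D)
        rw [prod_insert haD, prod_insert haD] at hb
        have hcD := card_le_card hD
        have hsub : A' \ D ⊂ insert a A' := by
          refine lt_of_le_of_lt (sdiff_subset (s := A') (t := D)) (ssubset_insert ha')
        have hcard : (A' \ D).card = A'.card - D.card := card_sdiff_of_subset hD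
        have hc : ∀ {k f g}, Fil k f g → Fil k (fun t => ((-1) ^ D.card *
          (D.card.factorial : PowerSeries R)) * f t) (C ((-1) ^ D.card * (D.card.factorial : R)) * g) := by
          intro k f g h
          refine (h.const_mul ((-1) ^ D.card * (D.card.factorial : R))).congr fun t => ?_
          simp
        by_cases hzs : z a * ∏ d ∈ D, z d = 1
        · have h3 := hmin (insert a D) (insert_nonempty _ _) (by rw [prod_insert haD]; exact hzs)
          rw [card_insert_of_notMem haD] at h3
          obtain ⟨k, rfl⟩ : ∃ k, κ = k + 1 := ⟨κ - 1, by omega⟩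
          obtain ⟨g, hg⟩ := ih (A' \ D) hsub k (by omega)
          have := (hc (hb.1 hzs)).mul hg
          rw [Nat.add_comm 1 k] at this
          exact ⟨_, this⟩
        · obtain ⟨g1, hg1⟩ := hb.2 hzs
          obtain ⟨g, hg⟩ := ih (A' \ D) hsub κ (by omega)
          have := (hc hg1).mul hg
          rw [Nat.zero_add] at this
          exact ⟨_, this⟩
      have key' : ∀ D : Finset ι, ∃ g, D ∈ A'.powerset → Fil κ (fun t => (((-1) ^ D.card *
          (D.card.factorial : PowerSeries R)) *
          (∑ j ∈ range (M * t), (tok z Y a * ∏ d ∈ D, tok z Y d) ^ j) *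
            inj (tok z Y) (M * t) (A' \ D))) g := by
        intro D
        by_cases hD : D ∈ A'.powerset
        · obtain ⟨g, hg⟩ := key D hD
          exact ⟨g, fun _ => hg⟩
        · exact ⟨0, fun h => absurd h hD⟩
      choose g hg using key'
      refine ⟨∑ D ∈ A'.powerset, g D, (Fil.sum A'.powerset hg).congr fun t => ?_⟩
      rw [inj_insert _ _ _ _ ha']

/-- The symbol of the sum over injections satisfies a recursion over the blocks of three
elements. -/
theorem fil_insert (κ : ℕ) (A' : Finset ι) (a : ι) (ha' : a ∉ A') (hcard : A'.card = 3 * κ + 2)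
    (𝒟 : Finset (Finset ι)) (h𝒟 : ∀ D, D ∈ 𝒟 ↔ D ⊆ A' ∧ D.card = 2 ∧ z a * ∏ d ∈ D, z d = 1)
    (g : Finset ι → PowerSeries R)
    (hg : ∀ D ∈ 𝒟, Fil κ (fun t => inj (tok z Y) (M * t) (A' \ D)) (g D)) :
    Fil (κ + 1) (fun t => inj (tok z Y) (M * t) (insert a A'))
      (∑ D ∈ 𝒟, C (2 * M : R) * gser ((M : R) * (Y a + ∑ d ∈ D, Y d)) * g D) := by
  classical
  have h𝒟' : 𝒟 = A'.powerset.filter fun D => D.card = 2 ∧ z a * ∏ d ∈ D, z d = 1 := by
    ext D
    rw [h𝒟, mem_filter, mem_powerset]
  rw [h𝒟', Finset.sum_filter]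
  refine (Fil.sum (f := fun (D : Finset ι) (t : ℕ) => (((-1) ^ D.card *
          (D.card.factorial : PowerSeries R)) *
          (∑ j ∈ range (M * t), (tok z Y a * ∏ d ∈ D, tok z Y d) ^ j) *
            inj (tok z Y) (M * t) (A' \ D))) A'.powerset ?_).congr fun t => ?_
  · intro D hD
    rw [mem_powerset] at hD
    have haD : a ∉ D := fun h => ha' (hD h)
    have hb := Fil.block z Y M hz (insert a D)
    rw [prod_insert haD, prod_insert haD, sum_insert haD] at hb
    have hcD := card_le_card hD
    have hcard' : (A' \ D).card = A'.card - D.card := card_sdiff_of_subset hD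
    have hc : ∀ {k f g}, Fil k f g → Fil k (fun t => ((-1) ^ D.card *
      (D.card.factorial : PowerSeries R)) * f t) (C ((-1) ^ D.card * (D.card.factorial : R)) * g) := by
      intro k f g h
      refine (h.const_mul ((-1) ^ D.card * (D.card.factorial : R))).congr fun t => ?_
      simp
    by_cases hzs : z a * ∏ d ∈ D, z d = 1
    · have h3 := hmin (insert a D) (insert_nonempty _ _) (by rw [prod_insert haD]; exact hzs)
      rw [card_insert_of_notMem haD] at h3
      by_cases h2 : D.card = 2
      · rw [if_pos ⟨h2, hzs⟩]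
        have := (hc (hb.1 hzs)).mul (hg D ((h𝒟 D).2 ⟨hD, h2, hzs⟩))
        rw [Nat.add_comm 1 κ] at this
        convert this using 1
        rw [h2, ← mul_assoc, ← map_mul]
        congr 3
        norm_num [Nat.factorial]
      · rw [if_neg (fun h => h2 h.1)]
        obtain ⟨k, rfl⟩ : ∃ k, κ = k + 1 := ⟨κ - 1, by omega⟩
        obtain ⟨g', hg'⟩ := exists_fil z Y M hz hmin (A' \ D) k (by omega)
        have := (hc (hb.1 hzs)).mul hg'
        exact this.lift (by omega)
    · rw [if_neg (fun h => hzs h.2)]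
      obtain ⟨g1, hg1⟩ := hb.2 hzs
      obtain ⟨g', hg'⟩ := exists_fil z Y M hz hmin (A' \ D) κ (by omega)
      exact ((hc hg1).mul hg').lift (by omega)
  · rw [inj_insert _ _ _ _ ha']

/-- The recursion for the symbol, with the blocks given by a parametrization. -/
theorem fil_insert' (κ : ℕ) (A' : Finset ι) (a : ι) (ha' : a ∉ A') (hcard : A'.card = 3 * κ + 2)
    {τ : Type*} (T : Finset τ) (D : τ → Finset ι) (hinj : Set.InjOn D T)
    (h𝒟 : ∀ B : Finset ι, B ⊆ A' → B.card = 2 → z a * ∏ d ∈ B, z d = 1 → ∃ t ∈ T, D t = B)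
    (hD : ∀ t ∈ T, D t ⊆ A' ∧ (D t).card = 2 ∧ z a * ∏ d ∈ D t, z d = 1)
    (g : τ → PowerSeries R)
    (hg : ∀ t ∈ T, Fil κ (fun s => inj (tok z Y) (M * s) (A' \ D t)) (g t)) :
    Fil (κ + 1) (fun s => inj (tok z Y) (M * s) (insert a A'))
      (∑ t ∈ T, C (2 * M : R) * gser ((M : R) * (Y a + ∑ d ∈ D t, Y d)) * g t) := by
  classical
  rcases T.eq_empty_or_nonempty with rfl | ⟨t0, _⟩
  · have := fil_insert z Y M hz hmin κ A' a ha' hcard ∅ (by
      intro B
      constructor
      · intro h; simp at h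
      · rintro ⟨h1, h2, h3⟩
        obtain ⟨t, ht, _⟩ := h𝒟 B h1 h2 h3
        simp at ht) (fun _ => 0) (by simp)
    simpa using this
  · haveI : Nonempty τ := ⟨t0⟩
    have hinv : ∀ t ∈ T, Function.invFunOn D T (D t) = t := fun t ht =>
      hinj.leftInvOn_invFunOn ht
    have := fil_insert z Y M hz hmin κ A' a ha' hcard (T.image D) (by
      intro B
      rw [mem_image]
      constructor
      · rintro ⟨t, ht, rfl⟩
        exact hD t ht
      · rintro ⟨h1, h2, h3⟩
        exact h𝒟 B h1 h2 h3) (fun B => g (Function.invFunOn D T B)) (by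
      intro B hB
      rw [mem_image] at hB
      obtain ⟨t, ht, rfl⟩ := hB
      simp only [hinv t ht]
      exact hg t ht)
    rw [sum_image hinj] at this
    convert this using 1
    apply Finset.sum_congr rfl
    intro t ht
    simp only [hinv t ht]

end tokens

end Pool.Agent.TH837.VP
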