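import Pool.Agent.TH837.VP.Ident

/-!
# Descent to an arbitrary field of characteristic zero
-/

set_option autoImplicit false

namespace Pool.Agent.TH837.VP

open Finset MvPolynomial

section functional

variable {F K σ : Type*} [Field F] [Field K] [Algebra F K]

/-- Evaluation at an element of an extension is replaced by a functional. -/
theorem functional_apply (lam : K →ₗ[F] F) (hlam : ∀ a : F, lam (algebraMap F K a) = a) (ω : K)
    (P : Polynomial (MvPolynomial σ F)) (Q : MvPolynomial σ F) (D : ℕ) (hD : P.natDegree ≤ D)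
    (h : P.eval₂ (MvPolynomial.map (algebraMap F K)) (C ω) = MvPolynomial.map (algebraMap F K) Q) :
    Q = ∑ k ∈ range (D + 1), C (lam (ω ^ k)) * P.coeff k := by
  ext s
  have h1 : coeff s Q = lam (coeff s (MvPolynomial.map (algebraMap F K) Q)) := by
    rw [coeff_map, hlam]
  rw [h1, ← h, Polynomial.eval₂_eq_sum_range' _ (Nat.lt_succ_of_le hD), MvPolynomial.coeff_sum,
    map_sum, MvPolynomial.coeff_sum]
  apply Finset.sum_congr rfl
  intro k _
  rw [← map_pow, mul_comm, coeff_C_mul, coeff_C_mul, coeff_map, mul_comm, ← Algebra.smul_def,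
    map_smul, smul_eq_mul, mul_comm]

end functional

theorem lab_le {n : ℕ} (a : Tok n) : lab a ≤ modu n := by
  have hw := wid_eq n
  unfold modu
  rcases bounds a with ⟨p, -, h1, h2⟩ | ⟨p, -, h1, h2⟩ | ⟨p, -, h1, h2⟩ <;> omega

theorem map_yx {R S : Type*} [CommRing R] [CommRing S] (f : R →+* S) {m : ℕ}
    (y : Fin m → Fin m → R) (a : Tok (2 * m)) :
    f (yx y a) = yx (fun i j => f (y i j)) a := by
  rcases a with p | p | p
  · unfold yx
    simp only
    split_ifs <;> simp
  · unfold yx
    simp only
    split_ifs <;> simp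
  · simp [yx]

/-- bound for the degree in `z` -/
def dz (m : ℕ) : ℕ := 3 * (2 * m) ^ 2 * (modu (2 * m) * dt m * modu (2 * m))

variable (F : Type) [Field F] [CharZero F]

theorem descent (m : ℕ) : ∃ q : ℕ → ℕ → ℕ → ℕ → F,
    (Matrix.of fun i j : Fin m => (X (i, j) : MvPolynomial (Fin m × Fin m) F)).permanent =
      ∑ u ∈ range (dz m + 1), ∑ L ∈ range (m + 1), ∑ t ∈ range (dt m + 1),
      ∑ v ∈ range (de m + 1), C (q u L t v) *
        inj (fun a => (u : MvPolynomial (Fin m × Fin m) F) ^ lab a *
          (1 + (v : MvPolynomial (Fin m × Fin m) F) * yx (fun i j => X (i, j)) a))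
          (modu (2 * m) * t) (Aa m L) := by
  classical
  have hM : modu (2 * m) ≠ 0 := by unfold modu wid; omega
  let K := AlgebraicClosure F
  have : CharZero K := charZero_of_injective_algebraMap (algebraMap F K).injective
  have : NeZero ((modu (2 * m) : ℕ) : K) := ⟨by exact_mod_cast hM⟩
  obtain ⟨ω, hω⟩ : ∃ ω : K, IsPrimitiveRoot ω (modu (2 * m)) :=
    HasEnoughRootsOfUnity.exists_primitiveRoot K (modu (2 * m))
  have hω' : IsPrimitiveRoot (C ω : MvPolynomial (Fin m × Fin m) K) (modu (2 * m)) :=
    hω.map_of_injective (C_injective _ _)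
  obtain ⟨lam, hlam⟩ : ∃ lam : K →ₗ[F] F, lam ∘ₗ (Algebra.linearMap F K) = LinearMap.id :=
    LinearMap.exists_leftInverse_of_injective _
      (LinearMap.ker_eq_bot.2 (algebraMap F K).injective)
  have hlam' : ∀ a : F, lam (algebraMap F K a) = a := fun a => LinearMap.congr_fun hlam a
  obtain ⟨q, hq⟩ := ident (R := MvPolynomial (Fin m × Fin m) K) m (C ω) hω'
    (fun i j => X (i, j))
  set σ := Fin m × Fin m
  set x : ℕ → Tok (2 * m) → Polynomial (MvPolynomial σ F) := fun v a =>
    Polynomial.X ^ lab a * Polynomial.C (1 + (v : MvPolynomial σ F) * yx (fun i j => X (i, j)) a)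
    with hx
  set P : Polynomial (MvPolynomial σ F) := ∑ L ∈ range (m + 1), ∑ t ∈ range (dt m + 1),
      ∑ v ∈ range (de m + 1), Polynomial.C (C (algebraMap ℚ F (q L t v))) *
        inj (x v) (modu (2 * m) * t) (Aa m L) with hP
  have hxd : ∀ v a, (x v a).natDegree ≤ modu (2 * m) := by
    intro v a
    rw [hx]
    simp only
    refine (Polynomial.natDegree_mul_C_le _ _).trans ?_
    exact Polynomial.natDegree_X_pow_le _ |>.trans (lab_le a)
  have hPd : P.natDegree ≤ dz m := by
    rw [hP]
    apply Polynomial.natDegree_sum_le_of_forall_le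
    intro L hL
    apply Polynomial.natDegree_sum_le_of_forall_le
    intro t ht
    apply Polynomial.natDegree_sum_le_of_forall_le
    intro v _
    rw [Finset.mem_range] at hL ht
    refine (Polynomial.natDegree_C_mul_le _ _).trans ((natDegree_inj _ _ (hxd v) _ _).trans ?_)
    unfold dz
    exact Nat.mul_le_mul (card_Aa_le m L (by omega)) (Nat.mul_le_mul_right _
      (Nat.mul_le_mul_left _ (by omega)))
  have hPe : P.eval₂ (MvPolynomial.map (algebraMap F K)) (C ω) = MvPolynomial.map (algebraMap F K)
      (Matrix.of fun i j : Fin m => (X (i, j) : MvPolynomial σ F)).permanent := by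
    have h1 : MvPolynomial.map (algebraMap F K)
      (Matrix.of fun i j : Fin m => (X (i, j) : MvPolynomial σ F)).permanent
        = (Matrix.of fun i j : Fin m => (X (i, j) : MvPolynomial σ K)).permanent := by
      simp [Matrix.permanent]
    rw [h1, hq, hP, Polynomial.eval₂_finsetSum]
    apply Finset.sum_congr rfl
    intro L _
    rw [Polynomial.eval₂_finsetSum]
    apply Finset.sum_congr rfl
    intro t _
    rw [Polynomial.eval₂_finsetSum]
    apply Finset.sum_congr rfl
    intro v _
    rw [Polynomial.eval₂_mul, Polynomial.eval₂_C, map_C]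
    congr 1
    have h2 := map_inj (Polynomial.eval₂RingHom (MvPolynomial.map (algebraMap F K)) (C ω))
      (x v) (modu (2 * m) * t) (Aa m L)
    rw [Polynomial.coe_eval₂RingHom] at h2
    rw [h2]
    apply inj_congr
    intro a _
    rw [hx]
    simp only
    rw [Polynomial.eval₂_mul, Polynomial.eval₂_pow, Polynomial.eval₂_X, Polynomial.eval₂_C,
      map_add, map_one, map_mul, map_natCast, map_yx]
    simp only [map_X]
  have key := functional_apply lam hlam' ω P _ (dz m) hPd hPe
  obtain ⟨w, hw⟩ := exists_weights_poly F (MvPolynomial σ F) (dz m) fun k => lam (ω ^ k)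
  have h3 := hw P hPd
  rw [key]
  refine ⟨fun u L t v => w u * algebraMap ℚ F (q L t v), ?_⟩
  have h4 : ∑ k ∈ range (dz m + 1), C (lam (ω ^ k)) * P.coeff k
      = ∑ u ∈ range (dz m + 1), C (w u) * P.eval (u : MvPolynomial σ F) := by
    rw [MvPolynomial.algebraMap_eq] at h3
    exact h3.symm
  rw [h4]
  apply Finset.sum_congr rfl
  intro u _
  rw [hP, Polynomial.eval_finsetSum, mul_sum]
  apply Finset.sum_congr rfl
  intro L _
  rw [Polynomial.eval_finsetSum, mul_sum]
  apply Finset.sum_congr rfl
  intro t _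
  rw [Polynomial.eval_finsetSum, mul_sum]
  apply Finset.sum_congr rfl
  intro v _
  rw [Polynomial.eval_mul, Polynomial.eval_C, ← mul_assoc, ← map_mul]
  congr 1
  have h2 := map_inj (Polynomial.evalRingHom (u : MvPolynomial σ F))
    (x v) (modu (2 * m) * t) (Aa m L)
  rw [Polynomial.coe_evalRingHom] at h2
  rw [h2]
  apply inj_congr
  intro a _
  rw [hx]
  simp

end Pool.Agent.TH837.VP
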