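import Mathlib

/-!
# Straight-line programs as lists
-/

set_option autoImplicit false

namespace Pool.Agent.TH837.VP

open MvPolynomial

variable {F σ : Type} [Field F]

/-- The polynomial `p` is computed by a straight-line program with at most `s` steps: each step is a
variable, a constant, or the sum or the product of two earlier steps. -/
def Computable (s : ℕ) (p : MvPolynomial σ F) : Prop :=
  ∃ (m : ℕ) (g : Fin (m + 1) → MvPolynomial σ F), m + 1 ≤ s ∧
    (∀ i : Fin (m + 1), (∃ v : σ, g i = X v) ∨ (∃ c : F, g i = C c) ∨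
      ∃ a b : Fin (m + 1), a < i ∧ b < i ∧ (g i = g a + g b ∨ g i = g a * g b)) ∧
    g (Fin.last m) = p

/-- A list of polynomials, each a variable, a constant, or a sum or product of two later entries. -/
def SLP : List (MvPolynomial σ F) → Prop
  | [] => True
  | p :: L => ((∃ v, p = X v) ∨ (∃ c, p = C c) ∨ ∃ a ∈ L, ∃ b ∈ L, p = a + b ∨ p = a * b) ∧ SLP L

theorem SLP.append {L L' : List (MvPolynomial σ F)} (h : SLP L) (h' : SLP L') :
    SLP (L ++ L') := by
  induction L with
  | nil => exact h'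
  | cons p L ih =>
    refine ⟨?_, ih h.2⟩
    rcases h.1 with h1 | h1 | ⟨a, ha, b, hb, h1⟩
    · exact Or.inl h1
    · exact Or.inr (Or.inl h1)
    · exact Or.inr (Or.inr ⟨a, List.mem_append_left _ ha, b, List.mem_append_left _ hb, h1⟩)

theorem SLP.of_suffix {L L' : List (MvPolynomial σ F)} (h : SLP (L ++ L')) : SLP L' := by
  induction L with
  | nil => exact h
  | cons p L ih => exact ih h.2

theorem SLP.toFin : ∀ (L : List (MvPolynomial σ F)) (p : MvPolynomial σ F), SLP (p :: L) →
    ∃ g : Fin (L.length + 1) → MvPolynomial σ F,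
      (∀ i, (∃ v : σ, g i = X v) ∨ (∃ c : F, g i = C c) ∨
        ∃ a b, a < i ∧ b < i ∧ (g i = g a + g b ∨ g i = g a * g b)) ∧
      g (Fin.last _) = p ∧ ∀ q ∈ p :: L, ∃ i, g i = q
  | [], p, h => by
    refine ⟨fun _ => p, fun i => ?_, rfl, fun q hq => ⟨0, ?_⟩⟩
    · rcases h.1 with h1 | h1 | ⟨a, ha, _⟩
      · exact Or.inl h1
      · exact Or.inr (Or.inl h1)
      · simp at ha
    · simp only [List.mem_singleton] at hq
      exact hq.symm
  | q :: L, p, h => by
    obtain ⟨g, h1, h2, h3⟩ := SLP.toFin L q h.2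
    refine ⟨Fin.snoc g p, fun i => ?_, by simp, fun r hr => ?_⟩
    · refine Fin.lastCases ?_ (fun j => ?_) i
      · simp only [Fin.snoc_last]
        rcases h.1 with h4 | h4 | ⟨a, ha, b, hb, h4⟩
        · exact Or.inl h4
        · exact Or.inr (Or.inl h4)
        · obtain ⟨i, hi⟩ := h3 a ha
          obtain ⟨j, hj⟩ := h3 b hb
          refine Or.inr (Or.inr ⟨i.castSucc, j.castSucc, Fin.castSucc_lt_last _,
            Fin.castSucc_lt_last _, ?_⟩)
          simp only [Fin.snoc_castSucc, hi, hj]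
          exact h4
      · simp only [Fin.snoc_castSucc]
        rcases h1 j with h4 | h4 | ⟨a, b, ha, hb, h4⟩
        · exact Or.inl h4
        · exact Or.inr (Or.inl h4)
        · refine Or.inr (Or.inr ⟨a.castSucc, b.castSucc, by simpa using ha, by simpa using hb, ?_⟩)
          simp only [Fin.snoc_castSucc]
          exact h4
    · rcases List.mem_cons.1 hr with rfl | hr
      · exact ⟨Fin.last _, by simp⟩
      · obtain ⟨i, hi⟩ := h3 r hr
        exact ⟨i.castSucc, by simp [hi]⟩

theorem Computable.of_mem {L : List (MvPolynomial σ F)} {p : MvPolynomial σ F} (h : SLP L)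
    (hp : p ∈ L) {s : ℕ} (hs : L.length ≤ s) : Computable s p := by
  obtain ⟨L1, L2, rfl⟩ := List.append_of_mem hp
  obtain ⟨g, h1, h2, -⟩ := SLP.toFin L2 p h.of_suffix
  refine ⟨L2.length, g, ?_, h1, h2⟩
  simp only [List.length_append, List.length_cons] at hs
  omega

theorem Computable.exists_list {s : ℕ} {p : MvPolynomial σ F} (h : Computable s p) :
    ∃ L : List (MvPolynomial σ F), SLP L ∧ L.length ≤ s ∧ p ∈ L := by
  obtain ⟨m, g, h1, h2, h3⟩ := h
  have key : ∀ k ≤ m + 1, ∃ L : List (MvPolynomial σ F), SLP L ∧ L.length = k ∧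
      ∀ i : Fin (m + 1), i.val < k → g i ∈ L := by
    intro k hk
    induction k with
    | zero => exact ⟨[], trivial, rfl, fun i hi => absurd hi (by omega)⟩
    | succ k ih =>
      obtain ⟨L, hL, hlen, hmem⟩ := ih (by omega)
      refine ⟨g ⟨k, by omega⟩ :: L, ⟨?_, hL⟩, by simp [hlen], fun i hi => ?_⟩
      · rcases h2 ⟨k, by omega⟩ with h4 | h4 | ⟨a, b, ha, hb, h4⟩
        · exact Or.inl h4
        · exact Or.inr (Or.inl h4)
        · exact Or.inr (Or.inr ⟨g a, hmem a ha, g b, hmem b hb, h4⟩)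
      · rcases Nat.lt_succ_iff_lt_or_eq.1 hi with h4 | h4
        · exact List.mem_cons_of_mem _ (hmem i h4)
        · have : i = ⟨k, by omega⟩ := Fin.ext h4
          rw [this]
          exact List.mem_cons_self
  obtain ⟨L, hL, hlen, hmem⟩ := key (m + 1) le_rfl
  exact ⟨L, hL, by omega, by rw [← h3]; exact hmem _ (Fin.is_lt _)⟩

theorem Computable.mono {s s' : ℕ} {p : MvPolynomial σ F} (h : Computable s p) (hs : s ≤ s') :
    Computable s' p := by
  obtain ⟨m, g, h1, h2, h3⟩ := h
  exact ⟨m, g, h1.trans hs, h2, h3⟩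

/-- substitution -/
theorem SLP.subst {τ : Type} (θ : MvPolynomial τ F →ₐ[F] MvPolynomial σ F)
    (L0 : List (MvPolynomial σ F)) (h0 : SLP L0) (hθ : ∀ v, θ (X v) ∈ L0)
    (L : List (MvPolynomial τ F)) (h : SLP L) :
    ∃ L' : List (MvPolynomial σ F), SLP L' ∧ L'.length ≤ L.length + L0.length ∧
      (∀ p ∈ L0, p ∈ L') ∧ ∀ p ∈ L, θ p ∈ L' := by
  induction L with
  | nil => exact ⟨L0, h0, by simp, fun p hp => hp, by simp⟩
  | cons p L ih =>
    obtain ⟨L', h1, h2, h3, h4⟩ := ih h.2
    rcases h.1 with ⟨v, rfl⟩ | ⟨c, rfl⟩ | ⟨a, ha, b, hb, h5⟩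
    · refine ⟨L', h1, by rw [List.length_cons]; omega, h3, fun q hq => ?_⟩
      rcases List.mem_cons.1 hq with rfl | hq
      · exact h3 _ (hθ v)
      · exact h4 q hq
    · refine ⟨C c :: L', ⟨Or.inr (Or.inl ⟨c, rfl⟩), h1⟩, by simp only [List.length_cons]; omega,
        fun q hq => List.mem_cons_of_mem _ (h3 q hq), fun q hq => ?_⟩
      rcases List.mem_cons.1 hq with rfl | hq
      · rw [show θ (C c) = C c from AlgHom.commutes θ c]
        exact List.mem_cons_self
      · exact List.mem_cons_of_mem _ (h4 q hq)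
    · refine ⟨θ p :: L', ⟨Or.inr (Or.inr ⟨θ a, h4 a ha, θ b, h4 b hb, ?_⟩), h1⟩,
        by simp only [List.length_cons]; omega,
        fun q hq => List.mem_cons_of_mem _ (h3 q hq), fun q hq => ?_⟩
      · rcases h5 with rfl | rfl
        · exact Or.inl (map_add θ a b)
        · exact Or.inr (map_mul θ a b)
      · rcases List.mem_cons.1 hq with rfl | hq
        · exact List.mem_cons_self
        · exact List.mem_cons_of_mem _ (h4 q hq)

/-- linear combinations -/
theorem SLP.linear_combination (k s : ℕ) (q : Fin k → F) (p : Fin k → MvPolynomial σ F)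
    (h : ∀ j, ∃ L : List (MvPolynomial σ F), SLP L ∧ L.length ≤ s ∧ p j ∈ L) :
    ∃ L : List (MvPolynomial σ F), SLP L ∧ L.length ≤ k * (s + 3) + 1 ∧
      ∑ j, C (q j) * p j ∈ L := by
  induction k with
  | zero => exact ⟨[C 0], ⟨Or.inr (Or.inl ⟨0, rfl⟩), trivial⟩, by simp, by simp⟩
  | succ k ih =>
    obtain ⟨L, h1, h2, h3⟩ := ih (fun j => q j.castSucc) (fun j => p j.castSucc)
      (fun j => h j.castSucc)
    obtain ⟨L', h1', h2', h3'⟩ := h (Fin.last k)
    set a := ∑ j : Fin k, C (q j.castSucc) * p j.castSucc with ha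
    set b := C (q (Fin.last k)) * p (Fin.last k) with hb
    refine ⟨(a + b) :: b :: C (q (Fin.last k)) :: (L ++ L'), ⟨?_, ?_, ?_, h1.append h1'⟩, ?_, ?_⟩
    · exact Or.inr (Or.inr ⟨a, by simp [h3], b, by simp, Or.inl rfl⟩)
    · exact Or.inr (Or.inr ⟨C (q (Fin.last k)), by simp, p (Fin.last k), by simp [h3'],
        Or.inr rfl⟩)
    · exact Or.inr (Or.inl ⟨_, rfl⟩)
    · simp only [List.length_cons, List.length_append]
      rw [Nat.succ_mul]
      omega
    · rw [Fin.sum_univ_castSucc]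
      exact List.mem_cons_self

end Pool.Agent.TH837.VP
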