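import Pool.Agent.TH837.VP.Rep
import Pool.Agent.TH837.VP.Slp

/-!
# Circuits for the permanent and circuits for the permanents of Vandermonde matrices
-/

set_option autoImplicit false

namespace Pool.Agent.TH837.VP

open MvPolynomial

/-- The permanent of the generic `n × n` matrix. -/
noncomputable def gper (F : Type) [Field F] (n : ℕ) : MvPolynomial (Fin n × Fin n) F :=
  (Matrix.of fun i j : Fin n => (X (i, j) : MvPolynomial (Fin n × Fin n) F)).permanent

/-- The permanent of the Vandermonde matrix `(x_i ^ j)` of `n` variables. -/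
noncomputable def gvan (F : Type) [Field F] (n : ℕ) : MvPolynomial (Fin n) F :=
  (Matrix.vandermonde (X : Fin n → MvPolynomial (Fin n) F)).permanent

variable {F : Type} [Field F]

/-- the powers of a variable -/
noncomputable def pwl {σ : Type} (i : σ) : ℕ → List (MvPolynomial σ F)
  | 0 => [C 1, X i]
  | k + 1 => X i ^ (k + 1) :: pwl i k

theorem pwl_spec {σ : Type} (i : σ) (k : ℕ) : SLP (pwl i k : List (MvPolynomial σ F)) ∧
    (pwl i k : List (MvPolynomial σ F)).length = k + 2 ∧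
    X i ∈ (pwl i k : List (MvPolynomial σ F)) ∧
    ∀ j ≤ k, X i ^ j ∈ (pwl i k : List (MvPolynomial σ F)) := by
  induction k with
  | zero =>
    refine ⟨⟨Or.inr (Or.inl ⟨1, rfl⟩), Or.inl ⟨i, rfl⟩, trivial⟩, rfl, by simp [pwl], fun j hj => ?_⟩
    have : j = 0 := by omega
    subst this
    simp [pwl]
  | succ k ih =>
    obtain ⟨h1, h2, h3, h4⟩ := ih
    refine ⟨⟨Or.inr (Or.inr ⟨X i ^ k, h4 k le_rfl, X i, h3, Or.inr (pow_succ _ _)⟩), h1⟩,
      by simp [pwl, h2], by simp [pwl, h3], fun j hj => ?_⟩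
    rcases Nat.lt_succ_iff_lt_or_eq.1 (Nat.lt_succ_of_le hj) with h | h
    · exact List.mem_cons_of_mem _ (h4 j (by omega))
    · subst h
      exact List.mem_cons_self

/-- concatenation of programs -/
theorem SLP.flat {σ : Type} (c : ℕ) (k : ℕ) (f : Fin k → List (MvPolynomial σ F))
    (h : ∀ i, SLP (f i) ∧ (f i).length ≤ c) :
    ∃ L : List (MvPolynomial σ F), SLP L ∧ L.length ≤ k * c ∧ ∀ i, ∀ p ∈ f i, p ∈ L := by
  induction k with
  | zero => exact ⟨[], trivial, by simp, fun i => i.elim0⟩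
  | succ k ih =>
    obtain ⟨L, h1, h2, h3⟩ := ih (fun i => f i.castSucc) (fun i => h i.castSucc)
    refine ⟨L ++ f (Fin.last k), h1.append (h _).1, ?_, fun i => ?_⟩
    · rw [List.length_append, Nat.succ_mul]
      have := (h (Fin.last k)).2
      omega
    · refine Fin.lastCases ?_ (fun j => ?_) i
      · intro p hp
        exact List.mem_append_right _ hp
      · intro p hp
        exact List.mem_append_left _ (h3 j p hp)

theorem map_gper {R : Type} [CommRing R] [Algebra F R] (n : ℕ) (x : Fin n × Fin n → R) :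
    aeval x (gper F n) = (Matrix.of fun i j => x (i, j)).permanent := by
  simp [gper, Matrix.permanent]

theorem map_gvan {R : Type} [CommRing R] [Algebra F R] (n : ℕ) (x : Fin n → R) :
    aeval x (gvan F n) = (Matrix.vandermonde x).permanent := by
  simp [gvan, Matrix.permanent, Matrix.vandermonde]

theorem van_of_per (n s : ℕ) (h : Computable s (gper F n)) :
    Computable (s + n * (n + 2)) (gvan F n) := by
  obtain ⟨L, h1, h2, h3⟩ := h.exists_list
  obtain ⟨L0, k1, k2, k3⟩ := SLP.flat (n + 2) n (fun i => (pwl i n : List (MvPolynomial (Fin n) F)))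
    (fun i => ⟨(pwl_spec i n).1, (pwl_spec i n).2.1.le⟩)
  obtain ⟨L', l1, l2, -, l4⟩ := SLP.subst
    (aeval fun p : Fin n × Fin n => (X p.1 ^ (p.2 : ℕ) : MvPolynomial (Fin n) F)) L0 k1
    (by
      intro v
      rw [aeval_X]
      exact k3 v.1 _ ((pwl_spec v.1 n).2.2.2 _ v.2.2.le)) L h1
  have h4 := l4 _ h3
  rw [map_gper] at h4
  exact Computable.of_mem l1 h4 (by omega)

theorem isAff_list {σ : Type} (p : MvPolynomial σ F) (h : IsAff p) :
    ∃ L : List (MvPolynomial σ F), SLP L ∧ L.length ≤ 5 ∧ p ∈ L := by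
  rcases h with ⟨a, rfl⟩ | ⟨a, b, v, rfl⟩
  · exact ⟨[C a], ⟨Or.inr (Or.inl ⟨a, rfl⟩), trivial⟩, by simp, by simp⟩
  · refine ⟨[C a + C b * X v, C a, C b * X v, C b, X v], ⟨?_, ?_, ?_, ?_, ?_, trivial⟩, by simp,
      by simp⟩
    · exact Or.inr (Or.inr ⟨C a, by simp, C b * X v, by simp, Or.inl rfl⟩)
    · exact Or.inr (Or.inl ⟨a, rfl⟩)
    · exact Or.inr (Or.inr ⟨C b, by simp, X v, by simp, Or.inr rfl⟩)
    · exact Or.inr (Or.inl ⟨b, rfl⟩)
    · exact Or.inl ⟨v, rfl⟩

theorem per_of_van [CharZero F] (m B : ℕ)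
    (h : ∀ n ≤ 700 * (m + 1) ^ 4, Computable B (gvan F n)) :
    Computable (10 ^ 11 * (m + 1) ^ 17 * (B + (700 * (m + 1) ^ 4) * 5 + 3) + 1) (gper F m) := by
  obtain ⟨s, q, n, ℓ, h1, h2, h3, h4⟩ := rep F m
  have key : ∀ j : Fin s, ∃ L : List (MvPolynomial (Fin m × Fin m) F), SLP L ∧
      L.length ≤ B + (700 * (m + 1) ^ 4) * 5 ∧ (Matrix.vandermonde (ℓ j)).permanent ∈ L := by
    intro j
    obtain ⟨L, a1, a2, a3⟩ := (h (n j) (h2 j)).exists_list
    choose f f1 f2 f3 using fun i => isAff_list (ℓ j i) (h3 j i)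
    obtain ⟨L0, k1, k2, k3⟩ := SLP.flat 5 (n j) f (fun i => ⟨f1 i, f2 i⟩)
    obtain ⟨L', l1, l2, -, l4⟩ := SLP.subst (aeval (ℓ j)) L0 k1
      (by
        intro v
        rw [aeval_X]
        exact k3 v _ (f3 v)) L a1
    have h5 := l4 _ a3
    rw [map_gvan] at h5
    refine ⟨L', l1, l2.trans ?_, h5⟩
    exact Nat.add_le_add a2 (k2.trans (Nat.mul_le_mul_right _ (h2 j)))
  obtain ⟨L, b1, b2, b3⟩ := SLP.linear_combination s _ q _ key
  rw [← h4] at b3
  refine Computable.of_mem b1 b3 (b2.trans ?_)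
  exact Nat.add_le_add_right (Nat.mul_le_mul_right _ h1) _

/-- The permanents of the generic matrices have circuits of polynomial size if and only if the
permanents of the Vandermonde matrices have. -/
theorem per_iff_van (F : Type) [Field F] [CharZero F] :
    (∃ K e : ℕ, ∀ n : ℕ, Computable (K * (n + 1) ^ e) (gper F n)) ↔
      ∃ K e : ℕ, ∀ n : ℕ, Computable (K * (n + 1) ^ e) (gvan F n) := by
  constructor
  · rintro ⟨K, e, h⟩
    refine ⟨K + 2, e + 2, fun n => (van_of_per n _ (h n)).mono ?_⟩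
    have h1 : 1 ≤ (n + 1) ^ e := Nat.one_le_pow _ _ (by omega)
    have h2 : 1 ≤ (n + 1) ^ 2 := Nat.one_le_pow _ _ (by omega)
    calc K * (n + 1) ^ e + n * (n + 2) ≤ K * ((n + 1) ^ e * (n + 1) ^ 2)
          + 2 * ((n + 1) ^ e * (n + 1) ^ 2) := by
          apply Nat.add_le_add
          · exact Nat.mul_le_mul_left _ (Nat.le_mul_of_pos_right _ h2)
          · calc n * (n + 2) ≤ (n + 1) ^ 2 := by nlinarith
              _ ≤ (n + 1) ^ e * (n + 1) ^ 2 := Nat.le_mul_of_pos_left _ h1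
              _ ≤ 2 * ((n + 1) ^ e * (n + 1) ^ 2) := by omega
      _ = (K + 2) * (n + 1) ^ (e + 2) := by ring
  · rintro ⟨K, e, h⟩
    refine ⟨10 ^ 11 * (K * 701 ^ e + 3503) + 1, 17 + (4 * e + 4), fun m => ?_⟩
    have h0 : ∀ k, 1 ≤ (m + 1) ^ k := fun k => Nat.one_le_pow _ _ (by omega)
    have h1 : ∀ n ≤ 700 * (m + 1) ^ 4, Computable (K * (701 ^ e * (m + 1) ^ (4 * e))) (gvan F n) := by
      intro n hn
      refine (h n).mono (Nat.mul_le_mul_left _ ?_)
      calc (n + 1) ^ e ≤ (701 * (m + 1) ^ 4) ^ e := by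
            apply Nat.pow_le_pow_left
            have := h0 4
            omega
        _ = 701 ^ e * (m + 1) ^ (4 * e) := by rw [mul_pow, ← pow_mul]
    refine (per_of_van m _ h1).mono ?_
    have h2 : K * (701 ^ e * (m + 1) ^ (4 * e)) + (700 * (m + 1) ^ 4) * 5 + 3
        ≤ (K * 701 ^ e + 3503) * (m + 1) ^ (4 * e + 4) := by
      have e1 : (m + 1) ^ (4 * e) ≤ (m + 1) ^ (4 * e + 4) :=
        Nat.pow_le_pow_right (by omega) (by omega)
      have e2 : (m + 1) ^ 4 ≤ (m + 1) ^ (4 * e + 4) :=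
        Nat.pow_le_pow_right (by omega) (by omega)
      have e3 := h0 (4 * e + 4)
      have e4 : K * (701 ^ e * (m + 1) ^ (4 * e)) ≤ K * 701 ^ e * (m + 1) ^ (4 * e + 4) := by
        rw [← mul_assoc]
        exact Nat.mul_le_mul_left _ e1
      rw [add_mul]
      omega
    calc 10 ^ 11 * (m + 1) ^ 17 *
          (K * (701 ^ e * (m + 1) ^ (4 * e)) + (700 * (m + 1) ^ 4) * 5 + 3) + 1
        ≤ 10 ^ 11 * (m + 1) ^ 17 * ((K * 701 ^ e + 3503) * (m + 1) ^ (4 * e + 4))
          + (m + 1) ^ (17 + (4 * e + 4)) :=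
          Nat.add_le_add (Nat.mul_le_mul_left _ h2) (h0 _)
      _ = (10 ^ 11 * (K * 701 ^ e + 3503) + 1) * (m + 1) ^ (17 + (4 * e + 4)) := by
          rw [pow_add (m + 1) 17]
          ring

end Pool.Agent.TH837.VP
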