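import Pool.Agent.TH837.VP.Inj

/-!
# The permanent of a Vandermonde matrix as a sum over injections
-/

set_option autoImplicit false

namespace Pool.Agent.TH837.VP

open Finset

variable {R : Type*} [CommRing R]

/-- The permanent of the Vandermonde matrix `(x_i ^ j)`. -/
def vper (n : ℕ) (x : Fin n → R) : R := (Matrix.vandermonde x).permanent

theorem map_vper {S : Type*} [CommRing S] (f : R →+* S) (n : ℕ) (x : Fin n → R) :
    f (vper n x) = vper n (fun i => f (x i)) := by
  simp [vper, Matrix.permanent, Matrix.vandermonde]

/-- expansion of a permanent along the first column (as in `Pool/Agent/H709R3/Fock.lean`). -/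
theorem permanent_succ_column_zero {n : ℕ} (A : Matrix (Fin (n + 1)) (Fin (n + 1)) R) :
    A.permanent = ∑ i : Fin (n + 1), A i 0 * (A.submatrix i.succAbove Fin.succ).permanent := by
  unfold Matrix.permanent
  rw [Finset.univ_perm_fin_succ, ← Finset.univ_product_univ]
  simp only [Finset.sum_map, Equiv.toEmbedding_apply, Finset.sum_product, Matrix.submatrix,
    Matrix.of_apply]
  refine Finset.sum_congr rfl fun i _ => Fin.cases ?_ (fun i => ?_) i
  · simp only [Fin.prod_univ_succ, Finset.mul_sum,
      Equiv.Perm.decomposeFin_symm_apply_zero, Equiv.swap_self, Equiv.refl_apply,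
      Equiv.Perm.decomposeFin_symm_apply_succ, Fin.succAbove_zero]
  · rw [Finset.mul_sum]
    have hbij := (Group.mulLeft_bijective (i.cycleRange)).sum_comp
      (fun τ : Equiv.Perm (Fin n) => A i.succ 0 * ∏ j, A (i.succ.succAbove (τ j)) j.succ)
    rw [← hbij]
    refine Finset.sum_congr rfl fun σ _ => ?_
    simp only [Fin.prod_univ_succ, Equiv.Perm.coe_mul, Function.comp_apply,
      Fin.succAbove_cycleRange, Equiv.Perm.decomposeFin_symm_apply_zero,
      Equiv.Perm.decomposeFin_symm_apply_succ]

/-- The Vandermonde matrix with the columns in reverse order. -/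
def vrev (n : ℕ) (x : Fin n → R) : R :=
  (Matrix.of fun i j : Fin n => x i ^ (j.rev : ℕ)).permanent

theorem vper_eq_vrev (n : ℕ) (x : Fin n → R) : vper n x = vrev n x := by
  unfold vper vrev
  rw [← Matrix.permanent_permute_rows Fin.revPerm (Matrix.vandermonde x)]
  rfl

theorem vrev_succ (n : ℕ) (x : Fin (n + 1) → R) :
    vrev (n + 1) x = ∑ i, x i ^ n * vrev n (fun j => x (i.succAbove j)) := by
  unfold vrev
  rw [permanent_succ_column_zero]
  apply Finset.sum_congr rfl
  intro i _
  have h1 : (Matrix.of fun i j : Fin (n + 1) => x i ^ (j.rev : ℕ)) i 0 = x i ^ n := by simp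
  rw [h1]
  congr 2
  ext a b
  simp [Fin.val_rev]

theorem inj_univ_eq_vrev (n : ℕ) (x : Fin n → R) : inj x n univ = vrev n x := by
  induction n with
  | zero => rw [vrev, Matrix.permanent_isEmpty, inj_zero, if_pos (Finset.univ_eq_empty)]
  | succ n ih =>
    rw [inj_succ, inj_of_lt x n univ (by simp), zero_add, vrev_succ]
    apply Finset.sum_congr rfl
    intro a _
    have h : (univ : Finset (Fin (n + 1))).erase a = (univ : Finset (Fin n)).map
        (Fin.succAboveEmb a) := by
      ext y
      simp only [mem_erase, mem_univ, and_true, mem_map, true_and, Fin.succAboveEmb_apply]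
      constructor
      · intro hy
        exact Fin.exists_succAbove_eq hy
      · rintro ⟨z, rfl⟩
        exact Fin.succAbove_ne a z
    rw [h, inj_map, ih]
    rfl

theorem inj_univ (n : ℕ) (x : Fin n → R) : inj x n univ = vper n x := by
  rw [inj_univ_eq_vrev, vper_eq_vrev]

theorem inj_union_one {ι : Type*} [DecidableEq ι] (x : ι → R) (n : ℕ) (A B : Finset ι)
    (h : Disjoint A B) (h1 : ∀ b ∈ B, x b = 1) :
    inj x n (A ∪ B) = (∏ s ∈ range B.card, ((n : R) - A.card - s)) * inj x n A := by
  induction B using Finset.induction_on with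
  | empty => simp
  | insert b B hb ih =>
    have hAB : Disjoint A B := h.mono_right (subset_insert _ _)
    have hbA : b ∉ A := fun hA => (disjoint_left.1 h) hA (mem_insert_self _ _)
    rw [union_insert, inj_insert_one x n _ b (by simp [hbA, hb]) (h1 b (mem_insert_self _ _)),
      ih hAB fun c hc => h1 c (mem_insert_of_mem hc), card_union_of_disjoint hAB,
      card_insert_of_notMem hb, prod_range_succ]
    push_cast
    ring

theorem prod_sub_eq_factorial (r : ℕ) : ∏ s ∈ range r, ((r : R) - s) = (r.factorial : R) := by
  induction r with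
  | zero => simp
  | succ r ih =>
    rw [prod_range_succ', Nat.factorial_succ]
    push_cast
    rw [← ih, sub_zero, mul_comm]
    congr 1
    apply Finset.prod_congr rfl
    intro s _
    ring

/-- `k` given arguments and `r` arguments `1`. -/
theorem vper_append (k r : ℕ) (y : Fin k → R) :
    vper (k + r) (Fin.append y fun _ : Fin r => (1 : R))
      = (r.factorial : R) * inj y (k + r) univ := by
  rw [← inj_univ]
  have hu : (univ : Finset (Fin (k + r))) = (univ.map (Fin.castAddEmb r)) ∪
      (univ.map (Fin.natAddEmb k)) := by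
    ext i
    simp only [mem_univ, mem_union, mem_map, true_and, Fin.castAddEmb_apply, Fin.natAddEmb_apply,
      true_iff]
    refine Fin.addCases (fun j => Or.inl ⟨j, rfl⟩) (fun j => Or.inr ⟨j, rfl⟩) i
  have hd : Disjoint (univ.map (Fin.castAddEmb r) : Finset (Fin (k + r)))
      (univ.map (Fin.natAddEmb k)) := by
    rw [disjoint_left]
    intro i hi hj
    simp only [mem_map, mem_univ, true_and, Fin.castAddEmb_apply, Fin.natAddEmb_apply] at hi hj
    obtain ⟨a, rfl⟩ := hi
    obtain ⟨b, hb⟩ := hj
    have := congrArg Fin.val hb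
    simp at this
    have := a.2
    omega
  rw [hu, inj_union_one _ _ _ _ hd, inj_map]
  · simp only [card_map, card_univ, Fintype.card_fin, Fin.castAddEmb_apply, Fin.append_left]
    congr 1
    rw [← prod_sub_eq_factorial]
    apply Finset.prod_congr rfl
    intro s _
    push_cast
    ring
  · intro b hb
    simp only [mem_map, mem_univ, true_and, Fin.natAddEmb_apply] at hb
    obtain ⟨c, rfl⟩ := hb
    simp

end Pool.Agent.TH837.VP
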