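import Pool.Agent.TH837.VP.Gad
import Pool.Agent.TH837.VP.VPer

/-!
# Extrapolation to a negative number of additional columns
-/

set_option autoImplicit false

namespace Pool.Agent.TH837.VP

open Finset

variable {κ A : Type*} [DecidableEq κ] [CommRing A]

theorem Hl_cons (r : κ → κ → A) (i : κ) (l : List κ) (J : Finset κ) :
    Hl r (i :: l) J = ∑ j ∈ J, r i j * Hl r l (J.erase j) := rfl

theorem Hl_congr (r r' : κ → κ → A) (l : List κ) : ∀ J : Finset κ,
    (∀ i ∈ l, ∀ j ∈ J, r i j = r' i j) → Hl r l J = Hl r' l J := by
  induction l with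
  | nil => intro J _; rfl
  | cons i l ih =>
    intro J h
    rw [Hl_cons, Hl_cons]
    apply Finset.sum_congr rfl
    intro j hj
    rw [h i (by simp) j hj, ih (J.erase j) fun i' hi' j' hj' =>
      h i' (List.mem_cons_of_mem _ hi') j' (mem_of_mem_erase hj')]

theorem Hl_smul (r : κ → κ → A) (c : A) (l : List κ) : ∀ J : Finset κ,
    Hl (fun i j => c * r i j) l J = c ^ l.length * Hl r l J := by
  induction l with
  | nil => intro J; simp [Hl]
  | cons i l ih =>
    intro J
    rw [Hl_cons, Hl_cons, mul_sum]
    apply Finset.sum_congr rfl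
    intro j _
    rw [ih, List.length_cons, pow_succ]
    ring

theorem Hl_one (r : κ → κ → A) (l : List κ) : ∀ J : Finset κ, (∀ i ∈ l, ∀ j ∈ J, r i j = 1) →
    J.card = l.length → Hl r l J = (l.length.factorial : A) := by
  induction l with
  | nil => intro J _ _; simp [Hl]
  | cons i l ih =>
    intro J h hJ
    rw [List.length_cons] at hJ
    rw [Hl_cons, Finset.sum_congr rfl (g := fun _ => (l.length.factorial : A)), sum_const, hJ,
      List.length_cons, Nat.factorial_succ, nsmul_eq_mul]
    · push_cast; ring
    · intro j hj
      rw [h i (by simp) j hj, one_mul]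
      exact ih (J.erase j) (fun i' hi' j' hj' =>
        h i' (List.mem_cons_of_mem _ hi') j' (mem_of_mem_erase hj'))
        (by rw [card_erase_of_mem hj]; omega)

theorem Hl_append (r : κ → κ → A) (l l2 : List κ) : ∀ J : Finset κ,
    (∀ i ∈ l2, ∀ j ∈ J, r i j = 1) → J.card = l.length + l2.length →
    Hl r (l ++ l2) J = (l2.length.factorial : A) * Hl r l J := by
  induction l with
  | nil =>
    intro J h hJ
    rw [List.nil_append, Hl_one r l2 J h (by simpa using hJ), Hl, mul_one]
  | cons i l ih =>
    intro J h hJ
    rw [List.length_cons] at hJ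
    rw [List.cons_append, Hl_cons, Hl_cons, mul_sum]
    apply Finset.sum_congr rfl
    intro j hj
    rw [ih (J.erase j) (fun i' hi' j' hj' => h i' hi' j' (mem_of_mem_erase hj'))
      (by rw [card_erase_of_mem hj]; omega)]
    ring

theorem Hl_unused (r : κ → κ → A) (l : List κ) : ∀ T : Finset κ,
    ∑ j ∈ T, Hl r l (T.erase j) = ((T.card : A) - l.length) * Hl r l T := by
  induction l with
  | nil => intro T; simp [Hl]
  | cons i l ih =>
    intro T
    rw [Hl_cons]
    have h1 : ∑ j ∈ T, Hl r (i :: l) (T.erase j)
        = ∑ j' ∈ T, ∑ j ∈ T.erase j', r i j' * Hl r l ((T.erase j').erase j) := by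
      have : ∀ j ∈ T, Hl r (i :: l) (T.erase j)
          = ∑ j' ∈ T.erase j, r i j' * Hl r l ((T.erase j').erase j) := by
        intro j _
        rw [Hl_cons]
        apply Finset.sum_congr rfl
        intro j' _
        rw [erase_right_comm]
      rw [Finset.sum_congr rfl this]
      apply Finset.sum_comm'
      intro x y
      simp only [mem_erase]
      constructor
      · rintro ⟨h1, h2, h3⟩
        exact ⟨⟨fun h => h2 h.symm, h1⟩, h3⟩
      · rintro ⟨⟨h1, h2⟩, h3⟩
        exact ⟨h2, fun h => h1 h.symm, h3⟩
    rw [h1, mul_sum]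
    apply Finset.sum_congr rfl
    intro j' hj'
    rw [← mul_sum, ih, card_erase_of_mem hj']
    have : 1 ≤ T.card := card_pos.2 ⟨j', hj'⟩
    rw [List.length_cons]
    push_cast [Nat.cast_sub this]
    ring

/-- Additional columns. -/
theorem Hl_poly (r : κ → κ → A) (l : List κ) : ∀ T : Finset κ, ∃ P : Polynomial A,
    P.natDegree ≤ l.length ∧
    (∀ B : Finset κ, Disjoint T B → (∀ i ∈ l, ∀ j ∈ B, r i j = 0) →
      Hl (fun i j => 1 + r i j) l (T ∪ B) = P.eval (B.card : A)) ∧
    P.eval ((l.length : A) - T.card - 1) = Hl r l T := by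
  induction l with
  | nil =>
    intro T
    exact ⟨1, by simp, fun B _ _ => by simp [Hl], by simp [Hl]⟩
  | cons i l ih =>
    intro T
    choose P h1 h2 h3 using ih
    refine ⟨∑ j ∈ T, Polynomial.C (1 + r i j) * P (T.erase j) +
      Polynomial.X * (P T).comp (Polynomial.X - 1), ?_, ?_, ?_⟩
    · rw [List.length_cons]
      refine (Polynomial.natDegree_add_le _ _).trans (max_le ?_ ?_)
      · apply Polynomial.natDegree_sum_le_of_forall_le
        intro j _
        exact (Polynomial.natDegree_C_mul_le _ _).trans ((h1 _).trans (Nat.le_succ _))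
      · refine Polynomial.natDegree_mul_le.trans ?_
        have h4 : (Polynomial.X : Polynomial A).natDegree ≤ 1 := Polynomial.natDegree_X_le
        have h5 : ((P T).comp (Polynomial.X - 1)).natDegree ≤ l.length := by
          refine Polynomial.natDegree_comp_le.trans ?_
          have h6 : (Polynomial.X - 1 : Polynomial A).natDegree ≤ 1 := by
            refine (Polynomial.natDegree_sub_le _ _).trans ?_
            simp [Polynomial.natDegree_X_le]
          calc (P T).natDegree * (Polynomial.X - 1 : Polynomial A).natDegree
              ≤ l.length * 1 := Nat.mul_le_mul (h1 T) h6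
            _ = l.length := mul_one _
        omega
    · intro B hB hr
      rw [Hl_cons, sum_union hB, Polynomial.eval_add, Polynomial.eval_finsetSum]
      congr 1
      · apply Finset.sum_congr rfl
        intro j hj
        have hjB : j ∉ B := disjoint_left.1 hB hj
        rw [Polynomial.eval_mul, Polynomial.eval_C, erase_union_distrib, erase_eq_of_notMem hjB,
          h2 (T.erase j) B (hB.mono_left (erase_subset _ _)) fun i' hi' j' hj' =>
            hr i' (List.mem_cons_of_mem _ hi') j' hj']
      · rw [Polynomial.eval_mul, Polynomial.eval_X, Polynomial.eval_comp, Polynomial.eval_sub,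
          Polynomial.eval_X, Polynomial.eval_one, ← nsmul_eq_mul, ← sum_const]
        apply Finset.sum_congr rfl
        intro j hj
        have hjT : j ∉ T := disjoint_right.1 hB hj
        rw [hr i (by simp) j hj, add_zero, one_mul, erase_union_distrib, erase_eq_of_notMem hjT,
          h2 T (B.erase j) (hB.mono_right (erase_subset _ _)) fun i' hi' j' hj' =>
            hr i' (List.mem_cons_of_mem _ hi') j' (mem_of_mem_erase hj'), card_erase_of_mem hj]
        have : 1 ≤ B.card := card_pos.2 ⟨j, hj⟩
        rw [Nat.cast_sub this, Nat.cast_one]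
    · rw [Polynomial.eval_add, Polynomial.eval_finsetSum, Polynomial.eval_mul, Polynomial.eval_X,
        Polynomial.eval_comp, Polynomial.eval_sub, Polynomial.eval_X, Polynomial.eval_one,
        List.length_cons]
      have e1 : (((l.length + 1 : ℕ) : A) - T.card - 1) = (l.length : A) - T.card := by
        push_cast; ring
      rw [e1, h3 T, Hl_cons]
      have e2 : ∀ j ∈ T, Polynomial.eval ((l.length : A) - T.card)
          (Polynomial.C (1 + r i j) * P (T.erase j))
          = (1 + r i j) * Hl r l (T.erase j) := by
        intro j hj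
        rw [Polynomial.eval_mul, Polynomial.eval_C, ← h3 (T.erase j), card_erase_of_mem hj]
        have : 1 ≤ T.card := card_pos.2 ⟨j, hj⟩
        rw [Nat.cast_sub this, Nat.cast_one]
        congr 2
        ring
      rw [Finset.sum_congr rfl e2]
      have e3 : ∑ j ∈ T, (1 + r i j) * Hl r l (T.erase j)
          = ∑ j ∈ T, Hl r l (T.erase j) + ∑ j ∈ T, r i j * Hl r l (T.erase j) := by
        rw [← sum_add_distrib]
        apply Finset.sum_congr rfl
        intro j _
        ring
      rw [e3, Hl_unused]
      ring

/-- The sum over bijections is a permanent. -/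
theorem Hl_perm (r : κ → κ → A) (k : ℕ) : ∀ (f : Fin k → κ) (e : Fin k ↪ κ),
    Hl r (List.ofFn f) (univ.map e)
      = (Matrix.of fun a b : Fin k => r (f b) (e a)).permanent := by
  induction k with
  | zero => intro f e; rw [Matrix.permanent_isEmpty]; simp [Hl]
  | succ k ih =>
    intro f e
    rw [List.ofFn_succ, Hl_cons, sum_map, permanent_succ_column_zero]
    apply Finset.sum_congr rfl
    intro a _
    have h : (univ.map e).erase (e a) = univ.map ((Fin.succAboveEmb a).trans e) := by
      rw [← map_map, ← map_erase]
      congr 1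
      ext y
      simp only [mem_erase, mem_univ, and_true, mem_map, true_and, Fin.succAboveEmb_apply]
      constructor
      · intro hy
        exact Fin.exists_succAbove_eq hy
      · rintro ⟨z, rfl⟩
        exact Fin.succAbove_ne a z
    rw [h, ih]
    rfl

end Pool.Agent.TH837.VP
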