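import Mathlib

/-!
# Families of power series whose coefficients are polynomials in a parameter

`Fil κ f g`: the coefficient of `X ^ r` in `f t` is a polynomial in `t` of degree at most `r + κ`,
with coefficient of `t ^ (r + κ)` equal to the coefficient of `X ^ r` in `g`.
-/

set_option autoImplicit false

namespace Pool.Agent.TH837.VP

open Finset PowerSeries

variable {R : Type*} [CommRing R]

/-- The coefficient of `X ^ r` in `f t` is a polynomial in `t` of degree at most `r + κ`, whose
coefficient of `t ^ (r + κ)` is the coefficient of `X ^ r` in `g`. -/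
def Fil (κ : ℕ) (f : ℕ → PowerSeries R) (g : PowerSeries R) : Prop :=
  ∀ r : ℕ, ∃ q : Polynomial R, q.natDegree ≤ r + κ ∧ q.coeff (r + κ) = coeff r g ∧
    ∀ t : ℕ, coeff r (f t) = q.eval (t : R)

theorem Fil.congr {κ : ℕ} {f f' : ℕ → PowerSeries R} {g : PowerSeries R} (h : Fil κ f g)
    (hf : ∀ t, f' t = f t) : Fil κ f' g := by
  intro r
  obtain ⟨q, h1, h2, h3⟩ := h r
  exact ⟨q, h1, h2, fun t => by rw [hf, h3]⟩

theorem Fil.zero (κ : ℕ) : Fil κ (fun _ => (0 : PowerSeries R)) 0 := by
  intro r
  exact ⟨0, by simp, by simp, fun t => by simp⟩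

theorem Fil.add {κ : ℕ} {f f' : ℕ → PowerSeries R} {g g' : PowerSeries R} (h : Fil κ f g)
    (h' : Fil κ f' g') : Fil κ (fun t => f t + f' t) (g + g') := by
  intro r
  obtain ⟨q, h1, h2, h3⟩ := h r
  obtain ⟨q', h1', h2', h3'⟩ := h' r
  refine ⟨q + q', (Polynomial.natDegree_add_le _ _).trans (max_le h1 h1'), ?_, fun t => ?_⟩
  · rw [Polynomial.coeff_add, h2, h2', map_add]
  · rw [map_add, h3, h3', Polynomial.eval_add]

theorem Fil.sum {κ : ℕ} {ι : Type*} (s : Finset ι) {f : ι → ℕ → PowerSeries R}
    {g : ι → PowerSeries R} (h : ∀ i ∈ s, Fil κ (f i) (g i)) :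
    Fil κ (fun t => ∑ i ∈ s, f i t) (∑ i ∈ s, g i) := by
  classical
  induction s using Finset.induction_on with
  | empty => simpa using Fil.zero κ
  | insert a s ha ih =>
    simp only [sum_insert ha]
    exact (h a (mem_insert_self _ _)).add (ih fun i hi => h i (mem_insert_of_mem hi))

theorem Fil.mul {κ κ' : ℕ} {f f' : ℕ → PowerSeries R} {g g' : PowerSeries R} (h : Fil κ f g)
    (h' : Fil κ' f' g') : Fil (κ + κ') (fun t => f t * f' t) (g * g') := by
  intro r
  choose q h1 h2 h3 using h
  choose q' h1' h2' h3' using h'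
  refine ⟨∑ p ∈ antidiagonal r, q p.1 * q' p.2, ?_, ?_, fun t => ?_⟩
  · apply Polynomial.natDegree_sum_le_of_forall_le
    intro p hp
    rw [Finset.HasAntidiagonal.mem_antidiagonal] at hp
    refine Polynomial.natDegree_mul_le.trans ?_
    have := h1 p.1
    have := h1' p.2
    omega
  · rw [Polynomial.finsetSum_coeff, coeff_mul]
    apply Finset.sum_congr rfl
    intro p hp
    rw [Finset.HasAntidiagonal.mem_antidiagonal] at hp
    rw [show r + (κ + κ') = (p.1 + κ) + (p.2 + κ') by omega,
      Polynomial.coeff_mul_add_eq_of_natDegree_le (h1 p.1) (h1' p.2), h2, h2']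
  · rw [coeff_mul, Polynomial.eval_finsetSum]
    apply Finset.sum_congr rfl
    intro p _
    rw [Polynomial.eval_mul, h3, h3']

theorem Fil.lift {κ κ' : ℕ} {f : ℕ → PowerSeries R} {g : PowerSeries R} (h : Fil κ f g)
    (hk : κ < κ') : Fil κ' f 0 := by
  intro r
  obtain ⟨q, h1, h2, h3⟩ := h r
  refine ⟨q, by omega, ?_, h3⟩
  rw [Polynomial.coeff_eq_zero_of_natDegree_lt (by omega), map_zero]

theorem Fil.const (F : PowerSeries R) : Fil 0 (fun _ => F) (C (constantCoeff F)) := by
  intro r
  refine ⟨Polynomial.C (coeff r F), by simp, ?_, fun t => by simp⟩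
  rw [PowerSeries.coeff_C, Polynomial.coeff_C]
  simp only [Nat.add_zero]
  split_ifs with h
  · subst h; simp
  · rfl

theorem Fil.X_mul {κ : ℕ} {f : ℕ → PowerSeries R} {g : PowerSeries R} (h : Fil (κ + 1) f g) :
    Fil κ (fun t => X * f t) (X * g) := by
  intro r
  cases r with
  | zero => exact ⟨0, by simp, by simp, fun t => by simp⟩
  | succ r =>
    obtain ⟨q, h1, h2, h3⟩ := h r
    refine ⟨q, by omega, ?_, fun t => ?_⟩
    · rw [show r + 1 + κ = r + (κ + 1) by omega, h2, coeff_succ_X_mul]
    · rw [coeff_succ_X_mul, h3]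

theorem Fil.const_mul {κ : ℕ} {f : ℕ → PowerSeries R} {g : PowerSeries R} (c : R)
    (h : Fil κ f g) : Fil κ (fun t => C c * f t) (C c * g) := by
  have := (Fil.const (C c : PowerSeries R)).mul h
  rw [Nat.zero_add] at this
  simpa using this

section Rat

variable [Algebra ℚ R]

/-- the binomial coefficient as a polynomial -/
theorem exists_binom (R : Type*) [CommRing R] [Algebra ℚ R] (j : ℕ) :
    ∃ q : Polynomial R, q.natDegree ≤ j ∧
      q.coeff j = algebraMap ℚ R (1 / (j.factorial : ℚ)) ∧
      ∀ t : ℕ, q.eval (t : R) = (t.choose j : R) := by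
  set q0 : Polynomial ℚ := Polynomial.C (1 / (j.factorial : ℚ)) * descPochhammer ℚ j with hq0
  have hmon := monic_descPochhammer ℚ j
  have hdeg : (descPochhammer ℚ j).natDegree = j := descPochhammer_natDegree ℚ j
  refine ⟨q0.map (algebraMap ℚ R), ?_, ?_, fun t => ?_⟩
  · refine Polynomial.natDegree_map_le.trans ?_
    rw [hq0]
    refine (Polynomial.natDegree_C_mul_le _ _).trans ?_
    rw [hdeg]
  · rw [Polynomial.coeff_map, hq0, Polynomial.coeff_C_mul]
    have : (descPochhammer ℚ j).coeff j = 1 := by
      conv_lhs => rw [← hdeg]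
      rw [hdeg]
      have := hmon.coeff_natDegree
      rwa [hdeg] at this
    rw [this, mul_one]
  · rw [Polynomial.eval_natCast_map, hq0, Polynomial.eval_mul, Polynomial.eval_C,
      descPochhammer_eval_eq_descFactorial, Nat.descFactorial_eq_factorial_mul_choose]
    have h : (j.factorial : ℚ) ≠ 0 := by exact_mod_cast j.factorial_ne_zero
    have h2 : 1 / (j.factorial : ℚ) * ((j.factorial * t.choose j : ℕ) : ℚ) = (t.choose j : ℚ) := by
      push_cast
      field_simp
    rw [h2, map_natCast]

omit [Algebra ℚ R] in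
theorem geom_eq (u : R) (t K : ℕ) (h : t ≤ K) :
    ∑ i ∈ range t, (1 + u) ^ i = ∑ k ∈ range K, (t.choose (k + 1) : R) * u ^ k := by
  induction t with
  | zero => simp
  | succ t ih =>
    rw [sum_range_succ, ih (by omega)]
    have h1 : (1 + u) ^ t = ∑ k ∈ range K, (t.choose k : R) * u ^ k := by
      rw [add_comm, add_pow, ← Finset.sum_subset (s₁ := range (t + 1)) (s₂ := range K)]
      · apply Finset.sum_congr rfl
        intro k _
        rw [one_pow]; ring
      · intro k hk
        rw [Finset.mem_range] at hk ⊢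
        omega
      · intro k _ hk
        rw [Finset.mem_range] at hk
        rw [Nat.choose_eq_zero_of_lt (by omega)]
        simp
    rw [h1, ← sum_add_distrib]
    apply Finset.sum_congr rfl
    intro k _
    rw [Nat.choose_succ_succ]
    push_cast
    ring

/-- the series `(e^s - 1)/s` at `s = w X` -/
def gser (w : R) : PowerSeries R :=
  PowerSeries.mk fun r => w ^ r * algebraMap ℚ R (1 / ((r + 1).factorial : ℚ))

theorem Fil.geom (W : PowerSeries R) :
    Fil 1 (fun t => ∑ i ∈ range t, (1 + X * W) ^ i) (gser (constantCoeff W)) := by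
  intro r
  choose b h1 h2 h3 using exists_binom R
  refine ⟨∑ k ∈ range (r + 1), Polynomial.C (coeff (r - k) (W ^ k)) * b (k + 1), ?_, ?_,
    fun t => ?_⟩
  · apply Polynomial.natDegree_sum_le_of_forall_le
    intro k hk
    rw [Finset.mem_range] at hk
    refine (Polynomial.natDegree_C_mul_le _ _).trans ?_
    have := h1 (k + 1)
    omega
  · rw [Polynomial.finsetSum_coeff, sum_range_succ, Finset.sum_eq_zero, zero_add]
    · rw [Polynomial.coeff_C_mul, h2, Nat.sub_self, gser, coeff_mk]
      simp
    · intro k hk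
      rw [Finset.mem_range] at hk
      rw [Polynomial.coeff_C_mul, Polynomial.coeff_eq_zero_of_natDegree_lt, mul_zero]
      have := h1 (k + 1)
      omega
  · show coeff r (∑ i ∈ range t, (1 + X * W) ^ i) = _
    rw [geom_eq (X * W) t (max t (r + 1)) (le_max_left _ _), Polynomial.eval_finsetSum, map_sum]
    symm
    apply Finset.sum_subset_zero_on_sdiff
    · intro k hk
      rw [Finset.mem_range] at hk ⊢
      exact lt_of_lt_of_le hk (le_max_right _ _)
    · intro k hk
      rw [mem_sdiff, Finset.mem_range, Finset.mem_range] at hk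
      rw [mul_pow, ← mul_assoc, mul_comm (_ : PowerSeries R) (X ^ k), mul_assoc,
        PowerSeries.coeff_X_pow_mul', if_neg (by omega)]
    · intro k hk
      rw [Finset.mem_range] at hk
      rw [Polynomial.eval_mul, Polynomial.eval_C, h3, mul_pow, ← mul_assoc,
        mul_comm (_ : PowerSeries R) (X ^ k), mul_assoc, PowerSeries.coeff_X_pow_mul',
        if_pos (by omega)]
      rw [← map_natCast (C : R →+* PowerSeries R), PowerSeries.coeff_C_mul, mul_comm]

end Rat

end Pool.Agent.TH837.VP
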