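import Mathlib

/-!
# The labels of the tokens

Tokens `e i j`, `f i k`, `g j k`. The only nonempty sets of at most three tokens with sum of labels
divisible by the modulus are `{e i j, f i k, g j l}` with `k = 0 ↔ l = 0`.
-/

set_option autoImplicit false

namespace Pool.Agent.TH837.VP

open Finset

/-- The tokens: `e (i, j)`, `f (i, k)`, `g (j, k)`. -/
abbrev Tok (n : ℕ) := (Fin n × Fin n) ⊕ ((Fin n × ℕ) ⊕ (Fin n × ℕ))

variable {n : ℕ}

/-- the token `e (i, j)` -/
abbrev te (p : Fin n × Fin n) : Tok n := Sum.inl p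

/-- the token `f (i, k)` -/
abbrev tf (p : Fin n × ℕ) : Tok n := Sum.inr (Sum.inl p)

/-- the token `g (j, k)` -/
abbrev tg (p : Fin n × ℕ) : Tok n := Sum.inr (Sum.inr p)

/-- One seventh of the modulus. -/
def wid (n : ℕ) : ℕ := 6 * (n * n) + 1

/-- The label of a token. -/
def lab : Tok n → ℕ
  | Sum.inl p => 4 * wid n - (p.1.val + n * p.2.val + n * n)
  | Sum.inr (Sum.inl p) => wid n + (p.1.val + if p.2 = 0 then n * n else 0)
  | Sum.inr (Sum.inr p) => 2 * wid n + (n * p.1.val + if p.2 = 0 then 0 else n * n)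

theorem lab_te (p : Fin n × Fin n) :
    lab (te p) + (p.1.val + n * p.2.val + n * n) = 4 * wid n := by
  have h : p.1.val + n * p.2.val + n * n ≤ 4 * wid n := by
    have h1 := p.1.2
    have h2 : n * p.2.val ≤ n * n := Nat.mul_le_mul_left _ p.2.2.le
    have h3 : p.1.val ≤ n * n := h1.le.trans (Nat.le_mul_self n)
    unfold wid
    omega
  unfold lab te
  simp only
  omega

theorem lab_te_bounds (p : Fin n × Fin n) :
    lab (te p) ≤ 4 * wid n ∧ 4 * wid n < lab (te p) + 2 * (n * n) := by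
  have h := lab_te p
  have h1 := p.1.2
  have h2 : n * p.2.val + n ≤ n * n := by
    have := Nat.mul_le_mul_left n (Nat.succ_le_of_lt p.2.2)
    rw [Nat.mul_succ] at this
    exact this
  omega

theorem lab_tf (p : Fin n × ℕ) :
    lab (tf p) = wid n + (p.1.val + if p.2 = 0 then n * n else 0) := rfl

theorem lab_tg (p : Fin n × ℕ) :
    lab (tg p) = 2 * wid n + (n * p.1.val + if p.2 = 0 then 0 else n * n) := rfl

theorem lab_tf_bounds (p : Fin n × ℕ) :
    wid n ≤ lab (tf p) ∧ lab (tf p) < wid n + 2 * (n * n) := by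
  rw [lab_tf]
  have h1 := p.1.2
  have h3 : p.1.val < n * n := h1.trans_le (Nat.le_mul_self n)
  split_ifs <;> omega

theorem lab_tg_bounds (p : Fin n × ℕ) :
    2 * wid n ≤ lab (tg p) ∧ lab (tg p) < 2 * wid n + 2 * (n * n) := by
  rw [lab_tg]
  have h1 := p.1.2
  have h3 : n * p.1.val < n * n := Nat.mul_lt_mul_of_pos_left h1 (by omega)
  split_ifs <;> omega

/-- the modulus -/
def modu (n : ℕ) : ℕ := 7 * wid n

theorem wid_eq (n : ℕ) : wid n = 6 * (n * n) + 1 := rfl

theorem not_dvd_of_lt {M S : ℕ} (h1 : 0 < S) (h2 : S < M) : ¬ M ∣ S := by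
  intro h
  have := Nat.le_of_dvd h1 h
  omega

theorem not_dvd_of_lt' {M S : ℕ} (h1 : M < S) (h2 : S < 2 * M) : ¬ M ∣ S := by
  intro h
  have h3 : M ∣ S - M := Nat.dvd_sub h (dvd_refl M)
  exact not_dvd_of_lt (by omega) (by omega) h3

theorem bounds (a : Tok n) :
    (∃ p, a = te p ∧ lab a ≤ 4 * wid n ∧ 4 * wid n < lab a + 2 * (n * n)) ∨
    (∃ q, a = tf q ∧ wid n ≤ lab a ∧ lab a < wid n + 2 * (n * n)) ∨
    (∃ r, a = tg r ∧ 2 * wid n ≤ lab a ∧ lab a < 2 * wid n + 2 * (n * n)) := by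
  rcases a with p | p | p
  · exact Or.inl ⟨p, rfl, lab_te_bounds p⟩
  · exact Or.inr (Or.inl ⟨p, rfl, lab_tf_bounds p⟩)
  · exact Or.inr (Or.inr ⟨p, rfl, lab_tg_bounds p⟩)

theorem one_ne (a : Tok n) : ¬ modu n ∣ lab a := by
  have hw := wid_eq n
  rcases bounds a with ⟨p, -, h1, h2⟩ | ⟨p, -, h1, h2⟩ | ⟨p, -, h1, h2⟩ <;>
    exact not_dvd_of_lt (by omega) (by unfold modu; omega)

theorem two_ne (a b : Tok n) : ¬ modu n ∣ lab a + lab b := by
  have hw := wid_eq n
  rcases bounds a with ⟨p, -, h1, h2⟩ | ⟨p, -, h1, h2⟩ | ⟨p, -, h1, h2⟩ <;>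
    rcases bounds b with ⟨q, -, h3, h4⟩ | ⟨q, -, h3, h4⟩ | ⟨q, -, h3, h4⟩ <;>
    first
    | exact not_dvd_of_lt (by omega) (by unfold modu; omega)
    | exact not_dvd_of_lt' (by unfold modu; omega) (by unfold modu; omega)

theorem digits {n i i' j j' u : ℕ} (hi : i < n) (hi' : i' < n) (hj : j < n) (hj' : j' < n)
    (h : i' + n * j' + n * n * u = i + n * j + n * n) : i' = i ∧ j' = j ∧ u = 1 := by
  have h1 : i' + n * (j' + n * u) = i + n * (j + n) := by
    rw [mul_add, mul_add, ← mul_assoc]; omega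
  have h2 : i' = i := by
    have := congrArg (· % n) h1
    simp only [Nat.add_mul_mod_self_left] at this
    rwa [Nat.mod_eq_of_lt hi', Nat.mod_eq_of_lt hi] at this
  subst h2
  have h3 : j' + n * u = j + n * 1 := by
    have := Nat.add_left_cancel h1
    rw [mul_one]
    exact Nat.eq_of_mul_eq_mul_left (by omega) this
  have h4 : j' = j := by
    have := congrArg (· % n) h3
    simp only [Nat.add_mul_mod_self_left] at this
    rwa [Nat.mod_eq_of_lt hj', Nat.mod_eq_of_lt hj] at this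
  subst h4
  exact ⟨rfl, rfl, Nat.eq_of_mul_eq_mul_left (by omega) (Nat.add_left_cancel h3)⟩

/-- the zero-sum triples -/
theorem efg (p : Fin n × Fin n) (q r : Fin n × ℕ) :
    modu n ∣ lab (te p) + lab (tf q) + lab (tg r) ↔
      q.1 = p.1 ∧ r.1 = p.2 ∧ (q.2 = 0 ↔ r.2 = 0) := by
  have hw := wid_eq n
  have h0 := lab_te p
  have h1 := lab_te_bounds p
  have h2 := lab_tf_bounds q
  have h3 := lab_tg_bounds r
  constructor
  · rintro ⟨k, hk⟩
    have hk1 : k = 1 := by
      rcases Nat.lt_or_ge k 1 with h | h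
      · have : k = 0 := by omega
        subst this
        rw [mul_zero] at hk
        omega
      · rcases Nat.lt_or_ge 1 k with h' | h'
        · have h4 : modu n * 2 ≤ modu n * k := Nat.mul_le_mul_left _ h'
          unfold modu at h4 hk
          omega
        · omega
    subst hk1
    rw [mul_one] at hk
    rw [lab_tf, lab_tg] at hk
    have key : q.1.val + n * r.1.val + n * n * ((if q.2 = 0 then 1 else 0) +
        (if r.2 = 0 then 0 else 1)) = p.1.val + n * p.2.val + n * n := by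
      unfold modu at hk
      split_ifs at hk ⊢ <;> omega
    obtain ⟨h4, h5, h6⟩ := digits p.1.2 q.1.2 p.2.2 r.1.2 key
    refine ⟨Fin.ext h4, Fin.ext h5, ?_⟩
    split_ifs at h6 with ha hb hb
    · exact ⟨fun _ => hb, fun _ => ha⟩
    · omega
    · omega
    · exact ⟨fun h => absurd h ha, fun h => absurd h hb⟩
  · rintro ⟨h4, h5, h6⟩
    refine ⟨1, ?_⟩
    rw [mul_one, lab_tf, lab_tg, h4, h5]
    unfold modu
    by_cases ha : q.2 = 0
    · rw [if_pos ha, if_pos (h6.1 ha)]; omega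
    · rw [if_neg ha, if_neg (fun h => ha (h6.2 h))]; omega

/-- zero-sum triples containing `e p` -/
theorem three_e (p : Fin n × Fin n) (b c : Tok n) (h : modu n ∣ lab (te p) + (lab b + lab c)) :
    ∃ q r, (b = tf q ∧ c = tg r) ∨ (b = tg r ∧ c = tf q) := by
  have hw := wid_eq n
  have h0 := lab_te_bounds p
  rcases bounds b with ⟨q, hb, h1, h2⟩ | ⟨q, hb, h1, h2⟩ | ⟨q, hb, h1, h2⟩ <;>
    rcases bounds c with ⟨r, hc, h3, h4⟩ | ⟨r, hc, h3, h4⟩ | ⟨r, hc, h3, h4⟩ <;>
    first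
    | exact ⟨q, r, Or.inl ⟨hb, hc⟩⟩
    | exact ⟨r, q, Or.inr ⟨hb, hc⟩⟩
    | exact absurd h (not_dvd_of_lt (by omega) (by unfold modu; omega))
    | exact absurd h (not_dvd_of_lt' (by unfold modu; omega) (by unfold modu; omega))

/-- zero-sum triples containing `f q` -/
theorem three_f (q : Fin n × ℕ) (b c : Tok n) (h : modu n ∣ lab (tf q) + (lab b + lab c)) :
    ∃ p r, (b = te p ∧ c = tg r) ∨ (b = tg r ∧ c = te p) := by
  have hw := wid_eq n
  have h0 := lab_tf_bounds q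
  rcases bounds b with ⟨p, hb, h1, h2⟩ | ⟨p, hb, h1, h2⟩ | ⟨p, hb, h1, h2⟩ <;>
    rcases bounds c with ⟨r, hc, h3, h4⟩ | ⟨r, hc, h3, h4⟩ | ⟨r, hc, h3, h4⟩ <;>
    first
    | exact ⟨p, r, Or.inl ⟨hb, hc⟩⟩
    | exact ⟨r, p, Or.inr ⟨hb, hc⟩⟩
    | exact absurd h (not_dvd_of_lt (by omega) (by unfold modu; omega))
    | exact absurd h (not_dvd_of_lt' (by unfold modu; omega) (by unfold modu; omega))

end Pool.Agent.TH837.VP
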