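import Pool.Agent.TH837.VP.Blk
import Pool.Agent.TH837.VP.Lab

/-!
# The symbol for the sets of tokens
-/

set_option autoImplicit false

namespace Pool.Agent.TH837.VP

open Finset PowerSeries

variable {n : ℕ} {R : Type*} [CommRing R] [IsDomain R] [Algebra ℚ R]

/-- the set of tokens -/
abbrev tset (E : Finset (Fin n × Fin n)) (F G : Finset (Fin n × ℕ)) : Finset (Tok n) :=
  E.disjSum (F.disjSum G)

theorem card_tset (E : Finset (Fin n × Fin n)) (F G : Finset (Fin n × ℕ)) :
    (tset E F G).card = E.card + (F.card + G.card) := by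
  rw [card_disjSum, card_disjSum]

omit [IsDomain R] [Algebra ℚ R] in
theorem prod_pow_lab (ω : R) (B : Finset (Tok n)) :
    ∏ a ∈ B, ω ^ lab a = ω ^ ∑ a ∈ B, lab a := by
  rw [prod_pow_eq_pow_sum]

omit [IsDomain R] [Algebra ℚ R] in
theorem hmin_lab (ω : R) (hω : IsPrimitiveRoot ω (modu n)) (B : Finset (Tok n))
    (hB : B.Nonempty) (h : ∏ a ∈ B, ω ^ lab a = 1) : 3 ≤ B.card := by
  rw [prod_pow_lab, hω.pow_eq_one_iff_dvd] at h
  by_contra hc
  have h0 : 0 < B.card := card_pos.2 hB
  have : B.card = 1 ∨ B.card = 2 := by omega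
  rcases this with h1 | h1
  · obtain ⟨a, rfl⟩ := card_eq_one.1 h1
    rw [sum_singleton] at h
    exact one_ne a h
  · obtain ⟨a, b, hab, rfl⟩ := card_eq_two.1 h1
    rw [sum_pair hab] at h
    exact two_ne a b h

omit [IsDomain R] [Algebra ℚ R] in
theorem hz_lab (ω : R) (hω : IsPrimitiveRoot ω (modu n)) (a : Tok n) :
    (ω ^ lab a) ^ modu n = 1 := by
  rw [← pow_mul, mul_comm, pow_mul, hω.pow_eq_one, one_pow]

/-- number of elements in a row -/
abbrev rowc {n : ℕ} {β : Type*} (F : Finset (Fin n × β)) (i : Fin n) : ℕ :=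
  (F.filter fun p => p.1 = i).card

/-- number of elements in a column -/
abbrev colc {n : ℕ} (E : Finset (Fin n × Fin n)) (j : Fin n) : ℕ :=
  (E.filter fun p => p.2 = j).card

theorem sum_rowc {n : ℕ} {β : Type*} (F : Finset (Fin n × β)) : ∑ i, rowc F i = F.card := by
  rw [card_eq_sum_card_fiberwise (f := fun p => p.1) (t := univ) (fun _ _ => mem_univ _)]

theorem sum_colc {n : ℕ} (E : Finset (Fin n × Fin n)) : ∑ i, colc E i = E.card := by
  rw [card_eq_sum_card_fiberwise (f := fun p => p.2) (t := univ) (fun _ _ => mem_univ _)]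

theorem rowc_erase {n : ℕ} {β : Type*} [DecidableEq β] (F : Finset (Fin n × β)) (x : Fin n × β)
    (hx : x ∈ F) (i : Fin n) :
    rowc F i = rowc (F.erase x) i + if x.1 = i then 1 else 0 := by
  unfold rowc
  rw [filter_erase]
  split_ifs with h
  · rw [card_erase_add_one (mem_filter.2 ⟨hx, h⟩)]
  · have h1 : x ∉ F.filter fun p => p.1 = i := fun h' => h (mem_filter.1 h').2
    rw [erase_eq_of_notMem h1, add_zero]

theorem colc_erase {n : ℕ} (F : Finset (Fin n × Fin n)) (x : Fin n × Fin n)
    (hx : x ∈ F) (i : Fin n) :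
    colc F i = colc (F.erase x) i + if x.2 = i then 1 else 0 := by
  unfold colc
  rw [filter_erase]
  split_ifs with h
  · rw [card_erase_add_one (mem_filter.2 ⟨hx, h⟩)]
  · have h1 : x ∉ F.filter fun p => p.2 = i := fun h' => h (mem_filter.1 h').2
    rw [erase_eq_of_notMem h1, add_zero]

/-- product of the factorials -/
def kfac {n : ℕ} {β : Type*} (F : Finset (Fin n × β)) : ℕ := ∏ i, (rowc F i).factorial

theorem kfac_erase {n : ℕ} {β : Type*} [DecidableEq β] (F : Finset (Fin n × β)) (x : Fin n × β)
    (hx : x ∈ F) : kfac F = rowc F x.1 * kfac (F.erase x) := by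
  unfold kfac
  rw [← mul_prod_erase univ _ (mem_univ x.1), ← mul_prod_erase univ (fun i =>
    (rowc (F.erase x) i).factorial) (mem_univ x.1), ← mul_assoc]
  congr 1
  · have h := rowc_erase F x hx x.1
    rw [if_pos rfl] at h
    rw [h, Nat.factorial_succ]
  · apply Finset.prod_congr rfl
    intro i hi
    rw [rowc_erase F x hx i, if_neg (fun h => (mem_erase.1 hi).1 h.symm), add_zero]

theorem kfac_pos {n : ℕ} {β : Type*} (F : Finset (Fin n × β)) : 0 < kfac F :=
  Finset.prod_pos fun _ _ => Nat.factorial_pos _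

omit [IsDomain R] in
/-- `α_p` -/
noncomputable def alf (Y : Tok n → R) (p : Fin n × Fin n) : PowerSeries R :=
  gser ((modu n : R) * Y (te p))

omit [IsDomain R] in
theorem constCoeff_gser (w : R) : constantCoeff (gser w) = 1 := by
  rw [gser, ← coeff_zero_eq_constantCoeff_apply, coeff_mk]
  simp

omit [IsDomain R] in
/-- the inverse of `gser w` -/
noncomputable def ginv (w : R) : PowerSeries R := invOfUnit (gser w) 1

omit [IsDomain R] in
theorem gser_mul_ginv (w : R) : gser w * ginv w = 1 :=
  mul_invOfUnit _ _ (by rw [constCoeff_gser]; rfl)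

omit [IsDomain R] in
/-- the ratio `β / α` -/
noncomputable def rat (Y : Tok n → R) (i j : Fin n) : PowerSeries R :=
  gser ((modu n : R) * (Y (tf (i, 0)) + Y (te (i, j)))) * ginv ((modu n : R) * Y (te (i, j)))

/-- the sum over the injections from a list to a finite set -/
def Hl {κ A : Type*} [DecidableEq κ] [CommRing A] (r : κ → κ → A) : List κ → Finset κ → A
  | [], _ => 1
  | i :: l, J => ∑ j ∈ J, r i j * Hl r l (J.erase j)

/-- the tokens with star -/
def stars {n : ℕ} (I : Finset (Fin n)) : Finset (Fin n × ℕ) := I.image fun i => (i, 0)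

theorem mem_stars {n : ℕ} (I : Finset (Fin n)) (x : Fin n × ℕ) :
    x ∈ stars I ↔ x.1 ∈ I ∧ x.2 = 0 := by
  unfold stars
  rw [mem_image]
  constructor
  · rintro ⟨i, hi, rfl⟩
    exact ⟨hi, rfl⟩
  · rintro ⟨h1, h2⟩
    exact ⟨x.1, h1, Prod.ext rfl h2.symm⟩

theorem card_stars {n : ℕ} (I : Finset (Fin n)) : (stars I).card = I.card :=
  card_image_of_injective _ fun a b h => (Prod.ext_iff.1 h).1

theorem disj_stars {n : ℕ} (F : Finset (Fin n × ℕ)) (hF : ∀ p ∈ F, p.2 ≠ 0) (I : Finset (Fin n)) :
    Disjoint F (stars I) := by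
  rw [disjoint_left]
  intro x hx hx'
  exact hF x hx ((mem_stars I x).1 hx').2

variable (ω : R) (hω : IsPrimitiveRoot ω (modu n)) (Y : Tok n → R)
  (hYf : ∀ p : Fin n × ℕ, p.2 ≠ 0 → Y (tf p) = 0) (hYg : ∀ p : Fin n × ℕ, Y (tg p) = 0)

include hω hYf hYg

theorem stage2 (s : ℕ) : ∀ (E : Finset (Fin n × Fin n)) (F G : Finset (Fin n × ℕ)),
    E.card = s → (∀ p ∈ F, p.2 ≠ 0) → (∀ p ∈ G, p.2 ≠ 0) →
    (∀ i, rowc E i = rowc F i) → (∀ j, colc E j = rowc G j) →
    Fil s (fun t => inj (tok (fun a => ω ^ lab a) Y) (modu n * t) (tset E F G))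
      (C ((2 * (modu n : R)) ^ s * ((kfac F * kfac G : ℕ) : R)) * ∏ p ∈ E, alf Y p) := by
  induction s with
  | zero =>
    intro E F G hs hF hG hr hc
    have hE : E = ∅ := card_eq_zero.1 hs
    have hF' : F = ∅ := by
      rw [← card_eq_zero, ← sum_rowc, ← Finset.sum_congr rfl (fun i _ => hr i), sum_rowc, hs]
    have hG' : G = ∅ := by
      rw [← card_eq_zero, ← sum_rowc, ← Finset.sum_congr rfl (fun i _ => hc i), sum_colc, hs]
    subst hE hF' hG'
    have h1 : (tset ∅ ∅ ∅ : Finset (Tok n)) = ∅ := rfl
    have h2 : kfac (∅ : Finset (Fin n × ℕ)) = 1 := by simp [kfac, rowc]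
    rw [h1, h2]
    simp only [inj_empty]
    simpa using Fil.const (1 : PowerSeries R)
  | succ s ih =>
    intro E F G hs hF hG hr hc
    obtain ⟨p, hp⟩ : E.Nonempty := card_pos.1 (by omega)
    have hcF : F.card = E.card := by
      rw [← sum_rowc, ← sum_rowc]
      exact Finset.sum_congr rfl fun i _ => (hr i).symm
    have hcG : G.card = E.card := by
      rw [← sum_rowc, ← sum_colc]
      exact Finset.sum_congr rfl fun i _ => (hc i).symm
    have hE' : (E.erase p).card = s := by rw [card_erase_of_mem hp]; omega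
    have ha : te p ∉ tset (E.erase p) F G := by simp [tset]
    have hins : insert (te p) (tset (E.erase p) F G) = tset E F G := by
      ext x
      rcases x with x | x | x
      · simp only [tset, mem_insert, Sum.inl.injEq, inl_mem_disjSum, mem_erase]
        constructor
        · rintro (rfl | h)
          · exact hp
          · exact h.2
        · intro h
          by_cases hx : x = p
          · exact Or.inl hx
          · exact Or.inr ⟨hx, h⟩
      · simp [tset]
      · simp [tset]
    -- constants for the rows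
    have hFpos : 0 < rowc F p.1 := by
      rw [← hr]
      exact card_pos.2 ⟨p, mem_filter.2 ⟨hp, rfl⟩⟩
    have hGpos : 0 < rowc G p.2 := by
      rw [← hc]
      exact card_pos.2 ⟨p, mem_filter.2 ⟨hp, rfl⟩⟩
    obtain ⟨kF, hkF⟩ : ∃ kF, ∀ x ∈ F, x.1 = p.1 → kfac (F.erase x) = kF := by
      obtain ⟨x0, hx0⟩ := card_pos.1 hFpos
      rw [mem_filter] at hx0
      refine ⟨kfac (F.erase x0), fun x hx h => ?_⟩
      have h1 := kfac_erase F x hx
      have h2 := kfac_erase F x0 hx0.1
      rw [h] at h1
      rw [hx0.2, h1] at h2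
      exact Nat.eq_of_mul_eq_mul_left hFpos h2
    obtain ⟨kG, hkG⟩ : ∃ kG, ∀ x ∈ G, x.1 = p.2 → kfac (G.erase x) = kG := by
      obtain ⟨x0, hx0⟩ := card_pos.1 hGpos
      rw [mem_filter] at hx0
      refine ⟨kfac (G.erase x0), fun x hx h => ?_⟩
      have h1 := kfac_erase G x hx
      have h2 := kfac_erase G x0 hx0.1
      rw [h] at h1
      rw [hx0.2, h1] at h2
      exact Nat.eq_of_mul_eq_mul_left hGpos h2
    have hKF : kfac F = rowc F p.1 * kF := by
      obtain ⟨x0, hx0⟩ := card_pos.1 hFpos
      rw [mem_filter] at hx0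
      rw [kfac_erase F x0 hx0.1, hx0.2, hkF x0 hx0.1 hx0.2]
    have hKG : kfac G = rowc G p.2 * kG := by
      obtain ⟨x0, hx0⟩ := card_pos.1 hGpos
      rw [mem_filter] at hx0
      rw [kfac_erase G x0 hx0.1, hx0.2, hkG x0 hx0.1 hx0.2]
    set T : Finset ((Fin n × ℕ) × (Fin n × ℕ)) :=
      (F.filter fun q => q.1 = p.1) ×ˢ (G.filter fun q => q.1 = p.2) with hT
    have key := fil_insert' (fun a : Tok n => ω ^ lab a) Y (modu n) (hz_lab ω hω)
      (hmin_lab ω hω) s (tset (E.erase p) F G) (te p) ha
      (by rw [card_tset]; omega) T (fun x => {tf x.1, tg x.2}) ?_ ?_ ?_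
      (fun _ => C ((2 * (modu n : R)) ^ s * ((kF * kG : ℕ) : R)) * ∏ p ∈ E.erase p, alf Y p) ?_
    · rw [hins] at key
      convert key using 1
      have h1 : ∀ x ∈ T, C (2 * (modu n : R)) * gser ((modu n : R) *
          (Y (te p) + ∑ d ∈ ({tf x.1, tg x.2} : Finset (Tok n)), Y d)) *
          (C ((2 * (modu n : R)) ^ s * ((kF * kG : ℕ) : R)) * ∏ p ∈ E.erase p, alf Y p)
          = C (2 * (modu n : R)) * alf Y p *
          (C ((2 * (modu n : R)) ^ s * ((kF * kG : ℕ) : R)) * ∏ p ∈ E.erase p, alf Y p) := by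
        intro x hx
        rw [hT, mem_product, mem_filter, mem_filter] at hx
        rw [sum_pair (by simp), hYf _ (hF _ hx.1.1), hYg, add_zero, add_zero]
        rfl
      rw [Finset.sum_congr rfl h1, sum_const, hT, card_product]
      change _ = (rowc F p.1 * rowc G p.2) • _
      rw [nsmul_eq_mul, ← mul_prod_erase E _ hp, hKF, hKG, ← map_natCast (C : R →+* PowerSeries R)]
      have : C ((2 * (modu n : R)) ^ (s + 1) * (((rowc F p.1 * kF) * (rowc G p.2 * kG) : ℕ) : R))
        = C ((rowc F p.1 * rowc G p.2 : ℕ) : R) * C (2 * (modu n : R)) *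
          C ((2 * (modu n : R)) ^ s * ((kF * kG : ℕ) : R)) := by
        rw [← map_mul, ← map_mul]
        congr 1
        push_cast
        ring
      rw [this]
      ring
    · rintro ⟨x1, x2⟩ hx ⟨y1, y2⟩ hy h
      simp only at h
      have h1 : tf x1 ∈ ({tf y1, tg y2} : Finset (Tok n)) := by rw [← h]; simp
      have h2 : tg x2 ∈ ({tf y1, tg y2} : Finset (Tok n)) := by rw [← h]; simp
      simp at h1 h2
      rw [h1, h2]
    · intro B hB h2 h3
      obtain ⟨b, c, hbc, rfl⟩ := card_eq_two.1 h2
      have h4 : modu n ∣ lab (te p) + (lab b + lab c) := by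
        rw [prod_pair hbc, ← pow_add, ← pow_add, hω.pow_eq_one_iff_dvd] at h3
        exact h3
      have hfin : ∀ q r, modu n ∣ lab (te p) + (lab (tf q) + lab (tg r)) →
          tf q ∈ tset (E.erase p) F G → tg r ∈ tset (E.erase p) F G → (q, r) ∈ T := by
        intro q r h hq hr'
        rw [← add_assoc, efg] at h
        simp only [tset, inr_mem_disjSum, inl_mem_disjSum] at hq hr'
        rw [hT, mem_product, mem_filter, mem_filter]
        exact ⟨⟨hq, h.1⟩, ⟨hr', h.2.1⟩⟩
      obtain ⟨q, r, (⟨rfl, rfl⟩ | ⟨rfl, rfl⟩)⟩ := three_e p b c h4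
      · exact ⟨(q, r), hfin q r h4 (hB (by simp)) (hB (by simp)), rfl⟩
      · rw [add_comm (lab (tg r))] at h4
        exact ⟨(q, r), hfin q r h4 (hB (by simp)) (hB (by simp)), pair_comm _ _⟩
    · rintro ⟨q, r⟩ hx
      rw [hT, mem_product, mem_filter, mem_filter] at hx
      refine ⟨?_, card_pair (by simp), ?_⟩
      · intro y hy
        simp only [mem_insert, mem_singleton] at hy
        rcases hy with rfl | rfl
        · simpa [tset] using hx.1.1
        · simpa [tset] using hx.2.1
      · rw [prod_pair (by simp), ← pow_add, ← pow_add, hω.pow_eq_one_iff_dvd, ← add_assoc, efg]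
        exact ⟨hx.1.2, hx.2.2, iff_of_false (hF _ hx.1.1) (hG _ hx.2.1)⟩
    · rintro ⟨q, r⟩ hx
      rw [hT, mem_product, mem_filter, mem_filter] at hx
      have hsd : tset (E.erase p) F G \ {tf q, tg r} = tset (E.erase p) (F.erase q) (G.erase r) := by
        ext x
        rcases x with x | x | x
        · simp [tset]
        · simp [tset, and_comm]
        · simp [tset, and_comm]
      have h := ih (E.erase p) (F.erase q) (G.erase r) hE'
        (fun x hx => hF x (mem_of_mem_erase hx)) (fun x hx => hG x (mem_of_mem_erase hx)) ?_ ?_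
      · rw [hkF q hx.1.1 hx.1.2, hkG r hx.2.1 hx.2.2] at h
        rw [hsd]
        exact h
      · intro i
        have h1 := hr i
        rw [rowc_erase E p hp, rowc_erase F q hx.1.1, hx.1.2] at h1
        exact Nat.add_right_cancel h1
      · intro j
        have h1 := hc j
        rw [colc_erase E p hp, rowc_erase G r hx.2.1, hx.2.2] at h1
        exact Nat.add_right_cancel h1

theorem stage1 (F G : Finset (Fin n × ℕ)) (hF : ∀ p ∈ F, p.2 ≠ 0) (hG : ∀ p ∈ G, p.2 ≠ 0)
    (l : List (Fin n)) : ∀ (E : Finset (Fin n × Fin n)) (J : Finset (Fin n)), l.Nodup →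
    J.card = l.length → (∀ i, rowc E i = rowc F i + if i ∈ l then 1 else 0) →
    (∀ j, colc E j = rowc G j + if j ∈ J then 1 else 0) → (∀ i ∈ l, ∀ j ∈ J, (i, j) ∈ E) →
    Fil E.card (fun t => inj (tok (fun a => ω ^ lab a) Y) (modu n * t)
        (tset E (F ∪ stars l.toFinset) (G ∪ stars J)))
      (C ((2 * (modu n : R)) ^ E.card * ((kfac F * kfac G : ℕ) : R)) * (∏ p ∈ E, alf Y p)
        * Hl (rat Y) l J) := by
  induction l with
  | nil =>
    intro E J _ hJ hr hc _
    have hJ' : J = ∅ := card_eq_zero.1 (by simpa using hJ)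
    subst hJ'
    have h := stage2 ω hω Y hYf hYg E.card E F G rfl hF hG (by simpa using hr) (by simpa using hc)
    have h1 : tset E (F ∪ stars ([] : List (Fin n)).toFinset) (G ∪ stars ∅) = tset E F G := by
      simp [stars]
    rw [h1, Hl, mul_one]
    exact h
  | cons i l ih =>
    intro E J hnd hJ hr hc hE
    have hil : i ∉ l := (List.nodup_cons.1 hnd).1
    have hnd' : l.Nodup := (List.nodup_cons.1 hnd).2
    have hlen : (i :: l).length = l.length + 1 := rfl
    have hcF : E.card = F.card + (l.length + 1) := by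
      rw [← sum_rowc, ← sum_rowc, Finset.sum_congr rfl (fun i _ => hr i), sum_add_distrib]
      congr 1
      rw [← hlen, ← List.toFinset_card_of_nodup hnd, ← Finset.card_filter]
      congr 1
      ext x; simp
    have hcG : E.card = G.card + J.card := by
      rw [← sum_colc E, ← sum_rowc G, Finset.sum_congr rfl (fun i _ => hc i), sum_add_distrib]
      congr 1
      rw [← Finset.card_filter]
      congr 1
      ext x; simp
    set F' := F ∪ stars l.toFinset with hF'
    set G' := G ∪ stars J with hG'
    have hcF' : F'.card = F.card + l.length := by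
      rw [hF', card_union_of_disjoint (disj_stars F hF _), card_stars,
        List.toFinset_card_of_nodup hnd']
    have hcG' : G'.card = G.card + J.card := by
      rw [hG', card_union_of_disjoint (disj_stars G hG _), card_stars]
    obtain ⟨κ, hκ⟩ : ∃ κ, E.card = κ + 1 := ⟨E.card - 1, by omega⟩
    have ha : tf (i, 0) ∉ tset E F' G' := by
      simp only [tset, inr_mem_disjSum, inl_mem_disjSum, hF', mem_union, mem_stars,
        List.mem_toFinset, not_or]
      exact ⟨fun h => hF _ h rfl, fun h => hil h.1⟩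
    have hins : insert (tf (i, 0)) (tset E F' G')
        = tset E (F ∪ stars (i :: l).toFinset) (G ∪ stars J) := by
      ext x
      rcases x with x | x | x
      · simp [tset]
      · simp only [tset, hF', mem_insert, inr_mem_disjSum, inl_mem_disjSum, mem_union, mem_stars,
          List.mem_toFinset, List.mem_cons, Sum.inr.injEq, Sum.inl.injEq, Prod.ext_iff]
        tauto
      · simp [tset, hG']
    have key := fil_insert' (fun a : Tok n => ω ^ lab a) Y (modu n) (hz_lab ω hω)
      (hmin_lab ω hω) κ (tset E F' G') (tf (i, 0)) ha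
      (by rw [card_tset]; omega) J (fun j => {te (i, j), tg (j, 0)}) ?_ ?_ ?_
      (fun j => C ((2 * (modu n : R)) ^ κ * ((kfac F * kfac G : ℕ) : R)) *
        (∏ p ∈ E.erase (i, j), alf Y p) * Hl (rat Y) l (J.erase j)) ?_
    · rw [hins] at key
      rw [hκ]
      convert key using 1
      rw [Hl, mul_sum]
      apply Finset.sum_congr rfl
      intro j hj
      have hij : (i, j) ∈ E := hE i (by simp) j hj
      rw [sum_pair (by simp), hYg, add_zero, ← mul_prod_erase E _ hij]
      have h1 : C ((2 * (modu n : R)) ^ (κ + 1) * ((kfac F * kfac G : ℕ) : R))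
        = C (2 * (modu n : R)) * C ((2 * (modu n : R)) ^ κ * ((kfac F * kfac G : ℕ) : R)) := by
        rw [← map_mul]
        congr 1
        ring
      have h2 : alf Y (i, j) * rat Y i j
          = gser ((modu n : R) * (Y (tf (i, 0)) + Y (te (i, j)))) := by
        unfold alf rat
        rw [mul_left_comm, gser_mul_ginv, mul_one]
      rw [← h2, h1]
      ring
    · intro x hx y hy h
      simp only at h
      have h1 : te (i, x) ∈ ({te (i, y), tg (y, 0)} : Finset (Tok n)) := by rw [← h]; simp
      simpa using h1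
    · intro B hB h2 h3
      obtain ⟨b, c, hbc, rfl⟩ := card_eq_two.1 h2
      have h4 : modu n ∣ lab (tf (i, 0)) + (lab b + lab c) := by
        rw [prod_pair hbc, ← pow_add, ← pow_add, hω.pow_eq_one_iff_dvd] at h3
        exact h3
      have hfin : ∀ p r, modu n ∣ lab (tf (i, 0)) + (lab (te p) + lab (tg r)) →
          tg r ∈ tset E F' G' → p = (i, p.2) ∧ r = (p.2, 0) ∧ p.2 ∈ J := by
        intro p r h hr'
        rw [← add_assoc, add_comm (lab (tf (i, 0))), efg] at h
        simp only [tset, inr_mem_disjSum, hG', mem_union, mem_stars] at hr'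
        obtain ⟨h5, h6, h7⟩ := h
        have h8 : r.2 = 0 := h7.1 rfl
        refine ⟨Prod.ext h5.symm rfl, Prod.ext h6 h8, ?_⟩
        rcases hr' with h9 | h9
        · exact absurd h8 (hG r h9)
        · rw [← h6]; exact h9.1
      obtain ⟨p, r, (⟨rfl, rfl⟩ | ⟨rfl, rfl⟩)⟩ := three_f (i, 0) b c h4
      · obtain ⟨h5, h6, h7⟩ := hfin p r h4 (hB (by simp))
        exact ⟨p.2, h7, by rw [← h5, ← h6]⟩
      · rw [add_comm (lab (tg r))] at h4
        obtain ⟨h5, h6, h7⟩ := hfin p r h4 (hB (by simp))
        exact ⟨p.2, h7, by rw [← h5, ← h6]; exact pair_comm _ _⟩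
    · intro j hj
      have hij : (i, j) ∈ E := hE i (by simp) j hj
      refine ⟨?_, card_pair (by simp), ?_⟩
      · intro y hy
        simp only [mem_insert, mem_singleton] at hy
        rcases hy with rfl | rfl
        · simpa [tset] using hij
        · simp only [tset, inr_mem_disjSum, hG', mem_union, mem_stars]
          exact Or.inr ⟨hj, trivial⟩
      · rw [prod_pair (by simp), ← pow_add, ← pow_add, hω.pow_eq_one_iff_dvd, ← add_assoc,
          add_comm (lab (tf (i, 0))), efg]
        exact ⟨rfl, rfl, Iff.rfl⟩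
    · intro j hj
      have hij : (i, j) ∈ E := hE i (by simp) j hj
      have hsd : tset E F' G' \ {te (i, j), tg (j, 0)}
          = tset (E.erase (i, j)) F' (G ∪ stars (J.erase j)) := by
        ext x
        rcases x with x | x | x
        · simp [tset, and_comm]
        · simp [tset]
        · simp only [tset, mem_sdiff, inr_mem_disjSum, hG', mem_union, mem_stars, mem_insert,
            mem_singleton, mem_erase, Sum.inr.injEq, reduceCtorEq, false_or, Prod.ext_iff]
          constructor
          · rintro ⟨h1 | h1, h2⟩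
            · exact Or.inl h1
            · exact Or.inr ⟨⟨fun h => h2 ⟨h, h1.2⟩, h1.1⟩, h1.2⟩
          · rintro (h1 | h1)
            · exact ⟨Or.inl h1, fun h => hG x h1 h.2⟩
            · exact ⟨Or.inr ⟨h1.1.2, h1.2⟩, fun h => h1.1.1 h.1⟩
      have hcE : (E.erase (i, j)).card = κ := by rw [card_erase_of_mem hij]; omega
      have h := ih (E.erase (i, j)) (J.erase j) hnd' (by rw [card_erase_of_mem hj]; omega)
        ?_ ?_ ?_
      · rw [hcE] at h
        rw [hsd]
        exact h
      · intro i'
        have h1 := hr i'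
        rw [rowc_erase E (i, j) hij] at h1
        by_cases h2 : i = i'
        · subst h2
          rw [if_pos rfl, if_pos (by simp)] at h1
          rw [if_neg hil]
          omega
        · rw [if_neg h2] at h1
          have h3 : (i' ∈ i :: l) ↔ i' ∈ l := by
            simp [Ne.symm h2]
          simp only [h3] at h1
          omega
      · intro j'
        have h1 := hc j'
        rw [colc_erase E (i, j) hij] at h1
        by_cases h2 : j = j'
        · subst h2
          rw [if_pos rfl, if_pos hj] at h1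
          rw [if_neg (notMem_erase _ _)]
          omega
        · rw [if_neg h2] at h1
          have h3 : (j' ∈ J.erase j) ↔ j' ∈ J := by
            simp [Ne.symm h2]
          simp only [h3]
          omega
      · intro i' hi' j' hj'
        rw [mem_erase] at hj' ⊢
        refine ⟨?_, hE i' (List.mem_cons_of_mem _ hi') j' hj'.2⟩
        rintro h
        rw [Prod.ext_iff] at h
        exact hj'.1 h.2

end Pool.Agent.TH837.VP
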