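import Pool.Agent.TH837.VP.Sets

/-!
# The identity over a domain which contains the roots of unity
-/

set_option autoImplicit false

namespace Pool.Agent.TH837.VP

open Finset PowerSeries

variable {R : Type*} [CommRing R] [Algebra ℚ R]

/-- extraction of a coefficient of a power series which is a polynomial -/
theorem eps_extract (R : Type*) [CommRing R] [Algebra ℚ R] (D r : ℕ) (hr : r ≤ D) : ∃ w : ℕ → ℚ,
    ∀ {ι : Type} [DecidableEq ι] (z Y : ι → R) (n : ℕ) (A : Finset ι), A.card * n ≤ D →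
      coeff r (inj (tok z Y) n A) = ∑ v ∈ range (D + 1),
        algebraMap ℚ R (w v) * inj (fun a => z a * (1 + (v : R) * Y a)) n A := by
  obtain ⟨w, hw⟩ := exists_weights_poly ℚ R D fun k => if k = r then 1 else 0
  refine ⟨w, fun {ι} _ z Y n A hA => ?_⟩
  set x : ι → Polynomial R := fun a =>
    Polynomial.C (z a) * (1 + Polynomial.X * Polynomial.C (Y a)) with hx
  have hdeg : ∀ a, (x a).natDegree ≤ 1 := by
    intro a
    refine (Polynomial.natDegree_C_mul_le _ _).trans ?_
    refine (Polynomial.natDegree_add_le _ _).trans (max_le (by simp) ?_)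
    rw [mul_comm]
    exact (Polynomial.natDegree_C_mul_le _ _).trans Polynomial.natDegree_X_le
  have hd : (inj x n A).natDegree ≤ D := by
    have := natDegree_inj x 1 hdeg n A
    rw [mul_one] at this
    exact this.trans hA
  have h1 := hw (inj x n A) hd
  have h2 : ∑ k ∈ range (D + 1), algebraMap ℚ R (if k = r then 1 else 0) * (inj x n A).coeff k
      = (inj x n A).coeff r := by
    rw [Finset.sum_eq_single r]
    · simp
    · intro k _ hk
      simp [hk]
    · intro h
      rw [Finset.mem_range] at h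
      omega
  rw [h2] at h1
  have h3 : coeff r (inj (tok z Y) n A) = (inj x n A).coeff r := by
    rw [← Polynomial.coeff_coe]
    congr 1
    have := map_inj (Polynomial.coeToPowerSeries.ringHom (R := R)) x n A
    rw [Polynomial.coeToPowerSeries.ringHom_apply] at this
    rw [this]
    apply inj_congr
    intro a _
    rw [hx]
    simp [tok]
    ring
  rw [h3, ← h1]
  apply Finset.sum_congr rfl
  intro v _
  congr 1
  have := map_inj (Polynomial.evalRingHom (v : R)) x n A
  rw [Polynomial.coe_evalRingHom] at this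
  rw [this]
  apply inj_congr
  intro a _
  rw [hx]
  simp
  ring

/-- extraction of the leading coefficient in `t` -/
theorem top_extract (R : Type*) [CommRing R] [Algebra ℚ R] (d r κ : ℕ) (hr : r + κ ≤ d) :
    ∃ w : ℕ → ℚ, ∀ (f : ℕ → PowerSeries R) (g : PowerSeries R), Fil κ f g →
      coeff r g = ∑ t ∈ range (d + 1), algebraMap ℚ R (w t) * coeff r (f t) := by
  obtain ⟨w, hw⟩ := exists_weights_poly ℚ R d fun k => if k = r + κ then 1 else 0
  refine ⟨w, fun f g h => ?_⟩
  obtain ⟨q, h1, h2, h3⟩ := h r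
  have h4 := hw q (by omega)
  have h5 : ∑ k ∈ range (d + 1), algebraMap ℚ R (if k = r + κ then 1 else 0) * q.coeff k
      = q.coeff (r + κ) := by
    rw [Finset.sum_eq_single (r + κ)]
    · simp
    · intro k _ hk
      simp [hk]
    · intro h
      rw [Finset.mem_range] at h
      omega
  rw [← h2, ← h5, ← h4]
  apply Finset.sum_congr rfl
  intro t _
  rw [h3]

omit [Algebra ℚ R] in
theorem permanent_X_pow_mul (k m : ℕ) (r : Fin m → Fin m → PowerSeries R) :
    (Matrix.of fun a b : Fin m => X ^ k * r a b).permanent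
      = X ^ (k * m) * (Matrix.of r).permanent := by
  simp only [Matrix.permanent, Matrix.of_apply, prod_mul_distrib, prod_const, card_univ,
    Fintype.card_fin, ← pow_mul, mul_sum]

omit [Algebra ℚ R] in
theorem constCoeff_permanent (m : ℕ) (r : Fin m → Fin m → PowerSeries R) :
    constantCoeff (Matrix.of r).permanent
      = (Matrix.of fun a b : Fin m => constantCoeff (r a b)).permanent := by
  simp only [Matrix.permanent, Matrix.of_apply, map_sum, map_prod]

/-- The combination of the symbols is the permanent. -/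
theorem symbols (m : ℕ) : ∃ c : ℕ → ℚ, ∀ y : Fin m → Fin m → R,
    algebraMap ℚ R ((((modu (2 * m) : ℚ)) ^ 2 * (1 / 12)) ^ m) * (Matrix.of y).permanent
      = ∑ L ∈ range (m + 1), algebraMap ℚ R (c L) * coeff (2 * m)
        ((∏ p, alf (yx y) p) * Hl (rat (yx y)) (rl m) (Ia m L)) := by
  obtain ⟨c, hc⟩ := exists_weights_poly ℚ (PowerSeries R) m fun k => (-1) ^ k
  refine ⟨c, fun y => ?_⟩
  set M : R := (modu (2 * m) : R) with hM
  set ρ : Fin (2 * m) → Fin (2 * m) → PowerSeries R := fun i j =>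
    ginv (M * 1) * rat (yx y) i j - 1 with hρ
  have hrat : rat (yx y) = fun i j => gser (M * 1) * (1 + ρ i j) := by
    funext i j
    rw [hρ]
    simp only
    rw [add_sub_cancel, ← mul_assoc, gser_mul_ginv, one_mul]
  obtain ⟨P, hP1, hP2, hP3⟩ := Hl_poly ρ (rl m) (Tr m)
  have hB : ∀ L ∈ range (m + 1), Hl (rat (yx y)) (rl m) (Ia m L)
      = gser (M * 1) ^ m * P.eval (L : PowerSeries R) := by
    intro L hL
    rw [Finset.mem_range] at hL
    rw [hrat, Hl_smul, length_rl, Ia_eq, hP2 (Bd m L) (disj_Tr_Bd m L), card_Bd m L (by omega)]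
    intro i hi j hj
    rw [mem_rl] at hi
    rw [mem_Bd] at hj
    rw [hρ]
    simp only
    rw [rat, yx, yx]
    simp only
    rw [if_pos ⟨hi, trivial⟩, dif_neg (by omega), add_zero, mul_zero, ginv_zero,
      mul_one (gser _), mul_comm, gser_mul_ginv, sub_self]
  have h1 := hc P (by rw [length_rl] at hP1; exact hP1)
  have h2 : ∑ k ∈ range (m + 1), algebraMap ℚ (PowerSeries R) ((-1) ^ k) * P.coeff k
      = Hl ρ (rl m) (Tr m) := by
    rw [← hP3, Polynomial.eval_eq_sum_range' (n := m + 1) (by rw [length_rl] at hP1; omega)]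
    apply Finset.sum_congr rfl
    intro k _
    rw [length_rl, card_Tr, sub_self, zero_sub, map_pow, map_neg, map_one, mul_comm]
  have h3 : Hl ρ (rl m) (Tr m)
      = (Matrix.of fun a b : Fin m => ρ (Fin.castLE (by omega) b)
        (Fin.castLE (by omega) a)).permanent := by
    unfold rl Tr
    rw [Hl_perm]
    rfl
  have h4 : ∀ a b : Fin m, ∃ r : PowerSeries R, ρ (Fin.castLE (by omega) b)
        (Fin.castLE (by omega) a) = X ^ 2 * r ∧
      constantCoeff r = M ^ 2 * algebraMap ℚ R (1 / 12) * y b a := by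
    intro a b
    obtain ⟨r, hr1, hr2⟩ := rho_expand (M * 1) (M * y b a)
    refine ⟨r, ?_, ?_⟩
    · rw [← hr1, hρ]
      simp only
      rw [rat, yx, yx]
      simp only [Fin.val_castLE, Fin.is_lt, and_self, if_true, dif_pos, Fin.eta]
      rw [← mul_add]
    · rw [hr2]; ring
  choose r hr1 hr2 using h4
  have h5 : Hl ρ (rl m) (Tr m) = X ^ (2 * m) * (Matrix.of r).permanent := by
    rw [h3, ← permanent_X_pow_mul]
    congr 1
    ext1 a b
    exact hr1 a b
  have h6 : coeff (2 * m) ((∏ p, alf (yx y) p) * (gser (M * 1) ^ m * Hl ρ (rl m) (Tr m)))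
      = (Matrix.of fun a b : Fin m => M ^ 2 * algebraMap ℚ R (1 / 12) * y b a).permanent := by
    rw [h5]
    have : (∏ p, alf (yx y) p) * (gser (M * 1) ^ m * (X ^ (2 * m) * (Matrix.of r).permanent))
      = X ^ (2 * m) * ((∏ p, alf (yx y) p) * (gser (M * 1) ^ m * (Matrix.of r).permanent)) := by
      ring
    rw [this, coeff_X_pow_mul', if_pos le_rfl, Nat.sub_self, coeff_zero_eq_constantCoeff_apply,
      map_mul, map_mul, map_pow, map_prod, constCoeff_gser, constCoeff_permanent]
    have h7 : ∏ p, constantCoeff (alf (yx y) p) = 1 :=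
      Finset.prod_eq_one fun p _ => constCoeff_gser _
    rw [h7, one_pow, one_mul, one_mul]
    congr 1
    ext a b
    simp only [Matrix.of_apply, hr2]
  have h8 : (Matrix.of fun a b : Fin m => M ^ 2 * algebraMap ℚ R (1 / 12) * y b a).permanent
      = algebraMap ℚ R ((((modu (2 * m) : ℚ)) ^ 2 * (1 / 12)) ^ m) * (Matrix.of y).permanent := by
    rw [← Matrix.permanent_transpose (Matrix.of y)]
    have : (Matrix.of fun a b : Fin m => M ^ 2 * algebraMap ℚ R (1 / 12) * y b a)
        = (M ^ 2 * algebraMap ℚ R (1 / 12)) • (Matrix.of y).transpose := by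
      ext a b
      simp [Matrix.transpose_apply]
    rw [this, Matrix.permanent_smul, Fintype.card_fin, map_pow, map_mul, map_pow, map_natCast]
  rw [← h8, ← h6, ← h2, ← h1]
  simp only [mul_sum, map_sum]
  apply Finset.sum_congr rfl
  intro L hL
  rw [hB L hL]
  have : (∏ p, alf (yx y) p) * (gser (M * 1) ^ m * (algebraMap ℚ (PowerSeries R) (c L) *
      P.eval (L : PowerSeries R)))
      = C (algebraMap ℚ R (c L)) * ((∏ p, alf (yx y) p) * (gser (M * 1) ^ m *
        P.eval (L : PowerSeries R))) := by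
    have : algebraMap ℚ (PowerSeries R) (c L) = C (algebraMap ℚ R (c L)) :=
      PowerSeries.algebraMap_apply
    rw [this]
    ring
  rw [this, coeff_C_mul]

/-- bound for `t` -/
def dt (m : ℕ) : ℕ := 2 * m + (2 * m) ^ 2

/-- bound for the degree in `ε` -/
def de (m : ℕ) : ℕ := 3 * (2 * m) ^ 2 * (modu (2 * m) * dt m)

theorem card_Aa_le (m L : ℕ) (h : L ≤ m) : (Aa m L).card ≤ 3 * (2 * m) ^ 2 := by
  rw [card_Aa m L h]
  exact Nat.mul_le_mul_left _ (Nat.pow_le_pow_left (by omega) 2)

theorem two_mul_le_de (m : ℕ) : 2 * m ≤ de m := by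
  rcases Nat.eq_zero_or_pos m with rfl | hm
  · simp
  · unfold de dt
    have h1 : 1 ≤ 3 * (2 * m) ^ 2 := by nlinarith
    have h2 : 1 ≤ modu (2 * m) := by unfold modu wid; omega
    calc 2 * m ≤ 2 * m + (2 * m) ^ 2 := Nat.le_add_right _ _
      _ = 1 * (1 * (2 * m + (2 * m) ^ 2)) := by ring
      _ ≤ _ := Nat.mul_le_mul h1 (Nat.mul_le_mul_right _ h2)

theorem ident [IsDomain R] (m : ℕ) (ω : R) (hω : IsPrimitiveRoot ω (modu (2 * m)))
    (y : Fin m → Fin m → R) : ∃ q : ℕ → ℕ → ℕ → ℚ,
    (Matrix.of y).permanent = ∑ L ∈ range (m + 1), ∑ t ∈ range (dt m + 1),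
      ∑ v ∈ range (de m + 1), algebraMap ℚ R (q L t v) *
        inj (fun a => ω ^ lab a * (1 + (v : R) * yx y a)) (modu (2 * m) * t) (Aa m L) := by
  obtain ⟨c, hc⟩ := symbols (R := R) m
  have h1 : ∀ L : ℕ, ∃ w : ℕ → ℚ, L ≤ m → ∀ (f : ℕ → PowerSeries R) (g : PowerSeries R),
      Fil ((m + L) ^ 2) f g → coeff (2 * m) g = ∑ t ∈ range (dt m + 1),
        algebraMap ℚ R (w t) * coeff (2 * m) (f t) := by
    intro L
    by_cases hL : L ≤ m
    · obtain ⟨w, hw⟩ := top_extract R (dt m) (2 * m) ((m + L) ^ 2) (by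
        unfold dt
        have : (m + L) ^ 2 ≤ (2 * m) ^ 2 := Nat.pow_le_pow_left (by omega) 2
        omega)
      exact ⟨w, fun _ => hw⟩
    · exact ⟨fun _ => 0, fun h => absurd h hL⟩
  choose w hw using h1
  obtain ⟨u, hu⟩ := eps_extract R (de m) (2 * m) (two_mul_le_de m)
  set κ : ℕ → ℕ := fun L =>
    (2 * modu (2 * m)) ^ ((m + L) ^ 2) * (kfac (Fa m L) * kfac (Fa m L)) * L.factorial with hκ
  set k0 : ℚ := (((modu (2 * m) : ℚ)) ^ 2 * (1 / 12)) ^ m with hk0
  have hM : (modu (2 * m) : ℚ) ≠ 0 := by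
    have : modu (2 * m) ≠ 0 := by unfold modu wid; omega
    exact_mod_cast this
  have hk0' : k0 ≠ 0 := by
    rw [hk0]
    exact pow_ne_zero _ (mul_ne_zero (pow_ne_zero _ hM) (by norm_num))
  have hκ' : ∀ L, (κ L : ℚ) ≠ 0 := by
    intro L
    have : 0 < κ L := by
      have h2 : 0 < modu (2 * m) := by unfold modu wid; omega
      rw [hκ]
      have := kfac_pos (Fa m L)
      have := L.factorial_pos
      positivity
    exact_mod_cast this.ne'
  refine ⟨fun L t v => k0⁻¹ * c L * (κ L : ℚ)⁻¹ * w L t * u v, ?_⟩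
  have h2 := hc y
  have h3 : ∀ L ∈ range (m + 1), coeff (2 * m)
        ((∏ p, alf (yx y) p) * Hl (rat (yx y)) (rl m) (Ia m L))
      = algebraMap ℚ R (κ L : ℚ)⁻¹ * ∑ t ∈ range (dt m + 1), algebraMap ℚ R (w L t) *
        ∑ v ∈ range (de m + 1), algebraMap ℚ R (u v) *
          inj (fun a => ω ^ lab a * (1 + (v : R) * yx y a)) (modu (2 * m) * t) (Aa m L) := by
    intro L hL
    rw [Finset.mem_range] at hL
    have h4 := hw L (by omega) _ _ (symbol m L (by omega) ω hω y)
    rw [mul_assoc, coeff_C_mul] at h4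
    have h5 : algebraMap ℚ R (κ L : ℚ)⁻¹ * ((κ L : ℕ) : R) = 1 := by
      rw [← map_natCast (algebraMap ℚ R), ← map_mul, inv_mul_cancel₀ (hκ' L), map_one]
    have h6 := congrArg (fun x => algebraMap ℚ R (κ L : ℚ)⁻¹ * x) h4
    rw [← mul_assoc, h5, one_mul] at h6
    rw [h6]
    congr 1
    apply Finset.sum_congr rfl
    intro t ht
    rw [Finset.mem_range] at ht
    congr 1
    apply hu
    unfold de
    exact Nat.mul_le_mul (card_Aa_le m L (by omega)) (Nat.mul_le_mul_left _ (by omega))
  rw [Finset.sum_congr rfl fun L hL => by rw [h3 L hL]] at h2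
  have h7 := congrArg (fun x => algebraMap ℚ R k0⁻¹ * x) h2
  rw [← mul_assoc, ← map_mul, inv_mul_cancel₀ hk0', map_one, one_mul] at h7
  rw [h7]
  simp only [mul_sum, map_mul]
  apply Finset.sum_congr rfl
  intro L _
  apply Finset.sum_congr rfl
  intro t _
  apply Finset.sum_congr rfl
  intro v _
  ring

end Pool.Agent.TH837.VP
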