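import Pool.Agent.TH837.VP.Desc

/-!
# The permanent as a combination of permanents of Vandermonde matrices
-/

set_option autoImplicit false

namespace Pool.Agent.TH837.VP

open Finset MvPolynomial

variable {F : Type} [Field F] [CharZero F]

omit [CharZero F] in
theorem inj_equiv {R ι : Type*} [CommRing R] [DecidableEq ι] (x : ι → R) (n k : ℕ) (A : Finset ι)
    (e : Fin k ≃ A) : inj (fun i => x (e i)) n univ = inj x n A := by
  have h := inj_map (e.toEmbedding.trans (Function.Embedding.subtype _)) x n univ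
  have h2 : (univ : Finset (Fin k)).map (e.toEmbedding.trans (Function.Embedding.subtype _)) = A := by
    ext a
    simp only [mem_map, mem_univ, true_and, Function.Embedding.trans_apply,
      Equiv.coe_toEmbedding, Function.Embedding.coe_subtype]
    constructor
    · rintro ⟨i, rfl⟩
      exact (e i).2
    · intro ha
      exact ⟨e.symm ⟨a, ha⟩, by simp⟩
  rw [h2] at h
  rw [h]
  rfl

theorem term {σ ι : Type} [DecidableEq ι] (x : ι → MvPolynomial σ F) (n : ℕ) (A : Finset ι) (q : F) :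
    ∃ (q' : F) (n' : ℕ) (ℓ : Fin n' → MvPolynomial σ F), n' ≤ n ∧
      (∀ i, ℓ i = 1 ∨ ∃ a, ℓ i = x a) ∧ C q * inj x n A = C q' * vper n' ℓ := by
  by_cases h : A.card ≤ n
  · obtain ⟨r, hr⟩ := Nat.exists_eq_add_of_le h
    set k := A.card with hk
    subst hr
    set e : Fin k ≃ A := A.equivFin.symm
    refine ⟨q * ((r.factorial : ℕ) : F)⁻¹, k + r, Fin.append (fun i => x (e i)) fun _ => 1,
      le_rfl, ?_, ?_⟩
    · intro i
      refine Fin.addCases (fun j => ?_) (fun j => ?_) i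
      · rw [Fin.append_left]
        exact Or.inr ⟨_, rfl⟩
      · rw [Fin.append_right]
        exact Or.inl rfl
    · rw [vper_append, inj_equiv x (k + r) k A e, ← mul_assoc, ← map_natCast (C : F →+* _),
        ← map_mul, mul_assoc, inv_mul_cancel₀ (by exact_mod_cast r.factorial_ne_zero), mul_one]
  · refine ⟨0, 0, Fin.elim0, Nat.zero_le _, fun i => i.elim0, ?_⟩
    rw [inj_of_lt x n A (by omega)]
    simp

/-- An affine form in at most one variable. -/
def IsAff {σ F : Type} [Field F] (p : MvPolynomial σ F) : Prop :=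
  (∃ a : F, p = C a) ∨ ∃ (a b : F) (v : σ), p = C a + C b * X v

omit [CharZero F] in
theorem isAff_tok (m : ℕ) (u v : ℕ) (a : Tok (2 * m)) :
    IsAff ((u : MvPolynomial (Fin m × Fin m) F) ^ lab a *
          (1 + (v : MvPolynomial (Fin m × Fin m) F) * yx (fun i j => X (i, j)) a)) := by
  have hc : ∀ b : F, IsAff ((u : MvPolynomial (Fin m × Fin m) F) ^ lab a *
      (1 + (v : MvPolynomial (Fin m × Fin m) F) * C b)) := by
    intro b
    refine Or.inl ⟨(u : F) ^ lab a * (1 + (v : F) * b), ?_⟩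
    simp
  rcases a with p | p | p
  · by_cases h : p.1.val < m ∧ p.2.val < m
    · refine Or.inr ⟨(u : F) ^ lab (Sum.inl p), (u : F) ^ lab (Sum.inl p) * (v : F),
        (⟨p.1.val, h.1⟩, ⟨p.2.val, h.2⟩), ?_⟩
      simp only [yx, dif_pos h, map_mul, map_pow, map_natCast]
      ring
    · have := hc 0
      simpa [yx, h] using this
  · by_cases h : p.1.val < m ∧ p.2 = 0
    · have := hc 1
      simpa [yx, h] using this
    · have := hc 0
      simpa [yx, h] using this
  · have := hc 0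
    simpa [yx] using this

theorem modu_le (m : ℕ) : modu (2 * m) ≤ 175 * (m + 1) ^ 2 := by
  unfold modu wid
  nlinarith

theorem dt_le (m : ℕ) : dt m ≤ 4 * (m + 1) ^ 2 := by
  unfold dt
  nlinarith

theorem modu_mul_dt_le (m : ℕ) : modu (2 * m) * dt m ≤ 700 * (m + 1) ^ 4 := by
  calc modu (2 * m) * dt m ≤ (175 * (m + 1) ^ 2) * (4 * (m + 1) ^ 2) :=
        Nat.mul_le_mul (modu_le m) (dt_le m)
    _ = 700 * (m + 1) ^ 4 := by ring

theorem de_le (m : ℕ) : de m + 1 ≤ 8401 * (m + 1) ^ 6 := by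
  have h1 : 3 * (2 * m) ^ 2 ≤ 12 * (m + 1) ^ 2 := by
    rw [show 3 * (2 * m) ^ 2 = 12 * m ^ 2 by ring]
    exact Nat.mul_le_mul_left _ (Nat.pow_le_pow_left (by omega) 2)
  have h2 : 1 ≤ (m + 1) ^ 6 := Nat.one_le_pow _ _ (by omega)
  unfold de
  calc 3 * (2 * m) ^ 2 * (modu (2 * m) * dt m) + 1
      ≤ (12 * (m + 1) ^ 2) * (700 * (m + 1) ^ 4) + (m + 1) ^ 6 :=
        Nat.add_le_add (Nat.mul_le_mul h1 (modu_mul_dt_le m)) h2
    _ = 8401 * (m + 1) ^ 6 := by ring

theorem dz_le (m : ℕ) : dz m + 1 ≤ 1470001 * (m + 1) ^ 8 := by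
  have h1 : 3 * (2 * m) ^ 2 ≤ 12 * (m + 1) ^ 2 := by
    rw [show 3 * (2 * m) ^ 2 = 12 * m ^ 2 by ring]
    exact Nat.mul_le_mul_left _ (Nat.pow_le_pow_left (by omega) 2)
  have h2 : 1 ≤ (m + 1) ^ 8 := Nat.one_le_pow _ _ (by omega)
  unfold dz
  calc 3 * (2 * m) ^ 2 * (modu (2 * m) * dt m * modu (2 * m)) + 1
      ≤ (12 * (m + 1) ^ 2) * ((700 * (m + 1) ^ 4) * (175 * (m + 1) ^ 2)) + (m + 1) ^ 8 :=
        Nat.add_le_add (Nat.mul_le_mul h1 (Nat.mul_le_mul (modu_mul_dt_le m) (modu_le m))) h2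
    _ = 1470001 * (m + 1) ^ 8 := by ring

/-- Over every field of characteristic zero, the permanent of the generic `m × m` matrix is a
linear combination of polynomially many permanents of Vandermonde matrices of polynomial order with
entries affine forms in one variable. -/
theorem rep (F : Type) [Field F] [CharZero F] (m : ℕ) :
    ∃ (s : ℕ) (q : Fin s → F) (n : Fin s → ℕ)
      (ℓ : (j : Fin s) → Fin (n j) → MvPolynomial (Fin m × Fin m) F),
      s ≤ 10 ^ 11 * (m + 1) ^ 17 ∧ (∀ j, n j ≤ 700 * (m + 1) ^ 4) ∧ (∀ j i, IsAff (ℓ j i)) ∧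
      (Matrix.of fun i j : Fin m => (X (i, j) : MvPolynomial (Fin m × Fin m) F)).permanent
        = ∑ j, C (q j) * (Matrix.vandermonde (ℓ j)).permanent := by
  obtain ⟨q, hq⟩ := descent F m
  set ι := Fin (dz m + 1) × Fin (m + 1) × Fin (dt m + 1) × Fin (de m + 1)
  have h1 : ∀ p : ι, ∃ (q' : F) (n' : ℕ) (ℓ : Fin n' → MvPolynomial (Fin m × Fin m) F),
      n' ≤ 700 * (m + 1) ^ 4 ∧ (∀ i, IsAff (ℓ i)) ∧
      C (q p.1 p.2.1 p.2.2.1 p.2.2.2) * inj (fun a =>
        ((p.1 : ℕ) : MvPolynomial (Fin m × Fin m) F) ^ lab a *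
          (1 + ((p.2.2.2 : ℕ) : MvPolynomial (Fin m × Fin m) F) * yx (fun i j => X (i, j)) a))
          (modu (2 * m) * p.2.2.1) (Aa m p.2.1) = C q' * vper n' ℓ := by
    intro p
    obtain ⟨q', n', ℓ, h2, h3, h4⟩ := term (fun a =>
        ((p.1 : ℕ) : MvPolynomial (Fin m × Fin m) F) ^ lab a *
          (1 + ((p.2.2.2 : ℕ) : MvPolynomial (Fin m × Fin m) F) * yx (fun i j => X (i, j)) a))
          (modu (2 * m) * p.2.2.1) (Aa m p.2.1) (q p.1 p.2.1 p.2.2.1 p.2.2.2)
    refine ⟨q', n', ℓ, h2.trans ((Nat.mul_le_mul_left _ (by omega)).trans (modu_mul_dt_le m)),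
      fun i => ?_, h4⟩
    rcases h3 i with h | ⟨a, h⟩
    · exact Or.inl ⟨1, by rw [h, map_one]⟩
    · rw [h]
      exact isAff_tok m _ _ a
  choose q' n' ℓ h2 h3 h4 using h1
  set e := Fintype.equivFin ι
  refine ⟨Fintype.card ι, fun j => q' (e.symm j), fun j => n' (e.symm j), fun j => ℓ (e.symm j),
    ?_, fun j => h2 _, fun j i => h3 _ i, ?_⟩
  · have : Fintype.card ι = (dz m + 1) * ((m + 1) * ((dt m + 1) * (de m + 1))) := by
      simp [ι]
    rw [this]
    have h5 : dt m + 1 ≤ 5 * (m + 1) ^ 2 := by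
      have := dt_le m
      nlinarith
    calc (dz m + 1) * ((m + 1) * ((dt m + 1) * (de m + 1)))
        ≤ (1470001 * (m + 1) ^ 8) * ((m + 1) * ((5 * (m + 1) ^ 2) * (8401 * (m + 1) ^ 6))) :=
          Nat.mul_le_mul (dz_le m) (Nat.mul_le_mul_left _ (Nat.mul_le_mul h5 (de_le m)))
      _ = 61747392005 * (m + 1) ^ 17 := by ring
      _ ≤ 10 ^ 11 * (m + 1) ^ 17 := Nat.mul_le_mul_right _ (by norm_num)
  · have h5 : ∑ j, C (q' (e.symm j)) * (Matrix.vandermonde (ℓ (e.symm j))).permanent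
        = ∑ p : ι, C (q' p) * vper (n' p) (ℓ p) :=
      Equiv.sum_comp e.symm (fun p : ι => C (q' p) * vper (n' p) (ℓ p))
    rw [h5, ← Finset.sum_congr rfl (fun p _ => h4 p), hq]
    rw [Fintype.sum_prod_type, Finset.sum_range]
    apply Finset.sum_congr rfl
    intro u _
    rw [Fintype.sum_prod_type, Finset.sum_range]
    apply Finset.sum_congr rfl
    intro L _
    rw [Fintype.sum_prod_type, Finset.sum_range]
    apply Finset.sum_congr rfl
    intro t _
    rw [Finset.sum_range]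

end Pool.Agent.TH837.VP
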