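import Pool.Agent.TH837.VP.Sym

/-!
# The token sets
-/

set_option autoImplicit false

namespace Pool.Agent.TH837.VP

open Finset PowerSeries

/-- rows with variables, as a list -/
def rl (m : ℕ) : List (Fin (2 * m)) := List.ofFn fun b : Fin m => Fin.castLE (by omega) b

/-- rows with variables -/
def Tr (m : ℕ) : Finset (Fin (2 * m)) := univ.map (Fin.castLEEmb (by omega : m ≤ 2 * m))

/-- additional rows -/
def Bd (m L : ℕ) : Finset (Fin (2 * m)) :=
  univ.filter fun j : Fin (2 * m) => m ≤ j.val ∧ j.val < m + L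

/-- all rows -/
def Ia (m L : ℕ) : Finset (Fin (2 * m)) := univ.filter fun j : Fin (2 * m) => j.val < m + L

/-- all pairs -/
def Ea (m L : ℕ) : Finset (Fin (2 * m) × Fin (2 * m)) := Ia m L ×ˢ Ia m L

/-- tokens without star -/
def Fa (m L : ℕ) : Finset (Fin (2 * m) × ℕ) := Ia m L ×ˢ Ico 1 (m + L)

/-- the set of all tokens -/
def Aa (m L : ℕ) : Finset (Tok (2 * m)) :=
  tset (Ea m L) (Fa m L ∪ stars (Ia m L)) (Fa m L ∪ stars (Ia m L))

theorem mem_rl (m : ℕ) (i : Fin (2 * m)) : i ∈ rl m ↔ i.val < m := by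
  unfold rl
  rw [List.mem_ofFn]
  constructor
  · rintro ⟨b, rfl⟩
    simp
  · intro h
    exact ⟨⟨i.val, h⟩, rfl⟩

theorem mem_Tr (m : ℕ) (i : Fin (2 * m)) : i ∈ Tr m ↔ i.val < m := by
  unfold Tr
  simp only [mem_map, mem_univ, true_and, Fin.castLEEmb_apply]
  constructor
  · rintro ⟨b, rfl⟩
    simp
  · intro h
    exact ⟨⟨i.val, h⟩, rfl⟩

theorem mem_Bd (m L : ℕ) (j : Fin (2 * m)) : j ∈ Bd m L ↔ m ≤ j.val ∧ j.val < m + L := by
  simp [Bd]

theorem mem_Ia (m L : ℕ) (j : Fin (2 * m)) : j ∈ Ia m L ↔ j.val < m + L := by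
  simp [Ia]

theorem Ia_eq (m L : ℕ) : Ia m L = Tr m ∪ Bd m L := by
  ext j
  rw [mem_Ia, mem_union, mem_Tr, mem_Bd]
  omega

theorem disj_Tr_Bd (m L : ℕ) : Disjoint (Tr m) (Bd m L) := by
  rw [disjoint_left]
  intro j h1 h2
  rw [mem_Tr] at h1
  rw [mem_Bd] at h2
  omega

theorem card_Tr (m : ℕ) : (Tr m).card = m := by
  unfold Tr
  rw [card_map, card_univ, Fintype.card_fin]

theorem card_Bd (m L : ℕ) (h : L ≤ m) : (Bd m L).card = L := by
  have : (Bd m L).map Fin.valEmbedding = Ico m (m + L) := by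
    ext j
    rw [mem_map, mem_Ico]
    constructor
    · rintro ⟨a, ha, rfl⟩
      rw [mem_Bd] at ha
      exact ha
    · intro hj
      exact ⟨⟨j, by omega⟩, (mem_Bd _ _ _).2 hj, rfl⟩
  rw [← card_map Fin.valEmbedding, this, Nat.card_Ico]
  omega

theorem card_Ia (m L : ℕ) (h : L ≤ m) : (Ia m L).card = m + L := by
  rw [Ia_eq, card_union_of_disjoint (disj_Tr_Bd m L), card_Tr, card_Bd m L h]

theorem card_Ea (m L : ℕ) (h : L ≤ m) : (Ea m L).card = (m + L) ^ 2 := by
  rw [Ea, card_product, card_Ia m L h, sq]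

theorem rowc_prod {n : ℕ} {β : Type*} (I : Finset (Fin n)) (K : Finset β) (i : Fin n) :
    rowc (I ×ˢ K) i = if i ∈ I then K.card else 0 := by
  unfold rowc
  split_ifs with h
  · have : (I ×ˢ K).filter (fun p => p.1 = i) = {i} ×ˢ K := by
      ext p
      simp only [mem_filter, mem_product, mem_singleton]
      constructor
      · rintro ⟨⟨h1, h2⟩, h3⟩; exact ⟨h3, h2⟩
      · rintro ⟨h1, h2⟩; exact ⟨⟨h1 ▸ h, h2⟩, h1⟩
    rw [this, card_product, card_singleton, one_mul]
  · rw [card_eq_zero, filter_eq_empty_iff]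
    rintro p hp rfl
    exact h (mem_product.1 hp).1

theorem colc_prod {n : ℕ} (I K : Finset (Fin n)) (j : Fin n) :
    colc (I ×ˢ K) j = if j ∈ K then I.card else 0 := by
  unfold colc
  split_ifs with h
  · have : (I ×ˢ K).filter (fun p => p.2 = j) = I ×ˢ {j} := by
      ext p
      simp only [mem_filter, mem_product, mem_singleton]
      constructor
      · rintro ⟨⟨h1, h2⟩, h3⟩; exact ⟨h1, h3⟩
      · rintro ⟨h1, h2⟩; exact ⟨⟨h1, h2 ▸ h⟩, h2⟩
    rw [this, card_product, card_singleton, mul_one]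
  · rw [card_eq_zero, filter_eq_empty_iff]
    rintro p hp rfl
    exact h (mem_product.1 hp).2

/-- the list of all rows -/
noncomputable def la (m L : ℕ) : List (Fin (2 * m)) := rl m ++ (Bd m L).toList

theorem mem_la (m L : ℕ) (i : Fin (2 * m)) : i ∈ la m L ↔ i ∈ Ia m L := by
  unfold la
  rw [List.mem_append, mem_rl, Finset.mem_toList, mem_Bd, mem_Ia]
  omega

theorem nodup_la (m L : ℕ) : (la m L).Nodup := by
  unfold la
  rw [List.nodup_append']
  refine ⟨?_, nodup_toList _, ?_⟩
  · unfold rl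
    rw [List.nodup_ofFn]
    exact Fin.castLE_injective _
  · intro a h1 h2
    rw [mem_rl] at h1
    rw [Finset.mem_toList, mem_Bd] at h2
    omega

theorem length_rl (m : ℕ) : (rl m).length = m := by
  unfold rl; rw [List.length_ofFn]

theorem length_la (m L : ℕ) (h : L ≤ m) : (la m L).length = m + L := by
  unfold la
  rw [List.length_append, length_rl, length_toList, card_Bd m L h]

theorem card_Aa (m L : ℕ) (h : L ≤ m) : (Aa m L).card = 3 * (m + L) ^ 2 := by
  have h1 : (Fa m L ∪ stars (Ia m L)).card = (m + L) ^ 2 := by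
    rw [card_union_of_disjoint, card_stars, Fa, card_product, card_Ia m L h, Nat.card_Ico]
    · rcases Nat.eq_zero_or_pos (m + L) with h0 | h0
      · rw [h0]; rfl
      · obtain ⟨c, hc⟩ : ∃ c, m + L = c + 1 := ⟨m + L - 1, by omega⟩
        rw [hc, Nat.add_sub_cancel]
        ring
    · apply disj_stars
      intro p hp
      rw [Fa, mem_product, mem_Ico] at hp
      omega
  rw [Aa, card_tset, h1, card_Ea m L h]
  ring

variable {R : Type*} [CommRing R]

/-- the rates -/
def yx {m : ℕ} (y : Fin m → Fin m → R) : Tok (2 * m) → R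
  | Sum.inl p => if h : p.1.val < m ∧ p.2.val < m then y ⟨p.1.val, h.1⟩ ⟨p.2.val, h.2⟩ else 0
  | Sum.inr (Sum.inl q) => if q.1.val < m ∧ q.2 = 0 then 1 else 0
  | Sum.inr (Sum.inr _) => 0

variable [IsDomain R] [Algebra ℚ R]

omit [IsDomain R] in
theorem gser_mul_zero' (M : R) : gser (M * 0) = 1 := by rw [mul_zero, gser_zero]

/-- The symbol of the set of all tokens. -/
theorem symbol (m L : ℕ) (hL : L ≤ m) (ω : R) (hω : IsPrimitiveRoot ω (modu (2 * m)))
    (y : Fin m → Fin m → R) :
    Fil ((m + L) ^ 2)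
      (fun t => inj (tok (fun a => ω ^ lab a) (yx y)) (modu (2 * m) * t) (Aa m L))
      (C ((((2 * modu (2 * m)) ^ ((m + L) ^ 2) * (kfac (Fa m L) * kfac (Fa m L)) * L.factorial : ℕ)) : R)
        * (∏ p, alf (yx y) p) * Hl (rat (yx y)) (rl m) (Ia m L)) := by
  have hF : ∀ p ∈ Fa m L, p.2 ≠ 0 := by
    intro p hp
    rw [Fa, mem_product, mem_Ico] at hp
    omega
  have h := stage1 ω hω (yx y) (by
    intro p hp
    simp [yx, hp]) (by intro p; rfl) (Fa m L) (Fa m L) hF hF (la m L) (Ea m L) (Ia m L)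
    (nodup_la m L) (by rw [card_Ia m L hL, length_la m L hL]) ?_ ?_ ?_
  · have h1 : (la m L).toFinset = Ia m L := by
      ext i; rw [List.mem_toFinset, mem_la]
    rw [h1, card_Ea m L hL] at h
    have h2 : ∏ p ∈ Ea m L, alf (yx y) p = ∏ p, alf (yx y) p := by
      apply Finset.prod_subset (subset_univ _)
      intro p _ hp
      rw [alf, yx]
      rw [Ea, mem_product, mem_Ia, mem_Ia] at hp
      rw [dif_neg (by omega), gser_mul_zero']
    have h3 : Hl (rat (yx y)) (la m L) (Ia m L)
        = (L.factorial : PowerSeries R) * Hl (rat (yx y)) (rl m) (Ia m L) := by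
      unfold la
      rw [Hl_append, length_toList, card_Bd m L hL]
      · intro i hi j _
        rw [Finset.mem_toList, mem_Bd] at hi
        rw [rat, yx, yx]
        simp only
        rw [if_neg (by omega), dif_neg (by omega), add_zero, mul_zero, gser_zero, ginv_zero,
          one_mul]
      · rw [length_rl, length_toList, card_Bd m L hL, card_Ia m L hL]
    rw [h2, h3] at h
    have h4 : C (((((2 * modu (2 * m)) ^ ((m + L) ^ 2) * (kfac (Fa m L) * kfac (Fa m L))
        * L.factorial : ℕ)) : R)) = C ((2 * (modu (2 * m) : R)) ^ ((m + L) ^ 2) *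
          ((kfac (Fa m L) * kfac (Fa m L) : ℕ) : R)) * (L.factorial : PowerSeries R) := by
      rw [← map_natCast (C : R →+* PowerSeries R) L.factorial, ← map_mul]
      congr 1
      push_cast
      ring
    rw [h4]
    convert h using 1
    · rfl
    · ring
  · intro i
    rw [Ea, Fa, rowc_prod, rowc_prod, card_Ia m L hL, Nat.card_Ico]
    simp only [mem_la]
    by_cases hi : i ∈ Ia m L
    · rw [if_pos hi, if_pos hi, if_pos hi]
      have := i.2
      rw [mem_Ia] at hi
      omega
    · rw [if_neg hi, if_neg hi, if_neg hi]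
  · intro j
    rw [Ea, Fa, rowc_prod, colc_prod, card_Ia m L hL, Nat.card_Ico]
    by_cases hi : j ∈ Ia m L
    · rw [if_pos hi, if_pos hi, if_pos hi]
      have := j.2
      rw [mem_Ia] at hi
      omega
    · rw [if_neg hi, if_neg hi, if_neg hi]
  · intro i hi j hj
    rw [Ea, mem_product]
    exact ⟨(mem_la m L i).1 hi, hj⟩

end Pool.Agent.TH837.VP
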