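import Pool.Agent.TH837.VP.Inj

/-!
# Linear functionals on polynomials as combinations of values
-/

set_option autoImplicit false

namespace Pool.Agent.TH837.VP

open Finset

/-- A linear functional on polynomials of degree at most `d` is a combination of the values at
`0, …, d`. -/
theorem exists_weights (F : Type*) [Field F] [CharZero F] (d : ℕ) (τ : ℕ → F) :
    ∃ w : ℕ → F, ∀ k ≤ d, ∑ i ∈ range (d + 1), w i * (i : F) ^ k = τ k := by
  set V : Matrix (Fin (d + 1)) (Fin (d + 1)) F :=
    (Matrix.vandermonde fun i : Fin (d + 1) => ((i : ℕ) : F)).transpose with hV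
  have hdet : IsUnit V.det := by
    rw [hV, Matrix.det_transpose, isUnit_iff_ne_zero, Matrix.det_vandermonde_ne_zero_iff]
    intro a b h
    have h' : ((a : ℕ) : F) = ((b : ℕ) : F) := h
    exact Fin.ext (by exact_mod_cast h')
  set u : Fin (d + 1) → F := V⁻¹.mulVec (fun k : Fin (d + 1) => τ k) with hu
  have hVu : V.mulVec u = fun k : Fin (d + 1) => τ k := by
    rw [hu, Matrix.mulVec_mulVec, Matrix.mul_nonsing_inv V hdet, Matrix.one_mulVec]
  refine ⟨fun i => if h : i < d + 1 then u ⟨i, h⟩ else 0, fun k hk => ?_⟩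
  have h1 := congrFun hVu ⟨k, by omega⟩
  simp only [Matrix.mulVec, dotProduct, hV, Matrix.transpose_apply, Matrix.vandermonde_apply] at h1
  rw [← h1, Finset.sum_range]
  apply Finset.sum_congr rfl
  intro i _
  simp only [i.2, dite_true]
  rw [mul_comm]

/-- The same for polynomials over an algebra. -/
theorem exists_weights_poly (F : Type*) [Field F] [CharZero F] (R : Type*) [CommRing R]
    [Algebra F R] (d : ℕ) (τ : ℕ → F) :
    ∃ w : ℕ → F, ∀ q : Polynomial R, q.natDegree ≤ d →
      ∑ i ∈ range (d + 1), algebraMap F R (w i) * q.eval (i : R)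
        = ∑ k ∈ range (d + 1), algebraMap F R (τ k) * q.coeff k := by
  obtain ⟨w, hw⟩ := exists_weights F d τ
  refine ⟨w, fun q hq => ?_⟩
  have h1 : ∀ i : ℕ, q.eval (i : R) = ∑ k ∈ range (d + 1), q.coeff k * (i : R) ^ k := by
    intro i
    exact Polynomial.eval_eq_sum_range' (by omega) _
  simp only [h1, mul_sum]
  rw [sum_comm]
  apply Finset.sum_congr rfl
  intro k hk
  rw [Finset.mem_range] at hk
  rw [← hw k (by omega), map_sum, sum_mul]
  apply Finset.sum_congr rfl
  intro i _
  rw [map_mul, map_pow, map_natCast]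
  ring

theorem natDegree_inj {ι R : Type*} [DecidableEq ι] [CommRing R] (x : ι → Polynomial R) (D : ℕ)
    (hx : ∀ a, (x a).natDegree ≤ D) (n : ℕ) (A : Finset ι) :
    (inj x n A).natDegree ≤ A.card * (n * D) := by
  induction n generalizing A with
  | zero => rw [inj_zero]; split_ifs <;> simp
  | succ n ih =>
    rw [inj_succ]
    refine (Polynomial.natDegree_add_le _ _).trans (max_le ?_ ?_)
    · exact (ih A).trans (Nat.mul_le_mul_left _ (Nat.mul_le_mul_right _ (Nat.le_succ n)))
    · apply Polynomial.natDegree_sum_le_of_forall_le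
      intro a ha
      refine Polynomial.natDegree_mul_le.trans ?_
      have h1 : (x a ^ n).natDegree ≤ n * D :=
        Polynomial.natDegree_pow_le.trans (Nat.mul_le_mul_left _ (hx a))
      have h2 := ih (A.erase a)
      rw [card_erase_of_mem ha] at h2
      obtain ⟨c, hc⟩ : ∃ c, A.card = c + 1 := ⟨A.card - 1, by
        have : 1 ≤ A.card := card_pos.2 ⟨a, ha⟩
        omega⟩
      rw [hc] at h2 ⊢
      rw [Nat.add_sub_cancel] at h2
      calc (x a ^ n).natDegree + (inj x n (A.erase a)).natDegree ≤ n * D + c * (n * D) :=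
            Nat.add_le_add h1 h2
        _ ≤ (c + 1) * ((n + 1) * D) := by
            have : n * D ≤ (n + 1) * D := Nat.mul_le_mul_right _ (Nat.le_succ n)
            nlinarith

end Pool.Agent.TH837.VP
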