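import Pool.Agent.TH837.VP.Ext
import Pool.Agent.TH837.VP.Wts

/-!
# The symbols of the token sets and their extrapolation
-/

set_option autoImplicit false

namespace Pool.Agent.TH837.VP

open Finset PowerSeries

section gseries

variable {R : Type*} [CommRing R] [Algebra ℚ R]

theorem gser_zero : gser (0 : R) = 1 := by
  ext r
  rw [gser, coeff_mk, coeff_one]
  split_ifs with h
  · subst h; simp
  · rw [zero_pow h, zero_mul]

theorem ginv_zero : ginv (0 : R) = 1 := by
  have h := gser_mul_ginv (0 : R)
  rwa [gser_zero, one_mul] at h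

theorem constCoeff_ginv (w : R) : constantCoeff (ginv w) = 1 := by
  have h := congrArg (constantCoeff (R := R)) (gser_mul_ginv w)
  rwa [map_mul, constCoeff_gser, one_mul, map_one] at h

theorem coeff_one_gser (w : R) : coeff 1 (gser w) = w * algebraMap ℚ R (1 / 2) := by
  rw [gser, coeff_mk]
  norm_num [Nat.factorial]

theorem coeff_two_gser (w : R) : coeff 2 (gser w) = w ^ 2 * algebraMap ℚ R (1 / 6) := by
  rw [gser, coeff_mk]
  norm_num [Nat.factorial]

theorem rho_expand (a b : R) : ∃ r : PowerSeries R,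
    ginv a * (gser (a + b) * ginv b) - 1 = X ^ 2 * r ∧
      constantCoeff r = a * b * algebraMap ℚ R (1 / 12) := by
  set D : PowerSeries R := gser (a + b) - gser a * gser b with hD
  have e0 : coeff 0 D = 0 := by
    rw [hD, map_sub, coeff_mul]
    simp [constCoeff_gser]
  have e1 : coeff 1 D = 0 := by
    rw [hD, map_sub, coeff_mul, Finset.Nat.antidiagonal_succ]
    simp [constCoeff_gser, coeff_one_gser]
    ring
  have e2 : coeff 2 D = a * b * algebraMap ℚ R (1 / 12) := by
    rw [hD, map_sub, coeff_mul, Finset.Nat.sum_antidiagonal_eq_sum_range_succ_mk]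
    have h1 : algebraMap ℚ R (1 / 6) = 2 * algebraMap ℚ R (1 / 12) := by
      rw [← map_ofNat (algebraMap ℚ R) 2, ← map_mul]; norm_num
    have h2 : algebraMap ℚ R (1 / 2) = 6 * algebraMap ℚ R (1 / 12) := by
      rw [← map_ofNat (algebraMap ℚ R) 6, ← map_mul]; norm_num
    have h3 : algebraMap ℚ R (1 / 2) * algebraMap ℚ R (1 / 2) = 3 * algebraMap ℚ R (1 / 12) := by
      rw [← map_ofNat (algebraMap ℚ R) 3, ← map_mul, ← map_mul]; norm_num
    have h4 : ∀ u v : R, u * algebraMap ℚ R (1 / 2) * (v * algebraMap ℚ R (1 / 2))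
        = u * v * (3 * algebraMap ℚ R (1 / 12)) := by
      intro u v; rw [← h3]; ring
    simp only [sum_range_succ, sum_range_zero, zero_add, Nat.sub_zero, Nat.sub_self,
      show 2 - 1 = 1 from rfl, coeff_zero_eq_constantCoeff_apply, constCoeff_gser, coeff_one_gser,
      coeff_two_gser, h4, h1]
    ring
  obtain ⟨r0, hr0⟩ : X ^ 2 ∣ D := by
    rw [X_pow_dvd_iff]
    intro k hk
    interval_cases k
    · exact e0
    · exact e1
  have e3 : constantCoeff r0 = a * b * algebraMap ℚ R (1 / 12) := by
    rw [← e2, hr0, coeff_X_pow_mul', if_pos le_rfl]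
    simp
  refine ⟨r0 * (ginv a * ginv b), ?_, ?_⟩
  · rw [← mul_assoc (X ^ 2), ← hr0, hD]
    have h1 := gser_mul_ginv a
    have h2 := gser_mul_ginv b
    have h3 : gser a * gser b * (ginv a * ginv b) = (gser a * ginv a) * (gser b * ginv b) := by
      ring
    rw [sub_mul, h3, h1, h2]
    ring
  · rw [map_mul, map_mul, constCoeff_ginv, constCoeff_ginv, e3]
    ring

end gseries

end Pool.Agent.TH837.VP
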