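import Pool.Agent.TH837.VP.Eqv

/-!
# Weakly skew circuits for the permanent and for the permanents of Vandermonde matrices
-/

set_option autoImplicit false

namespace Pool.Agent.TH837.VP

open MvPolynomial

/-- `WeaklySkew s L`: some weakly skew circuit has `s` nodes, and the entries of `L` are computed at
its nodes outside of the private subcircuits. A product has one factor computed at such a node; the
other factor is computed by a private subcircuit, a weakly skew circuit of its own, of which nothing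
else is used. -/
inductive WeaklySkew {F σ : Type} [Field F] : ℕ → List (MvPolynomial σ F) → Prop
  | empty : WeaklySkew 0 []
  | var {s : ℕ} {L : List (MvPolynomial σ F)} (v : σ) : WeaklySkew s L →
      WeaklySkew (s + 1) (X v :: L)
  | const {s : ℕ} {L : List (MvPolynomial σ F)} (c : F) : WeaklySkew s L →
      WeaklySkew (s + 1) (C c :: L)
  | add {s : ℕ} {L : List (MvPolynomial σ F)} {a b : MvPolynomial σ F} : WeaklySkew s L →
      a ∈ L → b ∈ L → WeaklySkew (s + 1) ((a + b) :: L)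
  | mul {s s' : ℕ} {L L' : List (MvPolynomial σ F)} {a b : MvPolynomial σ F} : WeaklySkew s L →
      WeaklySkew s' L' → a ∈ L → b ∈ L' → WeaklySkew (s + s' + 1) ((a * b) :: L)

/-- `p` is computed by a weakly skew circuit with at most `s` nodes. -/
def WSComputable {F σ : Type} [Field F] (s : ℕ) (p : MvPolynomial σ F) : Prop :=
  ∃ (s' : ℕ) (L : List (MvPolynomial σ F)), s' ≤ s ∧ WeaklySkew s' L ∧ p ∈ L

variable {F σ : Type} [Field F]

theorem WSComputable.mono {s s' : ℕ} {p : MvPolynomial σ F} (h : WSComputable s p) (hs : s ≤ s') :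
    WSComputable s' p := by
  obtain ⟨k, L, h1, h2, h3⟩ := h
  exact ⟨k, L, h1.trans hs, h2, h3⟩

theorem WeaklySkew.append {s s' : ℕ} {L L' : List (MvPolynomial σ F)} (h : WeaklySkew s L)
    (h' : WeaklySkew s' L') : WeaklySkew (s + s') (L ++ L') := by
  induction h with
  | empty => simpa using h'
  | var v _ ih =>
    rw [Nat.add_right_comm]
    exact ih.var v
  | const c _ ih =>
    rw [Nat.add_right_comm]
    exact ih.const c
  | add _ ha hb ih =>
    rw [Nat.add_right_comm]
    exact ih.add (List.mem_append_left _ ha) (List.mem_append_left _ hb)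
  | @mul s1 s2 L1 L2 a b _ h2 ha hb ih _ =>
    have := ih.mul h2 (List.mem_append_left L' ha) hb
    rw [show s1 + s2 + 1 + s' = s1 + s' + s2 + 1 by omega]
    exact this

theorem WeaklySkew.subst {τ : Type} (θ : MvPolynomial τ F →ₐ[F] MvPolynomial σ F) (s0 : ℕ)
    (L0 : List (MvPolynomial σ F)) (h0 : WeaklySkew s0 L0) (hθ : ∀ v, θ (X v) ∈ L0) {s : ℕ}
    {L : List (MvPolynomial τ F)} (h : WeaklySkew s L) :
    ∃ (s' : ℕ) (L' : List (MvPolynomial σ F)), WeaklySkew s' L' ∧
      s' ≤ (2 * s + 1) * (s0 + 1) ∧ (∀ p ∈ L0, p ∈ L') ∧ ∀ p ∈ L, θ p ∈ L' := by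
  induction h with
  | empty => exact ⟨s0, L0, h0, by omega, fun p hp => hp, by simp⟩
  | var v _ ih =>
    obtain ⟨s', L', h1, h2, h3, h4⟩ := ih
    refine ⟨s', L', h1, h2.trans (Nat.mul_le_mul_right _ (by omega)), h3, fun q hq => ?_⟩
    rcases List.mem_cons.1 hq with rfl | hq
    · exact h3 _ (hθ v)
    · exact h4 q hq
  | const c _ ih =>
    obtain ⟨s', L', h1, h2, h3, h4⟩ := ih
    refine ⟨s' + 1, C c :: L', h1.const c, by nlinarith,
      fun q hq => List.mem_cons_of_mem _ (h3 q hq), fun q hq => ?_⟩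
    rcases List.mem_cons.1 hq with rfl | hq
    · rw [show θ (C c) = C c from AlgHom.commutes θ c]
      exact List.mem_cons_self
    · exact List.mem_cons_of_mem _ (h4 q hq)
  | @add s1 L1 a b _ ha hb ih =>
    obtain ⟨s', L', h1, h2, h3, h4⟩ := ih
    refine ⟨s' + 1, (θ a + θ b) :: L', h1.add (h4 a ha) (h4 b hb), by nlinarith,
      fun q hq => List.mem_cons_of_mem _ (h3 q hq), fun q hq => ?_⟩
    rcases List.mem_cons.1 hq with rfl | hq
    · rw [map_add]
      exact List.mem_cons_self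
    · exact List.mem_cons_of_mem _ (h4 q hq)
  | @mul s1 s2 L1 L2 a b _ _ ha hb ih ih' =>
    obtain ⟨s', L', h1, h2, h3, h4⟩ := ih
    obtain ⟨s'', L'', k1, k2, k3, k4⟩ := ih'
    refine ⟨s' + s'' + 1, (θ a * θ b) :: L', h1.mul k1 (h4 a ha) (k4 b hb), by nlinarith,
      fun q hq => List.mem_cons_of_mem _ (h3 q hq), fun q hq => ?_⟩
    rcases List.mem_cons.1 hq with rfl | hq
    · rw [map_mul]
      exact List.mem_cons_self
    · exact List.mem_cons_of_mem _ (h4 q hq)

theorem WeaklySkew.linear_combination (k s : ℕ) (q : Fin k → F) (p : Fin k → MvPolynomial σ F)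
    (h : ∀ j, WSComputable s (p j)) : WSComputable (k * (s + 3) + 1) (∑ j, C (q j) * p j) := by
  induction k with
  | zero => exact ⟨1, [C 0], by simp, WeaklySkew.empty.const 0, by simp⟩
  | succ k ih =>
    obtain ⟨s1, L, h1, h2, h3⟩ := ih (fun j => q j.castSucc) (fun j => p j.castSucc)
      (fun j => h j.castSucc)
    obtain ⟨s2, L', h1', h2', h3'⟩ := h (Fin.last k)
    set a := ∑ j : Fin k, C (q j.castSucc) * p j.castSucc with ha
    have k1 := (h2.append h2').mul (WeaklySkew.empty.const (q (Fin.last k)))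
      (List.mem_append_right L h3') (b := C (q (Fin.last k))) (by simp)
    have k2 := k1.add (a := a) (b := p (Fin.last k) * C (q (Fin.last k)))
      (List.mem_cons_of_mem _ (List.mem_append_left L' h3)) List.mem_cons_self
    refine ⟨_, _, ?_, k2, ?_⟩
    · rw [Nat.succ_mul]
      omega
    · rw [Fin.sum_univ_castSucc, mul_comm (C (q (Fin.last k)))]
      exact List.mem_cons_self

/-- concatenation -/
theorem WeaklySkew.flat (c : ℕ) (k : ℕ) (f : Fin k → List (MvPolynomial σ F))
    (h : ∀ i, ∃ s ≤ c, WeaklySkew s (f i)) :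
    ∃ (s : ℕ) (L : List (MvPolynomial σ F)), WeaklySkew s L ∧ s ≤ k * c ∧
      ∀ i, ∀ p ∈ f i, p ∈ L := by
  induction k with
  | zero => exact ⟨0, [], WeaklySkew.empty, by simp, fun i => i.elim0⟩
  | succ k ih =>
    obtain ⟨s, L, h1, h2, h3⟩ := ih (fun i => f i.castSucc) (fun i => h i.castSucc)
    obtain ⟨s', k1, k2⟩ := h (Fin.last k)
    refine ⟨s + s', L ++ f (Fin.last k), h1.append k2, ?_, fun i => ?_⟩
    · rw [Nat.succ_mul]
      omega
    · refine Fin.lastCases ?_ (fun j => ?_) i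
      · intro p hp
        exact List.mem_append_right _ hp
      · intro p hp
        exact List.mem_append_left _ (h3 j p hp)

theorem pwl_ws (i : σ) (k : ℕ) : WeaklySkew (2 * k + 2) (pwl i k : List (MvPolynomial σ F)) := by
  induction k with
  | zero => exact (WeaklySkew.empty.var i).const 1
  | succ k ih =>
    have h := ih.mul (WeaklySkew.empty.var i) (a := X i ^ k) (b := X i)
      ((pwl_spec i k).2.2.2 k le_rfl) (by simp)
    rw [← pow_succ] at h
    exact h

theorem van_of_per_ws (n s : ℕ) (h : WSComputable s (gper F n)) :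
    WSComputable ((2 * s + 1) * (n * (2 * n + 2) + 1)) (gvan F n) := by
  obtain ⟨s1, L, h1, h2, h3⟩ := h
  obtain ⟨s0, L0, k1, k2, k3⟩ := WeaklySkew.flat (2 * n + 2) n
    (fun i => (pwl i n : List (MvPolynomial (Fin n) F))) (fun i => ⟨_, le_rfl, pwl_ws i n⟩)
  obtain ⟨s', L', l1, l2, -, l4⟩ := WeaklySkew.subst
    (aeval fun p : Fin n × Fin n => (X p.1 ^ (p.2 : ℕ) : MvPolynomial (Fin n) F)) s0 L0 k1
    (by
      intro v
      rw [aeval_X]
      exact k3 v.1 _ ((pwl_spec v.1 n).2.2.2 _ v.2.2.le)) h2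
  have h4 := l4 _ h3
  rw [map_gper] at h4
  exact ⟨s', L', l2.trans (Nat.mul_le_mul (by omega) (by omega)), l1, h4⟩

theorem isAff_ws (p : MvPolynomial σ F) (h : IsAff p) :
    ∃ L : List (MvPolynomial σ F), WeaklySkew (if L.length = 1 then 1 else 5) L ∧ p ∈ L := by
  rcases h with ⟨a, rfl⟩ | ⟨a, b, v, rfl⟩
  · exact ⟨[C a], by simpa using WeaklySkew.empty.const a, by simp⟩
  · refine ⟨[C a + C b * X v, C b * X v, C b, C a], ?_, by simp⟩
    have h1 := ((WeaklySkew.empty (σ := σ).const a).const b).mul (WeaklySkew.empty.var v)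
      (a := C b) (b := X v) (by simp) (by simp)
    have h2 := h1.add (a := C a) (b := C b * X v) (by simp) (by simp)
    simpa using h2

theorem per_of_van_ws [CharZero F] (m B : ℕ)
    (h : ∀ n ≤ 700 * (m + 1) ^ 4, WSComputable B (gvan F n)) :
    WSComputable (10 ^ 11 * (m + 1) ^ 17 * ((2 * B + 1) * (3500 * (m + 1) ^ 4 + 1) + 3) + 1)
      (gper F m) := by
  obtain ⟨s, q, n, ℓ, h1, h2, h3, h4⟩ := rep F m
  have key : ∀ j : Fin s, WSComputable ((2 * B + 1) * (3500 * (m + 1) ^ 4 + 1))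
      (Matrix.vandermonde (ℓ j)).permanent := by
    intro j
    obtain ⟨s1, L, a1, a2, a3⟩ := h (n j) (h2 j)
    choose f f1 f2 using fun i => isAff_ws (ℓ j i) (h3 j i)
    obtain ⟨s0, L0, k1, k2, k3⟩ := WeaklySkew.flat 5 (n j) f
      (fun i => ⟨_, by split_ifs <;> omega, f1 i⟩)
    obtain ⟨s', L', l1, l2, -, l4⟩ := WeaklySkew.subst (aeval (ℓ j)) s0 L0 k1
      (by
        intro v
        rw [aeval_X]
        exact k3 v _ (f2 v)) a2
    have h5 := l4 _ a3
    rw [map_gvan] at h5
    refine ⟨s', L', l2.trans (Nat.mul_le_mul (by omega) ?_), l1, h5⟩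
    have := h2 j
    omega
  have h5 := WeaklySkew.linear_combination s _ q _ key
  rw [← h4] at h5
  exact h5.mono (Nat.add_le_add_right (Nat.mul_le_mul_right _ h1) _)

/-- The permanents of the generic matrices have weakly skew circuits of polynomial size if and only
if the permanents of the Vandermonde matrices have. -/
theorem per_iff_van_ws (F : Type) [Field F] [CharZero F] :
    (∃ K e : ℕ, ∀ n : ℕ, WSComputable (K * (n + 1) ^ e) (gper F n)) ↔
      ∃ K e : ℕ, ∀ n : ℕ, WSComputable (K * (n + 1) ^ e) (gvan F n) := by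
  constructor
  · rintro ⟨K, e, h⟩
    refine ⟨(2 * K + 1) * 3, e + 2, fun n => (van_of_per_ws n _ (h n)).mono ?_⟩
    have h1 : 1 ≤ (n + 1) ^ e := Nat.one_le_pow _ _ (by omega)
    calc (2 * (K * (n + 1) ^ e) + 1) * (n * (2 * n + 2) + 1)
        ≤ ((2 * K + 1) * (n + 1) ^ e) * (3 * (n + 1) ^ 2) := by
          apply Nat.mul_le_mul
          · rw [add_mul, mul_assoc]
            omega
          · nlinarith
      _ = (2 * K + 1) * 3 * (n + 1) ^ (e + 2) := by ring
  · rintro ⟨K, e, h⟩
    refine ⟨10 ^ 11 * ((2 * K * 701 ^ e + 1) * 3504) + 1, 17 + (4 * e + 4), fun m => ?_⟩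
    have h0 : ∀ k, 1 ≤ (m + 1) ^ k := fun k => Nat.one_le_pow _ _ (by omega)
    have h1 : ∀ n ≤ 700 * (m + 1) ^ 4,
        WSComputable (K * (701 ^ e * (m + 1) ^ (4 * e))) (gvan F n) := by
      intro n hn
      refine (h n).mono (Nat.mul_le_mul_left _ ?_)
      calc (n + 1) ^ e ≤ (701 * (m + 1) ^ 4) ^ e := by
            apply Nat.pow_le_pow_left
            have := h0 4
            omega
        _ = 701 ^ e * (m + 1) ^ (4 * e) := by rw [mul_pow, ← pow_mul]
    refine (per_of_van_ws m _ h1).mono ?_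
    have h2 : (2 * (K * (701 ^ e * (m + 1) ^ (4 * e))) + 1) * (3500 * (m + 1) ^ 4 + 1) + 3
        ≤ ((2 * K * 701 ^ e + 1) * 3504) * (m + 1) ^ (4 * e + 4) := by
      have e1 : 2 * (K * (701 ^ e * (m + 1) ^ (4 * e))) + 1
          ≤ (2 * K * 701 ^ e + 1) * (m + 1) ^ (4 * e) := by
        have := h0 (4 * e)
        rw [add_mul, one_mul, mul_assoc, mul_assoc]
        omega
      have e2 : 3500 * (m + 1) ^ 4 + 1 ≤ 3501 * (m + 1) ^ 4 := by
        have := h0 4
        omega
      have e3 : 3 ≤ 3 * ((2 * K * 701 ^ e + 1) * (m + 1) ^ (4 * e + 4)) := by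
        have h6 : 1 ≤ (2 * K * 701 ^ e + 1) * (m + 1) ^ (4 * e + 4) :=
          Nat.mul_pos (by omega) (h0 _)
        omega
      calc (2 * (K * (701 ^ e * (m + 1) ^ (4 * e))) + 1) * (3500 * (m + 1) ^ 4 + 1) + 3
          ≤ ((2 * K * 701 ^ e + 1) * (m + 1) ^ (4 * e)) * (3501 * (m + 1) ^ 4)
            + 3 * ((2 * K * 701 ^ e + 1) * (m + 1) ^ (4 * e + 4)) :=
            Nat.add_le_add (Nat.mul_le_mul e1 e2) e3
        _ = ((2 * K * 701 ^ e + 1) * 3504) * (m + 1) ^ (4 * e + 4) := by
            rw [pow_add (m + 1) (4 * e) 4]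
            ring
    calc 10 ^ 11 * (m + 1) ^ 17 *
          ((2 * (K * (701 ^ e * (m + 1) ^ (4 * e))) + 1) * (3500 * (m + 1) ^ 4 + 1) + 3) + 1
        ≤ 10 ^ 11 * (m + 1) ^ 17 * (((2 * K * 701 ^ e + 1) * 3504) * (m + 1) ^ (4 * e + 4))
          + (m + 1) ^ (17 + (4 * e + 4)) :=
          Nat.add_le_add (Nat.mul_le_mul_left _ h2) (h0 _)
      _ = (10 ^ 11 * ((2 * K * 701 ^ e + 1) * 3504) + 1) * (m + 1) ^ (17 + (4 * e + 4)) := by
          rw [pow_add (m + 1) 17]
          ring

end Pool.Agent.TH837.VP
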